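import Pool.Agent.Lib.Common.Planar.Menger

/-! Long chains of small cuts through a cubic region. -/

namespace Pool.Agent.Lib.MP_9550e9_co

open SimpleGraph Pool.Agent.Lib.Common.Pl

variable {V : Type}

theorem dec_of_dec_res [Finite V] {G G₀ : SimpleGraph V} {Z : Set V} {w z : ℕ} (hZ : Z.ncard ≤ z)
    (hG : ∀ a b, G.Adj a b → G₀.Adj a b ∨ (a ∈ Z ∧ b ∈ Z)) (h : Dec G₀ w) : Dec G (w + z) := by
  obtain ⟨𝒰, ⟨U₀, hU₀, hU₀c⟩, h𝒰⟩ := h
  refine ⟨{W | ∃ U ∈ 𝒰, W = U \ Z}, ⟨U₀ \ Z, ⟨U₀, hU₀, rfl⟩, ?_⟩, ?_⟩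
  · have h1 : (U₀ \ Z)ᶜ ⊆ U₀ᶜ ∪ Z := by
      intro x hx
      by_cases hxZ : x ∈ Z
      · exact Or.inr hxZ
      · exact Or.inl fun hxU => hx ⟨hxU, hxZ⟩
    have h2 := Set.ncard_le_ncard h1 (Set.toFinite _)
    have h3 := Set.ncard_union_le U₀ᶜ Z
    omega
  · rintro W ⟨U', hU', hW⟩
    classical
    have hex : ∃ n, ∃ U ∈ 𝒰, W = U \ Z ∧ U.ncard = n := ⟨_, U', hU', hW, rfl⟩
    obtain ⟨U, hU, hWU, hn⟩ := Nat.find_spec hex
    have hmin : ∀ U₁ ∈ 𝒰, W = U₁ \ Z → U.ncard ≤ U₁.ncard := fun U₁ h1 h2 =>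
      hn ▸ Nat.find_min' hex ⟨U₁, h1, h2, rfl⟩
    have hmin' : ∀ U₁ ∈ 𝒰, W = U₁ \ Z → ¬ U₁ ⊂ U := fun U₁ h1 h2 h3 => by
      have h4 := hmin U₁ h1 h2
      have h5 := Set.ncard_lt_ncard h3 (Set.toFinite _)
      omega
    obtain ⟨hbd, hsplit⟩ := h𝒰 U hU
    constructor
    · have h1 : bd G W ⊆ bd G₀ U ∪ Z := by
        rintro x ⟨hx, u, hu, hxu⟩
        rw [hWU] at hx hu
        by_cases hxZ : x ∈ Z
        · exact Or.inr hxZ
        · rcases hG x u hxu with h | h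
          · exact Or.inl ⟨fun hxU => hx ⟨hxU, hxZ⟩, u, hu.1, h⟩
          · exact absurd h.1 hxZ
      have h2 := Set.ncard_le_ncard h1 (Set.toFinite _)
      have h3 := Set.ncard_union_le (bd G₀ U) Z
      omega
    · intro hWne
      have hUne : U.Nonempty := hWne.mono (by rw [hWU]; exact Set.sdiff_subset)
      rcases hsplit hUne with ⟨Y, hYU, hYne, hYc, hY⟩ | ⟨U₁, h1, U₂, h2, hne1, hne2, hd, hun⟩
      · left
        refine ⟨Y \ Z, ?_, ?_, ?_, U \ Y, hY, ?_⟩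
        · rw [hWU]; exact Set.sdiff_subset_sdiff_left hYU
        · by_contra hemp
          refine hmin' (U \ Y) hY ?_ ?_
          · rw [hWU]
            ext x
            constructor
            · rintro ⟨hxU, hxZ⟩
              exact ⟨⟨hxU, fun hxY => hemp ⟨x, hxY, hxZ⟩⟩, hxZ⟩
            · rintro ⟨⟨hxU, -⟩, hxZ⟩
              exact ⟨hxU, hxZ⟩
          · obtain ⟨y, hy⟩ := hYne
            exact ⟨Set.sdiff_subset, fun hs => (hs (hYU hy)).2 hy⟩
        · have := Set.ncard_le_ncard (Set.sdiff_subset (s := Y) (t := Z)) (Set.toFinite _)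
          omega
        · rw [hWU]
          ext x
          simp only [Set.mem_sdiff]
          tauto
      · right
        have key : ∀ A B : Set V, A ∈ 𝒰 → B.Nonempty → Disjoint A B → A ∪ B = U →
            (B \ Z).Nonempty := by
          intro A B hA hB hAB hABU
          by_contra hemp
          refine hmin' A hA ?_ ?_
          · rw [hWU, ← hABU]
            ext x
            constructor
            · rintro ⟨hx | hx, hxZ⟩
              · exact ⟨hx, hxZ⟩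
              · exact absurd ⟨x, hx, hxZ⟩ hemp
            · rintro ⟨hx, hxZ⟩
              exact ⟨Or.inl hx, hxZ⟩
          · obtain ⟨y, hy⟩ := hB
            rw [← hABU]
            exact ⟨Set.subset_union_left, fun hs =>
              Set.disjoint_left.1 hAB (hs (Or.inr hy)) hy⟩
        refine ⟨U₁ \ Z, ⟨U₁, h1, rfl⟩, U₂ \ Z, ⟨U₂, h2, rfl⟩,
          key U₂ U₁ h2 hne1 hd.symm (by rw [Set.union_comm, hun]), key U₁ U₂ h1 hne2 hd hun,
          hd.mono Set.sdiff_subset Set.sdiff_subset, ?_⟩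
        rw [hWU, ← hun, Set.union_sdiff_distrib]

/-- A strictly decreasing chain of sets with small boundary such that all vertices removed along
the chain have degree three. -/
def CubicChain (G : SimpleGraph V) (w L : ℕ) (U : ℕ → Set V) : Prop :=
  (∀ i < L, U (i + 1) ⊂ U i) ∧ (∀ i ≤ L, (bd G (U i)).ncard ≤ w) ∧
    ∀ v ∈ U 0, v ∉ U L → (G.neighborSet v).ncard = 3

/-- There is a cubic chain of length `s` ending in `U`. -/
def Streak (G : SimpleGraph V) (w s : ℕ) (U : Set V) : Prop :=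
  ∃ f : ℕ → Set V, f s = U ∧ CubicChain G w s f

theorem streak_zero {G : SimpleGraph V} {w : ℕ} {U : Set V} (h : (bd G U).ncard ≤ w) :
    Streak G w 0 U :=
  ⟨fun _ => U, rfl, fun i hi => absurd hi (Nat.not_lt_zero i), fun _ _ => h,
    fun _ hv hv' => absurd hv hv'⟩

theorem Streak.succ {G : SimpleGraph V} {w s : ℕ} {U U' : Set V} (h : Streak G w s U)
    (hss : U' ⊂ U) (hbd : (bd G U').ncard ≤ w)
    (hc : ∀ v ∈ U, v ∉ U' → (G.neighborSet v).ncard = 3) : Streak G w (s + 1) U' := by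
  obtain ⟨f, hf, h1, h2, h3⟩ := h
  refine ⟨fun i => if i ≤ s then f i else U', by simp, ?_, ?_, ?_⟩
  · intro i hi
    rcases Nat.lt_succ_iff_lt_or_eq.1 hi with hi | rfl
    · have e1 : i + 1 ≤ s := hi
      have e2 : i ≤ s := hi.le
      simp only [e1, e2, if_true]
      exact h1 i hi
    · simp only [le_refl, if_true, Nat.add_one_le_iff, lt_irrefl, if_false]
      rw [hf]; exact hss
  · intro i _
    by_cases hi : i ≤ s
    · simp only [hi, if_true]; exact h2 i hi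
    · simp only [hi, if_false]; exact hbd
  · intro v hv hv'
    simp only [Nat.zero_le, if_true] at hv
    simp only [Nat.add_one_le_iff, lt_irrefl, if_false] at hv'
    by_cases hvU : v ∈ U
    · exact hc v hvU hv'
    · exact h3 v hv (by rw [hf]; exact hvU)

/-- The bound for members of the decomposition that contain only cubic vertices. -/
def qB (w : ℕ) : ℕ → ℕ
  | 0 => 0
  | r + 1 => 2 * qB w r + w

theorem ncard_eq_add_of_subset [Finite V] {U Z : Set V} (h : Z ⊆ U) :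
    U.ncard = (U \ Z).ncard + Z.ncard :=
  (Set.ncard_sdiff_add_ncard_of_subset h (Set.toFinite _)).symm

section

variable [Finite V] {G : SimpleGraph V} {w L : ℕ} {𝒰 : Set (Set V)}

theorem card_le_qB
    (h𝒰 : ∀ U ∈ 𝒰, (bd G U).ncard ≤ w ∧
      (U.Nonempty → (∃ Z, Z ⊆ U ∧ Z.Nonempty ∧ Z.ncard ≤ w ∧ U \ Z ∈ 𝒰) ∨
        ∃ U₁ ∈ 𝒰, ∃ U₂ ∈ 𝒰, U₁.Nonempty ∧ U₂.Nonempty ∧ Disjoint U₁ U₂ ∧ U₁ ∪ U₂ = U))
    (hno : ∀ U, ¬ Streak G w L U) (r : ℕ) :
    ∀ s, s + r = L → ∀ U ∈ 𝒰, Streak G w s U → (∀ v ∈ U, (G.neighborSet v).ncard = 3) →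
      U.ncard ≤ qB w r := by
  induction r with
  | zero =>
    intro s hs U _ hst _
    obtain rfl : s = L := by omega
    exact absurd hst (hno U)
  | succ r ih =>
    intro s hs U hU hst hc
    rcases U.eq_empty_or_nonempty with rfl | hne
    · simp
    have step : ∀ U' ∈ 𝒰, U' ⊂ U → U'.ncard ≤ qB w r := fun U' hU' hss =>
      ih (s + 1) (by omega) U' hU' (hst.succ hss (h𝒰 U' hU').1 fun v hv _ => hc v hv)
        fun v hv => hc v (hss.1 hv)
    rcases (h𝒰 U hU).2 hne with ⟨Y, hYU, ⟨y, hy⟩, hYc, hY⟩ |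
      ⟨U₁, h1, U₂, h2, ⟨y₁, hy₁⟩, ⟨y₂, hy₂⟩, hd, rfl⟩
    · have e1 := step _ hY ⟨Set.sdiff_subset, fun hs => (hs (hYU hy)).2 hy⟩
      have e2 := ncard_eq_add_of_subset hYU
      simp only [qB]
      omega
    · have e1 := step _ h1 ⟨Set.subset_union_left, fun hs =>
        Set.disjoint_left.1 hd (hs (Or.inr hy₂)) hy₂⟩
      have e2 := step _ h2 ⟨Set.subset_union_right, fun hs =>
        Set.disjoint_left.1 hd hy₁ (hs (Or.inl hy₁))⟩
      have e3 := Set.ncard_union_le U₁ U₂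
      simp only [qB]
      omega

theorem card_le_pot
    (h𝒰 : ∀ U ∈ 𝒰, (bd G U).ncard ≤ w ∧
      (U.Nonempty → (∃ Z, Z ⊆ U ∧ Z.Nonempty ∧ Z.ncard ≤ w ∧ U \ Z ∈ 𝒰) ∨
        ∃ U₁ ∈ 𝒰, ∃ U₂ ∈ 𝒰, U₁.Nonempty ∧ U₂.Nonempty ∧ Disjoint U₁ U₂ ∧ U₁ ∪ U₂ = U))
    (hno : ∀ U, ¬ Streak G w L U) {c M : ℕ} (hc : c = qB w L + w) (hM : M = 2 * (L * c) + w)
    (n : ℕ) :
    ∀ U ∈ 𝒰, U.ncard = n → ∀ s r, s + r = L → Streak G w s U →
      (U ∩ {v | (G.neighborSet v).ncard ≠ 3}).Nonempty →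
      U.ncard + M ≤ r * c + 2 * (M * (U ∩ {v | (G.neighborSet v).ncard ≠ 3}).ncard) := by
  set B : Set V := {v | (G.neighborSet v).ncard ≠ 3} with hB
  have free : ∀ U ∈ 𝒰, ¬ (U ∩ B).Nonempty → U.ncard ≤ qB w L := fun U hU h =>
    card_le_qB h𝒰 hno L 0 (by omega) U hU (streak_zero (h𝒰 U hU).1) fun v hv => by
      by_contra hv'
      exact h ⟨v, hv, hv'⟩
  induction n using Nat.strong_induction_on with
  | _ n ih =>
    intro U hU hn s r hsr hst hbad
    obtain _ | r := r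
    · obtain rfl : s = L := by omega
      exact absurd hst (hno U)
    have hpos : 1 ≤ (U ∩ B).ncard := (Set.ncard_pos (Set.toFinite _)).2 hbad
    have hMpos : M ≤ M * (U ∩ B).ncard := Nat.le_mul_of_pos_right M hpos
    have hrc : (r + 1) * c = r * c + c := by ring
    -- continuing the streak
    have cont : ∀ U' ∈ 𝒰, U' ⊂ U → ¬ ((U \ U') ∩ B).Nonempty →
        U'.ncard + M ≤ r * c + 2 * (M * (U ∩ B).ncard) := by
      intro U' hU' hss hfree
      have e : U' ∩ B = U ∩ B := by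
        ext x
        constructor
        · rintro ⟨h1, h2⟩; exact ⟨hss.1 h1, h2⟩
        · rintro ⟨h1, h2⟩
          refine ⟨?_, h2⟩
          by_contra h3
          exact hfree ⟨x, ⟨h1, h3⟩, h2⟩
      have := ih U'.ncard (hn ▸ Set.ncard_lt_ncard hss (Set.toFinite _)) U' hU' rfl (s + 1) r
        (by omega) (hst.succ hss (h𝒰 U' hU').1 fun v hv hv' => by
          by_contra h
          exact hfree ⟨v, ⟨hv, hv'⟩, h⟩) (by rw [e]; exact hbad)
      rwa [e] at this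
    -- restarting
    have restart : ∀ U' ∈ 𝒰, U' ⊂ U → (U' ∩ B).Nonempty →
        U'.ncard + M ≤ L * c + 2 * (M * (U' ∩ B).ncard) := fun U' hU' hss hb =>
      ih U'.ncard (hn ▸ Set.ncard_lt_ncard hss (Set.toFinite _)) U' hU' rfl 0 L (by omega)
        (streak_zero (h𝒰 U' hU').1) hb
    rcases (h𝒰 U hU).2 (hbad.mono Set.inter_subset_left) with ⟨Y, hYU, ⟨y, hy⟩, hYc, hY⟩ |
      ⟨U₁, h1, U₂, h2, ⟨y₁, hy₁⟩, ⟨y₂, hy₂⟩, hd, hun⟩
    · have hss : U \ Y ⊂ U := ⟨Set.sdiff_subset, fun hs => (hs (hYU hy)).2 hy⟩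
      have e2 := ncard_eq_add_of_subset hYU
      by_cases hYB : ((U \ (U \ Y)) ∩ B).Nonempty
      · by_cases hb : ((U \ Y) ∩ B).Nonempty
        · have e1 := restart _ hY hss hb
          have e3 : ((U \ Y) ∩ B).ncard + 1 ≤ (U ∩ B).ncard := by
            refine Set.ncard_lt_ncard ⟨fun x hx => ⟨hx.1.1, hx.2⟩, fun hs => ?_⟩ (Set.toFinite _)
            obtain ⟨x, ⟨hx1, hx2⟩, hx3⟩ := hYB
            exact hx2 (hs ⟨hx1, hx3⟩).1
          have e4 := Nat.mul_le_mul_left M e3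
          rw [Nat.mul_add] at e4
          omega
        · have e1 := free _ hY hb
          omega
      · have e1 := cont _ hY hss hYB
        omega
    · have hss1 : U₁ ⊂ U := hun ▸ ⟨Set.subset_union_left, fun hs =>
        Set.disjoint_left.1 hd (hs (Or.inr hy₂)) hy₂⟩
      have hss2 : U₂ ⊂ U := hun ▸ ⟨Set.subset_union_right, fun hs =>
        Set.disjoint_left.1 hd hy₁ (hs (Or.inl hy₁))⟩
      have e3 : U.ncard ≤ U₁.ncard + U₂.ncard := hun ▸ Set.ncard_union_le U₁ U₂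
      by_cases hb1 : (U₁ ∩ B).Nonempty
      · by_cases hb2 : (U₂ ∩ B).Nonempty
        · have e1 := restart _ h1 hss1 hb1
          have e2 := restart _ h2 hss2 hb2
          have e4 : (U ∩ B).ncard = (U₁ ∩ B).ncard + (U₂ ∩ B).ncard := by
            rw [← hun, Set.union_inter_distrib_right]
            exact Set.ncard_union_eq (hd.mono Set.inter_subset_left Set.inter_subset_left)
              (Set.toFinite _) (Set.toFinite _)
          rw [e4, Nat.mul_add]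
          omega
        · have e1 := cont _ h1 hss1 (by
            rintro ⟨x, ⟨hx1, hx2⟩, hx3⟩
            rw [← hun] at hx1
            rcases hx1 with hx1 | hx1
            · exact hx2 hx1
            · exact hb2 ⟨x, hx1, hx3⟩)
          have e2 := free _ h2 hb2
          omega
      · have e1 := cont _ h2 hss2 (by
          rintro ⟨x, ⟨hx1, hx2⟩, hx3⟩
          rw [← hun] at hx1
          rcases hx1 with hx1 | hx1
          · exact hb1 ⟨x, hx1, hx3⟩
          · exact hx2 hx1)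
        have e2 := free _ h1 hb1
        omega

end

theorem exists_cubicChain (w L : ℕ) : ∃ M N : ℕ, ∀ (V : Type) [Finite V] (G : SimpleGraph V),
    Dec G w → N + M * {v | (G.neighborSet v).ncard ≠ 3}.ncard < Nat.card V →
      ∃ U, CubicChain G w L U := by
  obtain ⟨c, hc⟩ : ∃ c, c = qB w L + w := ⟨_, rfl⟩
  obtain ⟨M, hM⟩ : ∃ M, M = 2 * (L * c) + w := ⟨_, rfl⟩
  refine ⟨2 * M, c + L * c, fun V _ G hD hlt => ?_⟩
  obtain ⟨𝒰, ⟨U, hU, hUc⟩, h𝒰⟩ := hD
  by_contra hcon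
  have hno : ∀ U, ¬ Streak G w L U := fun U ⟨f, _, hf⟩ => hcon ⟨f, hf⟩
  have e0 : U.ncard + Uᶜ.ncard = Nat.card V := Set.ncard_add_ncard_compl U
  by_cases hb : (U ∩ {v | (G.neighborSet v).ncard ≠ 3}).Nonempty
  · have e1 := card_le_pot h𝒰 hno hc hM _ U hU rfl 0 L (by omega) (streak_zero (h𝒰 U hU).1) hb
    have e2 : (U ∩ {v | (G.neighborSet v).ncard ≠ 3}).ncard ≤
        {v | (G.neighborSet v).ncard ≠ 3}.ncard :=
      Set.ncard_le_ncard Set.inter_subset_right (Set.toFinite _)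
    have e3 := Nat.mul_le_mul_left M e2
    rw [Nat.mul_assoc] at hlt
    omega
  · have e1 := card_le_qB h𝒰 hno L 0 (by omega) U hU (streak_zero (h𝒰 U hU).1) fun v hv => by
      by_contra hv'
      exact hb ⟨v, hv, hv'⟩
    omega

/-- A linked chain: `O` is the ambient set, `x i` lists the boundary of `U i` inside `O`. -/
structure Linked (G : SimpleGraph V) (w p t : ℕ) where
  O : Set V
  U : ℕ → Set V
  x : ℕ → Fin t → V
  bdO : (bd G O).ncard ≤ w
  sub : U 0 ⊆ O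
  anti : ∀ i < p, U (i + 1) ⊂ U i
  cubic : ∀ v ∈ O, v ∉ U p → (G.neighborSet v).ncard = 3
  x_inj : ∀ i ≤ p, Function.Injective (x i)
  range_x : ∀ i ≤ p, Set.range (x i) = bd G (U i) ∩ O
  link : ∀ i j, i < j → j ≤ p → ∃ T : Fin t → Set V,
    (∀ l, T l ⊆ {x i l} ∪ (U i \ U j) ∧ RIn G (T l) (x i l) (x j l)) ∧
      ∀ l l', l ≠ l' → Disjoint (T l) (T l')

theorem chain_anti {L : ℕ} {U : ℕ → Set V} (h : ∀ i < L, U (i + 1) ⊂ U i) {i j : ℕ}
    (hij : i ≤ j) (hj : j ≤ L) : U j ⊆ U i := by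
  induction j, hij using Nat.le_induction with
  | base => exact le_rfl
  | succ k _ ih => exact (h k (by omega)).1.trans (ih (by omega))

/-- A chain inside the ambient set `O` whose boundaries inside `O` have at most `t` elements. -/
def OChain (G : SimpleGraph V) (O : Set V) (t L : ℕ) (U : ℕ → Set V) : Prop :=
  U 0 ⊆ O ∧ (∀ i < L, U (i + 1) ⊂ U i) ∧ (∀ i ≤ L, (bd G (U i) ∩ O).ncard ≤ t) ∧
    ∀ v ∈ O, v ∉ U L → (G.neighborSet v).ncard = 3

theorem linked_of_pathSys [Finite V] {G : SimpleGraph V} {O : Set V} {w p t : ℕ}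
    {U : ℕ → Set V} (hO : (bd G O).ncard ≤ w) (h : OChain G O t p U)
    (P : PathSys (res G O) (bd G (U 0) ∩ O) (bd G (U p) ∩ O) (Fin t)) :
    Nonempty (Linked G w p t) := by
  obtain ⟨h0, h1, h2, h3⟩ := h
  obtain ⟨T, hT⟩ : ∃ T : Fin t → Set V, ∀ l, T l = {z | z ∈ (P.p l).support} := ⟨_, fun _ => rfl⟩
  have hs : ∀ l, ∀ z ∈ T l, RIn G (T l) (P.s l) z := fun l z hz => by
    rw [hT] at hz ⊢
    exact (rIn_support_start (P.p l) hz).mono_graph res_le
  have hTO : ∀ l, T l ⊆ O := fun l z hz => by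
    rw [hT] at hz
    exact (rIn_support_start (P.p l) hz).induction (P := fun z => z ∈ O) (P.s_mem l).2
      fun a b _ _ hab _ => hab.2.2
  have hdisj : ∀ l l', l ≠ l' → Disjoint (T l) (T l') := fun l l' hl => by
    rw [hT, hT]
    exact Set.disjoint_left.2 fun z hz => P.disj l l' hl z hz
  have hsU : ∀ i ≤ p, ∀ l, P.s l ∉ U i := fun i hi l hsl =>
    (P.s_mem l).1.1 (chain_anti h1 (Nat.zero_le i) hi hsl)
  have htT : ∀ l, P.t l ∈ T l := fun l => by
    rw [hT]; exact (P.p l).end_mem_support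
  have hex : ∀ i l, ∃ y, i ≤ p → y ∈ T l ∧ y ∈ bd G (U i) := by
    intro i l
    by_cases hi : i ≤ p
    · by_cases ht : P.t l ∈ U i
      · obtain ⟨a, b, ha, hab, -, hb⟩ := (hs l _ (htT l)).exists_exit (A := (U i)ᶜ) (hsU i hi l)
          (fun h => h ht)
        exact ⟨a, fun _ => ⟨ha.right_mem.1, ha.right_mem.2, b, not_not.1 hb, hab⟩⟩
      · obtain ⟨-, u, hu, hadj⟩ := (P.t_mem l).1
        exact ⟨P.t l, fun _ => ⟨htT l, ht, u, chain_anti h1 hi le_rfl hu, hadj⟩⟩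
    · exact ⟨P.s l, fun h => absurd h hi⟩
  choose x hx using hex
  have hinj : ∀ i ≤ p, Function.Injective (x i) := by
    intro i hi l l' e
    by_contra hl
    exact Set.disjoint_left.1 (hdisj l l' hl) (hx i l hi).1 (e ▸ (hx i l' hi).1)
  have hrange : ∀ i ≤ p, Set.range (x i) = bd G (U i) ∩ O := by
    intro i hi
    refine Set.eq_of_subset_of_ncard_le ?_ ?_ (Set.toFinite _)
    · rintro _ ⟨l, rfl⟩
      exact ⟨(hx i l hi).2, hTO l (hx i l hi).1⟩
    · rw [Set.ncard_range_of_injective (hinj i hi)]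
      simpa using h2 i hi
  have huniq : ∀ i ≤ p, ∀ l, ∀ y ∈ T l, y ∈ bd G (U i) → y = x i l := by
    intro i hi l y hy hyb
    have : y ∈ Set.range (x i) := by rw [hrange i hi]; exact ⟨hyb, hTO l hy⟩
    obtain ⟨l', rfl⟩ := this
    by_contra hne
    have hl : l' ≠ l := fun e => hne (by rw [e])
    exact Set.disjoint_left.1 (hdisj l' l hl) (hx i l' hi).1 hy
  refine ⟨⟨O, U, x, hO, h0, h1, h3, hinj, hrange, fun i j hij hj => ?_⟩⟩
  have hi : i ≤ p := by omega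
  have hji : U j ⊆ U i := chain_anti h1 hij.le hj
  refine ⟨fun l => T l ∩ ({x i l} ∪ (U i \ U j)), fun l => ⟨Set.inter_subset_right, ?_⟩,
    fun l l' hl => (hdisj l l' hl).mono Set.inter_subset_left Set.inter_subset_left⟩
  by_cases hxj : x j l ∈ U i
  · have k1 : RIn G (T l ∩ (U j)ᶜ) (P.s l) (x j l) := by
      by_cases hm : ∃ v ∈ T l, v ∈ U j
      · obtain ⟨v, hv, hvj⟩ := hm
        obtain ⟨a, b, ha, hab, -, hb⟩ := (hs l v hv).exists_exit (A := (U j)ᶜ) (hsU j hj l)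
          (fun h => h hvj)
        have : a = x j l := huniq j hj l a ha.right_mem.1 ⟨ha.right_mem.2, b, not_not.1 hb, hab⟩
        exact this ▸ ha
      · exact (hs l _ (hx j l hj).1).mono fun v hv => ⟨hv, fun hvj => hm ⟨v, hv, hvj⟩⟩
    obtain ⟨a, b, ha, hab, hb, hbi⟩ := k1.symm.exists_exit (A := U i) hxj (hsU i hi l)
    have e : b = x i l := huniq i hi l b hb.1 ⟨hbi, a, ha.right_mem.2, hab.symm⟩
    have k2 : RIn G (T l ∩ ({x i l} ∪ (U i \ U j))) (x j l) a :=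
      ha.mono fun v hv => ⟨hv.1.1, Or.inr ⟨hv.2, hv.1.2⟩⟩
    have k3 := k2.tail hab ⟨hb.1, Or.inl e⟩
    rw [e] at k3
    exact k3.symm
  · obtain ⟨-, u, hu, hadj⟩ := (hx j l hj).2
    have e : x j l = x i l := huniq i hi l _ (hx j l hj).1 ⟨hxj, u, hji hu, hadj⟩
    rw [e]
    exact RIn.refl ⟨(hx i l hi).1, Or.inl rfl⟩

theorem between_of_sep [Finite V] {G : SimpleGraph V} {O A B S : Set V} (hAO : A ⊆ O)
    (hBA : B ⊆ A) (hS : Sep (res G O) (bd G A ∩ O) (bd G B ∩ O) S) :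
    ∃ C : Set V, B ⊆ C ∧ C ⊆ A ∧ (bd G C ∩ O).ncard ≤ S.ncard := by
  obtain ⟨Y, hY⟩ : ∃ Y : Set V, Y = {v | ∃ y ∈ bd G B ∩ O, RIn (res G O) Sᶜ y v} := ⟨_, rfl⟩
  have hYA : Y ⊆ A := by
    rw [hY]
    rintro v ⟨y, hy, hyv⟩
    by_contra hv
    by_cases hyA : y ∈ A
    · obtain ⟨a, b, ha, hab, hb, hbA⟩ := hyv.exists_exit hyA hv
      exact hS b ⟨⟨hbA, a, ha.right_mem.2, hab.1.symm⟩, hab.2.2⟩ y hy
        ((ha.mono Set.inter_subset_left).tail hab hb).symm
    · obtain ⟨⟨-, u, hu, hadj⟩, hyO⟩ := id hy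
      exact hS y ⟨⟨hyA, u, hBA hu, hadj⟩, hyO⟩ y hy (RIn.refl hyv.left_mem)
  refine ⟨B ∪ Y, Set.subset_union_left, Set.union_subset hBA hYA,
    Set.ncard_le_ncard ?_ (Set.toFinite _)⟩
  rintro x ⟨⟨hx, u, hu, hadj⟩, hxO⟩
  by_contra hxS
  refine hx (Or.inr ?_)
  rcases hu with hu | hu
  · rw [hY]
    exact ⟨x, ⟨⟨fun h => hx (Or.inl h), u, hu, hadj⟩, hxO⟩, RIn.refl hxS⟩
  · have huO := hAO (hYA hu)
    rw [hY] at hu ⊢
    obtain ⟨y, hy, hyu⟩ := hu
    exact ⟨y, hy, hyu.tail ⟨hadj.symm, huO, hxO⟩ hxS⟩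

theorem OChain.shift {G : SimpleGraph V} {O : Set V} {t L : ℕ} {U : ℕ → Set V}
    (h : OChain G O t L U) {a p : ℕ} (hap : a + p ≤ L) :
    OChain G O t p fun i => U (a + i) := by
  obtain ⟨h0, h1, h2, h3⟩ := h
  refine ⟨(chain_anti h1 (Nat.zero_le _) (by omega)).trans h0, fun i hi => h1 (a + i) (by omega),
    fun i hi => h2 (a + i) (by omega), fun v hv hv' => h3 v hv fun h => hv' ?_⟩
  exact chain_anti h1 hap le_rfl h

theorem exists_linked_aux (w p t : ℕ) : ∃ L : ℕ, ∀ (V : Type) [Finite V] (G : SimpleGraph V)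
    (O : Set V) (U : ℕ → Set V), (bd G O).ncard ≤ w → OChain G O t L U →
      ∃ t' ≤ t, Nonempty (Linked G w p t') := by
  induction t with
  | zero =>
    refine ⟨p, fun V _ G O U hO h => ⟨0, le_rfl, ?_⟩⟩
    rcases menger (res G O) (bd G (U 0) ∩ O) (bd G (U p) ∩ O) 0 with ⟨⟨P⟩⟩ | ⟨S, hS, -⟩
    · exact linked_of_pathSys hO h P
    · omega
  | succ t ih =>
    obtain ⟨L, hL⟩ := ih
    refine ⟨L * (p + 1) + p, fun V _ G O U hO h => ?_⟩
    by_contra hcon
    have hblock : ∀ k, ∃ C : Set V, k ≤ L → U (k * (p + 1) + p) ⊆ C ∧ C ⊆ U (k * (p + 1)) ∧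
        (bd G C ∩ O).ncard ≤ t := by
      intro k
      by_cases hk : k ≤ L
      · have hkk := Nat.mul_le_mul_right (p + 1) hk
        have hs := h.shift (a := k * (p + 1)) (p := p) (by omega)
        rcases menger (res G O) (bd G (U (k * (p + 1) + 0)) ∩ O) (bd G (U (k * (p + 1) + p)) ∩ O)
          (t + 1) with ⟨⟨P⟩⟩ | ⟨S, hS, hsep⟩
        · exact absurd ⟨t + 1, le_rfl, linked_of_pathSys hO hs P⟩ hcon
        · obtain ⟨C, h1, h2, h3⟩ := between_of_sep hs.1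
            (chain_anti h.2.1 (by omega) (by omega)) hsep
          exact ⟨C, fun _ => ⟨h1, h2, by omega⟩⟩
      · exact ⟨∅, fun h => absurd h hk⟩
    choose C hC using hblock
    obtain ⟨h0, h1, h2, h3⟩ := h
    suffices hh : OChain G O t L C by
      obtain ⟨t', ht', hl⟩ := hL V G O C hO hh
      exact hcon ⟨t', by omega, hl⟩
    refine ⟨?_, ?_, fun i hi => (hC i hi).2.2, ?_⟩
    · have := (hC 0 (Nat.zero_le L)).2.1
      rw [Nat.zero_mul] at this
      exact this.trans h0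
    · intro i hi
      have e : (i + 1) * (p + 1) = i * (p + 1) + p + 1 := by ring
      have hkk := Nat.mul_le_mul_right (p + 1) (show i + 1 ≤ L from hi)
      have k1 := (hC (i + 1) hi).2.1
      rw [e] at k1
      exact (k1.trans_ssubset (h1 _ (by omega))).trans_subset (hC i hi.le).1
    · exact fun v hv hv' => h3 v hv fun h => hv' ((hC L le_rfl).1 h)

theorem exists_linked (w p : ℕ) : ∃ L : ℕ, ∀ (V : Type) [Finite V] (G : SimpleGraph V)
    (U : ℕ → Set V), CubicChain G w L U → ∃ t ≤ w, Nonempty (Linked G w p t) := by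
  obtain ⟨L, hL⟩ := exists_linked_aux w p w
  refine ⟨L, fun V _ G U ⟨h1, h2, h3⟩ => hL V G (U 0) U (h2 0 (Nat.zero_le L))
    ⟨le_rfl, h1, fun i hi => ?_, h3⟩⟩
  exact (Set.ncard_le_ncard Set.inter_subset_left (Set.toFinite _)).trans (h2 i hi)

end Pool.Agent.Lib.MP_9550e9_co
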