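import Pool.Agent.Lib.Common.Planar.Wagner

/-! The combinatorial form of the crossing number: routings in planar graphs. -/

namespace Pool.Agent.Lib.MP_9550e9_co

open SimpleGraph Pool.Agent.Lib.Common.Pl

variable {V W : Type}

/-- A routing of `G` (with vertex set `S`) in `H`: the edge `e` is routed through `I e`. -/
structure Imm (G : SimpleGraph V) (S : Set V) (H : SimpleGraph W) where
  φ : V → W
  I : Sym2 V → Set W
  inj : Set.InjOn φ S
  join : ∀ u v, G.Adj u v → RIn H (I s(u, v) ∪ {φ u, φ v}) (φ u) (φ v)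
  avoid : ∀ e ∈ G.edgeSet, ∀ x ∈ S, φ x ∉ I e
  notriple : ∀ e ∈ G.edgeSet, ∀ f ∈ G.edgeSet, ∀ g ∈ G.edgeSet, ∀ w, w ∈ I e → w ∈ I f →
    w ∈ I g → e = f ∨ e = g ∨ f = g

/-- The crossing points of a routing. -/
def Imm.X {G : SimpleGraph V} {S : Set V} {H : SimpleGraph W} (m : Imm G S H) : Set W :=
  {w | ∃ e ∈ G.edgeSet, ∃ f ∈ G.edgeSet, e ≠ f ∧ w ∈ m.I e ∧ w ∈ m.I f}

/-- `G` can be routed in a finite planar graph with fewer than `k` crossing points. -/
def CrLT (G : SimpleGraph V) (k : ℕ) : Prop :=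
  ∃ (W : Type) (_ : Finite W) (H : SimpleGraph W) (m : Imm G Set.univ H),
    Planar H ∧ m.X.ncard < k

/-- The set of edges that take part in a crossing. -/
def Imm.crossed {G : SimpleGraph V} {S : Set V} {H : SimpleGraph W} (m : Imm G S H) :
    Set (Sym2 V) :=
  {e | e ∈ G.edgeSet ∧ ∃ f ∈ G.edgeSet, e ≠ f ∧ (m.I e ∩ m.I f).Nonempty}

theorem Imm.ncard_crossed_le [Finite V] [Finite W] {G : SimpleGraph V} {S : Set V}
    {H : SimpleGraph W} (m : Imm G S H) : m.crossed.ncard ≤ 2 * m.X.ncard := by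
  classical
  have hch : ∀ w : W, ∃ p : Option (Sym2 V) × Option (Sym2 V), w ∈ m.X →
      ∀ g ∈ G.edgeSet, w ∈ m.I g → some g = p.1 ∨ some g = p.2 := by
    intro w
    by_cases hw : w ∈ m.X
    · obtain ⟨e, he, f, hf, hef, hwe, hwf⟩ := hw
      refine ⟨(some e, some f), fun _ g hg hwg => ?_⟩
      rcases m.notriple e he f hf g hg w hwe hwf hwg with h | h | h
      · exact absurd h hef
      · exact Or.inl (by rw [h])
      · exact Or.inr (by rw [h])
    · exact ⟨(none, none), fun h => absurd h hw⟩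
  choose p hp using hch
  have hsub : some '' m.crossed ⊆ (fun w => (p w).1) '' m.X ∪ (fun w => (p w).2) '' m.X := by
    rintro _ ⟨g, ⟨hg, f, hf, hgf, w, hwg, hwf⟩, rfl⟩
    have hw : w ∈ m.X := ⟨g, hg, f, hf, hgf, hwg, hwf⟩
    rcases hp w hw g hg hwg with h | h
    · exact Or.inl ⟨w, hw, h.symm⟩
    · exact Or.inr ⟨w, hw, h.symm⟩
  have h1 := Set.ncard_le_ncard hsub (Set.toFinite _)
  rw [Set.ncard_image_of_injective _ (Option.some_injective _)] at h1
  have h2 := Set.ncard_union_le ((fun w => (p w).1) '' m.X) ((fun w => (p w).2) '' m.X)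
  have h3 := Set.ncard_image_le (f := fun w => (p w).1) (Set.toFinite m.X)
  have h4 := Set.ncard_image_le (f := fun w => (p w).2) (Set.toFinite m.X)
  omega

theorem ncard_ends_le [Finite V] (F : Set (Sym2 V)) :
    {v | ∃ e ∈ F, v ∈ e}.ncard ≤ 2 * F.ncard := by
  have hsub : {v | ∃ e ∈ F, v ∈ e} ⊆ (fun e => e.out.1) '' F ∪ (fun e => e.out.2) '' F := by
    rintro v ⟨e, he, hv⟩
    have : v ∈ s(e.out.1, e.out.2) := by
      rw [show s(e.out.1, e.out.2) = e from e.out_eq]
      exact hv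
    rcases Sym2.mem_iff.1 this with h | h
    · exact Or.inl ⟨e, he, h.symm⟩
    · exact Or.inr ⟨e, he, h.symm⟩
  have h1 := Set.ncard_le_ncard hsub (Set.toFinite _)
  have h2 := Set.ncard_union_le ((fun e : Sym2 V => e.out.1) '' F) ((fun e => e.out.2) '' F)
  have h3 := Set.ncard_image_le (f := fun e : Sym2 V => e.out.1) (Set.toFinite F)
  have h4 := Set.ncard_image_le (f := fun e : Sym2 V => e.out.2) (Set.toFinite F)
  omega

/-- A graph that becomes drawable with few crossings after deleting one edge is planar away from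
a bounded set of vertices. -/
theorem exists_near_planar [Finite V] {G : SimpleGraph V} {k : ℕ} {e : Sym2 V}
    (h : CrLT (G.deleteEdges {e}) k) :
    ∃ (G₀ : SimpleGraph V) (Z : Set V), G₀ ≤ G ∧ Planar G₀ ∧ Z.ncard ≤ 4 * k + 2 ∧
      ∀ a b, G.Adj a b → G₀.Adj a b ∨ (a ∈ Z ∧ b ∈ Z) := by
  obtain ⟨W, _, H, m, hH, hk⟩ := h
  refine ⟨(G.deleteEdges {e}).deleteEdges m.crossed, {v | ∃ g ∈ insert e m.crossed, v ∈ g},
    (deleteEdges_le _).trans (deleteEdges_le _), ?_, ?_, ?_⟩
  · have hinj : Function.Injective m.φ := Set.injOn_univ.1 m.inj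
    refine hH.pullback _ m.φ hinj.injOn (fun x y => m.I s(x, y) ∪ {m.φ x, m.φ y}) ?_ ?_ ?_ ?_
    · intro x y
      rw [Sym2.eq_swap, Set.pair_comm]
    · intro x y hxy
      exact m.join x y (deleteEdges_adj.1 hxy).1
    · rintro x y z hxy - hzx hzy (hz | hz | hz)
      · exact m.avoid s(x, y) (deleteEdges_adj.1 hxy).1 z trivial hz
      · exact hzx (hinj hz)
      · exact hzy (hinj hz)
    · intro x y u v hxy huv hux huy hvx hvy
      obtain ⟨hxy, hc⟩ := deleteEdges_adj.1 hxy
      obtain ⟨huv, -⟩ := deleteEdges_adj.1 huv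
      have hne : s(x, y) ≠ s(u, v) := by
        intro h
        rcases Sym2.eq_iff.1 h with ⟨h, -⟩ | ⟨h, -⟩
        exacts [hux h.symm, hvx h.symm]
      rw [Set.disjoint_left]
      rintro w (hw | rfl | rfl) (hw' | hw' | hw')
      · exact hc ⟨hxy, s(u, v), huv, hne, w, hw, hw'⟩
      · exact m.avoid s(x, y) hxy u trivial (hw' ▸ hw)
      · exact m.avoid s(x, y) hxy v trivial (hw' ▸ hw)
      · exact m.avoid s(u, v) huv x trivial hw'
      · exact hux (hinj hw').symm
      · exact hvx (hinj hw').symm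
      · exact m.avoid s(u, v) huv y trivial hw'
      · exact huy (hinj hw').symm
      · exact hvy (hinj hw').symm
  · have h1 := ncard_ends_le (insert e m.crossed)
    have h2 := Set.ncard_insert_le e m.crossed
    have h3 := m.ncard_crossed_le
    omega
  · intro a b hab
    by_cases hm : s(a, b) ∈ insert e m.crossed
    · exact Or.inr ⟨⟨_, hm, Sym2.mem_mk_left a b⟩, ⟨_, hm, Sym2.mem_mk_right a b⟩⟩
    · rw [Set.mem_insert_iff, not_or] at hm
      exact Or.inl (deleteEdges_adj.2 ⟨deleteEdges_adj.2 ⟨hab, hm.1⟩, hm.2⟩)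

end Pool.Agent.Lib.MP_9550e9_co
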