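import Pool.Agent.Lib.MP_9550e9_co.Drawing
import Pool.Agent.Lib.MP_9550e9_co.Imm
import Pool.Agent.Lib.Common.Planar.Wind

/-! From drawings to routings. -/

namespace Pool.Agent.Lib.MP_9550e9_co

open SimpleGraph Pool.Agent.Lib.Common.Pl

variable {V : Type} {G : SimpleGraph V}

/-- The points of sub-arcs from `p` to `q` whose interior avoids `P`. -/
def Drawing.seg (D : Drawing G) (P : Set (ℝ × ℝ)) (p q : ℝ × ℝ) : Set (ℝ × ℝ) :=
  {z | ∃ u v s t, G.Adj u v ∧ s ∈ Set.Icc (0 : ℝ) 1 ∧ t ∈ Set.Icc (0 : ℝ) 1 ∧ D.arc u v s = p ∧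
    D.arc u v t = q ∧ (∀ r ∈ Set.Ioo (min s t) (max s t), D.arc u v r ∉ P) ∧
    ∃ r ∈ Set.Icc (min s t) (max s t), D.arc u v r = z}

theorem Drawing.seg_subset (D : Drawing G) (P : Set (ℝ × ℝ)) (p q : ℝ × ℝ) :
    D.seg P p q ⊆ D.seg P q p := by
  rintro z ⟨u, v, s, t, huv, hs, ht, hp, hq, hP, hz⟩
  refine ⟨u, v, t, s, huv, ht, hs, hq, hp, ?_, ?_⟩
  · rwa [min_comm, max_comm]
  · rwa [min_comm, max_comm]

theorem Drawing.seg_comm (D : Drawing G) (P : Set (ℝ × ℝ)) (p q : ℝ × ℝ) :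
    D.seg P p q = D.seg P q p :=
  (D.seg_subset P p q).antisymm (D.seg_subset P q p)

/-- An oriented description of the points of `seg`. -/
theorem Drawing.mem_seg (D : Drawing G) {P : Set (ℝ × ℝ)} {p q z : ℝ × ℝ}
    (hz : z ∈ D.seg P p q) : z = p ∨ z = q ∨ ∃ u v a b r, G.Adj u v ∧ 0 ≤ a ∧ a < r ∧ r < b ∧
      b ≤ 1 ∧ D.arc u v r = z ∧ (∀ r ∈ Set.Ioo a b, D.arc u v r ∉ P) ∧
      ((D.arc u v a = p ∧ D.arc u v b = q) ∨ (D.arc u v a = q ∧ D.arc u v b = p)) := by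
  obtain ⟨u, v, s, t, huv, hs, ht, hp, hq, hP, r, hr, hz⟩ := hz
  rcases le_total s t with hst | hst
  · rw [min_eq_left hst, max_eq_right hst] at hP hr
    rcases hr.1.eq_or_lt with rfl | h1
    · exact Or.inl (hz.symm.trans hp)
    rcases hr.2.eq_or_lt with rfl | h2
    · exact Or.inr (Or.inl (hz.symm.trans hq))
    exact Or.inr (Or.inr ⟨u, v, s, t, r, huv, hs.1, h1, h2, ht.2, hz, hP, Or.inl ⟨hp, hq⟩⟩)
  · rw [min_eq_right hst, max_eq_left hst] at hP hr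
    rcases hr.1.eq_or_lt with rfl | h1
    · exact Or.inr (Or.inl (hz.symm.trans hq))
    rcases hr.2.eq_or_lt with rfl | h2
    · exact Or.inl (hz.symm.trans hp)
    exact Or.inr (Or.inr ⟨u, v, t, s, r, huv, ht.1, h1, h2, hs.2, hz, hP, Or.inr ⟨hq, hp⟩⟩)

theorem Drawing.joinedIn_seg (D : Drawing G) {P : Set (ℝ × ℝ)} {p q : ℝ × ℝ}
    (h : (D.seg P p q).Nonempty) : JoinedIn (D.seg P p q) p q := by
  obtain ⟨z, u, v, s, t, huv, hs, ht, hp, hq, hP, -⟩ := h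
  have hsub : Set.Icc (min s t) (max s t) ⊆ Set.Icc (0 : ℝ) 1 :=
    Set.Icc_subset_Icc (le_min hs.1 ht.1) (max_le hs.2 ht.2)
  have hc : IsPathConnected (D.arc u v '' Set.Icc (min s t) (max s t)) :=
    ((convex_Icc _ _).isPathConnected ⟨s, min_le_left _ _, le_max_left _ _⟩).image'
      ((D.cont u v huv).mono hsub)
  refine (hc.joinedIn p ⟨s, ⟨min_le_left _ _, le_max_left _ _⟩, hp⟩ q
    ⟨t, ⟨min_le_right _ _, le_max_right _ _⟩, hq⟩).mono ?_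
  rintro _ ⟨r, hr, rfl⟩
  exact ⟨u, v, s, t, huv, hs, ht, hp, hq, hP, r, hr, rfl⟩

/-- Two maximal `P`-free parameter intervals of one arc with a common point agree. -/
theorem Drawing.interval_eq (D : Drawing G) {P : Set (ℝ × ℝ)} {u v : V} {a b a' b' r : ℝ}
    (h1 : a < r) (h2 : r < b) (h1' : a' < r) (h2' : r < b')
    (hP : ∀ r ∈ Set.Ioo a b, D.arc u v r ∉ P) (hP' : ∀ r ∈ Set.Ioo a' b', D.arc u v r ∉ P)
    (ha : D.arc u v a ∈ P) (ha' : D.arc u v a' ∈ P) : a = a' := by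
  rcases lt_trichotomy a a' with h | h | h
  · exact absurd ha' (hP a' ⟨h, h1'.trans h2⟩)
  · exact h
  · exact absurd ha (hP' a ⟨h, h1.trans h2'⟩)

theorem Drawing.disjoint_seg (D : Drawing G) {P : Set (ℝ × ℝ)} (hX : D.crossings ⊆ P)
    {p q p' q' : ℝ × ℝ} (hp : p ∈ P) (hq : q ∈ P) (hp' : p' ∈ P) (hq' : q' ∈ P)
    (h1 : p' ≠ p) (h2 : p' ≠ q) (h3 : q' ≠ p) (h4 : q' ≠ q) :
    Disjoint (D.seg P p q) (D.seg P p' q') := by
  rw [Set.disjoint_left]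
  intro z hz hz'
  have hout : ∀ {p q : ℝ × ℝ}, z ∈ D.seg P p q → z ∈ P → z = p ∨ z = q := by
    intro p q hz hzP
    rcases D.mem_seg hz with h | h | ⟨u, v, a, b, r, -, -, k1, k2, -, k3, k4, -⟩
    · exact Or.inl h
    · exact Or.inr h
    · exact absurd hzP (k3 ▸ k4 r ⟨k1, k2⟩)
  by_cases hzP : z ∈ P
  · rcases hout hz hzP with h | h <;> rcases hout hz' hzP with h' | h'
    exacts [h1 (h'.symm.trans h), h3 (h'.symm.trans h), h2 (h'.symm.trans h),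
      h4 (h'.symm.trans h)]
  rcases D.mem_seg hz with h | h | ⟨u, v, a, b, r, huv, k0, k1, k2, k3, k4, k5, k6⟩
  · exact hzP (h ▸ hp)
  · exact hzP (h ▸ hq)
  rcases D.mem_seg hz' with h | h | ⟨u', v', a', b', r', huv', l0, l1, l2, l3, l4, l5, l6⟩
  · exact hzP (h ▸ hp')
  · exact hzP (h ▸ hq')
  have hr : r ∈ Set.Ioo (0 : ℝ) 1 := ⟨k0.trans_lt k1, k2.trans_le k3⟩
  have hr' : r' ∈ Set.Ioo (0 : ℝ) 1 := ⟨l0.trans_lt l1, l2.trans_le l3⟩
  have haP : D.arc u v a ∈ P := by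
    rcases k6 with h | h
    exacts [h.1 ▸ hp, h.1 ▸ hq]
  have hane : ∀ y, y = p' ∨ y = q' → D.arc u v a ≠ y := by
    rintro y (rfl | rfl) hy <;> rcases k6 with h | h
    exacts [h1 (hy.symm.trans h.1), h2 (hy.symm.trans h.1), h3 (hy.symm.trans h.1),
      h4 (hy.symm.trans h.1)]
  have he : s(u, v) = s(u', v') := by
    by_contra hne
    exact hzP (hX ⟨u, v, u', v', huv, huv', hne, ⟨r, hr, k4⟩, ⟨r', hr', l4⟩⟩)
  rcases Sym2.eq_iff.1 he with ⟨rfl, rfl⟩ | ⟨rfl, rfl⟩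
  · obtain rfl : r = r' :=
      D.inj u v huv (Set.Ioo_subset_Icc_self hr) (Set.Ioo_subset_Icc_self hr') (k4.trans l4.symm)
    have ha'P : D.arc u v a' ∈ P := by
      rcases l6 with h | h
      exacts [h.1 ▸ hp', h.1 ▸ hq']
    obtain rfl := D.interval_eq k1 k2 l1 l2 k5 l5 haP ha'P
    rcases l6 with h | h
    exacts [hane _ (Or.inl rfl) h.1, hane _ (Or.inr rfl) h.1]
  · have hrev := D.rev u v huv
    have hb' : b' ∈ Set.Icc (0 : ℝ) 1 := ⟨by linarith, l3⟩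
    rw [hrev r' (Set.Ioo_subset_Icc_self hr')] at l4
    have hrr : r = 1 - r' :=
      D.inj u v huv (Set.Ioo_subset_Icc_self hr) ⟨by linarith [hr'.2], by linarith [hr'.1]⟩
        (k4.trans l4.symm)
    rw [hrev b' hb'] at l6
    have hb'P : D.arc u v (1 - b') ∈ P := by
      rcases l6 with h | h
      exacts [h.2 ▸ hq', h.2 ▸ hp']
    have l5' : ∀ x ∈ Set.Ioo (1 - b') (1 - a'), D.arc u v x ∉ P := by
      intro x hx
      have := l5 (1 - x) ⟨by linarith [hx.2], by linarith [hx.1]⟩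
      rwa [hrev (1 - x) ⟨by linarith [hx.2], by linarith [hx.1]⟩, sub_sub_cancel] at this
    obtain rfl := D.interval_eq (a' := 1 - b') (b' := 1 - a') k1 k2 (by linarith) (by linarith)
      k5 l5' haP hb'P
    rcases l6 with h | h
    exacts [hane _ (Or.inr rfl) h.2, hane _ (Or.inl rfl) h.2]

/-- The planarization of a drawing with respect to the point set `P`. -/
def Drawing.plan (D : Drawing G) (P : Set (ℝ × ℝ)) : SimpleGraph P where
  Adj p q := p ≠ q ∧ (D.seg P p q).Nonempty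
  symm := ⟨fun p q h => ⟨h.1.symm, D.seg_comm P p q ▸ h.2⟩⟩
  loopless := ⟨fun _ h => h.1 rfl⟩

theorem Drawing.planar_plan (D : Drawing G) {P : Set (ℝ × ℝ)} (hX : D.crossings ⊆ P) :
    Planar (D.plan P) := by
  refine (isVK_of_weakDrawing (D.plan P) Subtype.val Subtype.val_injective
    (fun p q => D.seg P p q) (fun p q => D.seg_comm P p q) (fun p q h => D.joinedIn_seg h.2)
    ?_ ?_).planar
  · intro x y z _ hzx hzy hz
    rcases D.mem_seg hz with h | h | ⟨u, v, a, b, r, -, -, k1, k2, -, k3, k4, -⟩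
    · exact hzx (Subtype.ext h)
    · exact hzy (Subtype.ext h)
    · exact k4 r ⟨k1, k2⟩ (k3 ▸ z.2)
  · intro x y u v _ _ h1 h2 h3 h4
    exact D.disjoint_seg hX x.2 y.2 u.2 v.2 (Subtype.coe_ne_coe.2 h1) (Subtype.coe_ne_coe.2 h2)
      (Subtype.coe_ne_coe.2 h3) (Subtype.coe_ne_coe.2 h4)

/-- Consecutive points of `P` on an arc are adjacent in the planarization. -/
theorem Drawing.rIn_plan (D : Drawing G) {P : Set (ℝ × ℝ)} (hP : P.Finite) {u v : V}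
    (huv : G.Adj u v) (S : Set P) (p₀ : P) (h0 : D.arc u v 0 = p₀)
    (hS : ∀ t ∈ Set.Icc (0 : ℝ) 1, ∀ p : P, D.arc u v t = p → p ∈ S) :
    ∀ t ∈ Set.Icc (0 : ℝ) 1, ∀ p : P, D.arc u v t = p → RIn (D.plan P) S p₀ p := by
  have hT : {t ∈ Set.Icc (0 : ℝ) 1 | D.arc u v t ∈ P}.Finite :=
    Set.Finite.of_finite_image (f := D.arc u v) (hP.subset (by rintro _ ⟨t, ht, rfl⟩; exact ht.2))
      ((D.inj u v huv).mono fun t ht => ht.1)
  suffices h : ∀ n : ℕ, ∀ t ∈ Set.Icc (0 : ℝ) 1,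
      {s | s ∈ {t ∈ Set.Icc (0 : ℝ) 1 | D.arc u v t ∈ P} ∧ s < t}.ncard = n →
      ∀ p : P, D.arc u v t = p → RIn (D.plan P) S p₀ p from fun t ht => h _ t ht rfl
  intro n
  induction n using Nat.strong_induction_on with
  | _ n ih =>
  intro t ht hn p hp
  rcases ht.1.eq_or_lt with rfl | ht0
  · obtain rfl : p₀ = p := Subtype.ext (h0.symm.trans hp)
    exact RIn.refl (hS 0 ht _ hp)
  have hfin : {s | s ∈ {t ∈ Set.Icc (0 : ℝ) 1 | D.arc u v t ∈ P} ∧ s < t}.Finite :=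
    hT.subset fun s hs => hs.1
  obtain ⟨s, ⟨⟨hs, hsP⟩, hst⟩, hmax⟩ := Set.exists_max_image _ id hfin
    ⟨0, ⟨⟨le_rfl, zero_le_one⟩, h0 ▸ p₀.2⟩, ht0⟩
  have hlt : {x | x ∈ {t ∈ Set.Icc (0 : ℝ) 1 | D.arc u v t ∈ P} ∧ x < s}.ncard < n := by
    rw [← hn]
    refine Set.ncard_lt_ncard ⟨fun x hx => ⟨hx.1, hx.2.trans hst⟩, fun h => ?_⟩ hfin
    exact lt_irrefl s (h ⟨⟨hs, hsP⟩, hst⟩).2
  refine (ih _ hlt s hs rfl ⟨_, hsP⟩ rfl).tail ⟨fun h => ?_, D.arc u v s, u, v, s, t, huv, hs, ht,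
    rfl, hp, ?_, s, ⟨min_le_left _ _, le_max_left _ _⟩, rfl⟩ (hS t ht p hp)
  · exact hst.ne (D.inj u v huv hs ht ((congrArg Subtype.val h).trans hp.symm))
  · rw [min_eq_left hst.le, max_eq_right hst.le]
    intro r hr hrP
    exact not_le.2 hr.1 (hmax r ⟨⟨⟨hs.1.trans hr.1.le, hr.2.le.trans ht.2⟩, hrP⟩, hr.2⟩)

theorem crLT_of_crossingNumber_lt {V : Type} [Finite V] {G : SimpleGraph V} {k : ℕ}
    (h : crossingNumber G < k) : CrLT G k := by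
  obtain ⟨D, hD⟩ := iInf_lt_iff.1 h
  have hXfin : D.crossings.Finite := Set.finite_of_encard_le_coe hD.le
  have hP : (Set.range D.pos ∪ D.crossings).Finite := (Set.finite_range _).union hXfin
  refine ⟨(Set.range D.pos ∪ D.crossings : Set (ℝ × ℝ)), hP.to_subtype, D.plan _,
    ⟨fun v => ⟨D.pos v, Or.inl ⟨v, rfl⟩⟩,
      fun e => {w | ∃ x y, e = s(x, y) ∧ G.Adj x y ∧ w.1 ∈ D.arc x y '' Set.Ioo 0 1},
      fun x _ y _ hxy => D.pos_inj (congrArg Subtype.val hxy), ?_, ?_, ?_⟩,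
    D.planar_plan Set.subset_union_right, ?_⟩
  · intro u v huv
    refine D.rIn_plan hP huv _ _ (D.src u v huv) ?_ 1 ⟨zero_le_one, le_rfl⟩ _ (D.tgt u v huv)
    intro t ht p hp
    rcases ht.1.eq_or_lt with rfl | ht0
    · exact Or.inr (Or.inl (Subtype.ext (hp.symm.trans (D.src u v huv))))
    rcases ht.2.eq_or_lt with rfl | ht1
    · exact Or.inr (Or.inr (Subtype.ext (hp.symm.trans (D.tgt u v huv))))
    exact Or.inl ⟨u, v, rfl, huv, t, ⟨ht0, ht1⟩, hp⟩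
  · rintro e - w - ⟨x, y, -, hxy, t, ht, hw⟩
    exact D.avoid x y hxy t ht w hw
  · rintro _ - _ - _ - w ⟨a, b, rfl, hab, h1⟩ ⟨c, d, rfl, hcd, h2⟩ ⟨x, y, rfl, hxy, h3⟩
    exact D.notriple a b c d x y hab hcd hxy w h1 h2 h3
  · have h1 : D.crossings.ncard < k := by
      rw [← hXfin.cast_ncard_eq] at hD
      exact_mod_cast hD
    refine lt_of_le_of_lt (Set.ncard_le_ncard_of_injOn Subtype.val ?_
      Subtype.val_injective.injOn hXfin) h1
    rintro w ⟨_, -, _, -, hne, ⟨a, b, rfl, hab, h1⟩, ⟨c, d, rfl, hcd, h2⟩⟩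
    exact ⟨a, b, c, d, hab, hcd, hne, h1, h2⟩

end Pool.Agent.Lib.MP_9550e9_co
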