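import Mathlib

/-! Drawings of graphs in the plane, crossing number, crossing-critical graphs. -/

namespace Pool.Agent.Lib.MP_9550e9_co

/-- A drawing of `G` in the plane: vertices are distinct points, every edge `uv` is a simple arc
`arc u v : [0,1] → ℝ²` from `u` to `v` containing no other vertex, and no point is interior to
three different edges. -/
structure Drawing {V : Type} (G : SimpleGraph V) where
  pos : V → ℝ × ℝ
  arc : V → V → ℝ → ℝ × ℝ
  pos_inj : Function.Injective pos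
  cont : ∀ u v, G.Adj u v → ContinuousOn (arc u v) (Set.Icc 0 1)
  inj : ∀ u v, G.Adj u v → Set.InjOn (arc u v) (Set.Icc 0 1)
  src : ∀ u v, G.Adj u v → arc u v 0 = pos u
  tgt : ∀ u v, G.Adj u v → arc u v 1 = pos v
  rev : ∀ u v, G.Adj u v → ∀ t ∈ Set.Icc (0 : ℝ) 1, arc v u t = arc u v (1 - t)
  avoid : ∀ u v, G.Adj u v → ∀ t ∈ Set.Ioo (0 : ℝ) 1, ∀ w, arc u v t ≠ pos w
  notriple : ∀ u₁ v₁ u₂ v₂ u₃ v₃, G.Adj u₁ v₁ → G.Adj u₂ v₂ → G.Adj u₃ v₃ →
    ∀ q, q ∈ arc u₁ v₁ '' Set.Ioo 0 1 → q ∈ arc u₂ v₂ '' Set.Ioo 0 1 →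
      q ∈ arc u₃ v₃ '' Set.Ioo 0 1 →
      s(u₁, v₁) = s(u₂, v₂) ∨ s(u₁, v₁) = s(u₃, v₃) ∨ s(u₂, v₂) = s(u₃, v₃)

/-- The crossings of a drawing: the points interior to two different edges. -/
def Drawing.crossings {V : Type} {G : SimpleGraph V} (D : Drawing G) : Set (ℝ × ℝ) :=
  {q | ∃ u v x y, G.Adj u v ∧ G.Adj x y ∧ s(u, v) ≠ s(x, y) ∧
    q ∈ D.arc u v '' Set.Ioo 0 1 ∧ q ∈ D.arc x y '' Set.Ioo 0 1}

/-- The crossing number: the least number of crossings of a drawing. -/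
noncomputable def crossingNumber {V : Type} (G : SimpleGraph V) : ℕ∞ :=
  ⨅ D : Drawing G, D.crossings.encard

/-- `G` is `k`-crossing-critical. -/
def CrossingCritical {V : Type} (G : SimpleGraph V) (k : ℕ) : Prop :=
  (k : ℕ∞) ≤ crossingNumber G ∧ ∀ e ∈ G.edgeSet, crossingNumber (G.deleteEdges {e}) < k

/-- `G` has at least four vertices and stays connected after deleting at most two vertices. -/
def ThreeConnected {V : Type} (G : SimpleGraph V) : Prop :=
  4 ≤ Nat.card V ∧ ∀ S : Set V, S.ncard ≤ 2 → (G.induce Sᶜ).Connected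

end Pool.Agent.Lib.MP_9550e9_co
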