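import Pool.Agent.Lib.MP_9550e9_co.Drawing
import Pool.Agent.Lib.MP_9550e9_co.Imm
import Pool.Agent.Lib.Common.Planar.Draw

/-! From routings to drawings. -/

namespace Pool.Agent.Lib.MP_9550e9_co

open SimpleGraph Pool.Agent.Lib.Common.Pl

variable {V W : Type}

/-- The set through which the edge `e` is routed, ends included. -/
def Imm.J {G : SimpleGraph V} {S : Set V} {H : SimpleGraph W} (m : Imm G S H) (u v : V) : Set W :=
  m.I s(u, v) ∪ {m.φ u, m.φ v}

/-- No edge of the host graph can be used by the routes of two different edges. -/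
def Imm.EdgeDisj {G : SimpleGraph V} {S : Set V} {H : SimpleGraph W} (m : Imm G S H) : Prop :=
  ∀ u v x y a b, G.Adj u v → G.Adj x y → H.Adj a b → a ∈ m.J u v → b ∈ m.J u v →
    a ∈ m.J x y → b ∈ m.J x y → s(u, v) = s(x, y)

/-- Contracting a shared host edge removes a crossing point. -/
theorem Imm.exists_contr {G : SimpleGraph V} {H : SimpleGraph W} (m : Imm G Set.univ H)
    {u v x y : V} {a b : W} (huv : G.Adj u v) (hxy : G.Adj x y) (hne : s(u, v) ≠ s(x, y))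
    (hab : H.Adj a b) (ha : a ∈ m.J u v) (ha' : a ∈ m.J x y) (hb : b ∈ m.I s(u, v))
    (hb' : b ∈ m.I s(x, y)) :
    ∃ m' : Imm G Set.univ (H.map (contr {a, b} a)), m'.X ⊆ m.X \ {b} := by
  have hφ : ∀ z, m.φ z ≠ b := fun z h => m.avoid _ huv z trivial (h ▸ hb)
  have hc : ∀ w, w ≠ b → contr {a, b} a w = w := by
    intro w hw
    by_cases h : w ∈ ({a, b} : Set W)
    · rw [contr_of_mem h]
      exact (h.resolve_right hw).symm
    · exact contr_of_notMem h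
  refine ⟨⟨m.φ, fun e => m.I e \ {b}, m.inj, ?_, fun e he z hz h => m.avoid e he z hz h.1,
    fun e he f hf g hg w h1 h2 h3 => m.notriple e he f hf g hg w h1.1 h2.1 h3.1⟩, ?_⟩
  · intro p q hpq
    have h1 := (m.join p q hpq).graph_map (contr {a, b} a)
    rw [hc _ (hφ p), hc _ (hφ q)] at h1
    refine h1.mono ?_
    rintro _ ⟨w, hw, rfl⟩
    by_cases hwb : w = b
    · subst hwb
      rw [contr_of_mem (by simp)]
      have hw' : w ∈ m.I s(p, q) := by
        rcases hw with h | h | h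
        exacts [h, absurd h.symm (hφ p), absurd (Eq.symm h) (hφ q)]
      have key : ∀ {c d : V}, s(c, d) = s(p, q) → a ∈ m.J c d →
          a ∈ (m.I s(p, q) \ {w}) ∪ {m.φ p, m.φ q} := by
        intro c d he h
        rcases h with h | h
        · exact Or.inl ⟨he ▸ h, hab.ne⟩
        · rcases Sym2.eq_iff.1 he with ⟨rfl, rfl⟩ | ⟨rfl, rfl⟩
          · exact Or.inr h
          · exact Or.inr (Set.pair_comm _ _ ▸ h)
      rcases m.notriple _ huv _ hxy _ hpq w hb hb' hw' with h | h | h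
      exacts [absurd h hne, key h ha, key h ha']
    · rw [hc w hwb]
      rcases hw with h | h
      exacts [Or.inl ⟨h, hwb⟩, Or.inr h]
  · rintro w ⟨e, he, f, hf, hef, h1, h2⟩
    exact ⟨⟨e, he, f, hf, hef, h1.1, h2.1⟩, h1.2⟩

theorem exists_edgeDisj [Finite W] {G : SimpleGraph V} (n : ℕ) : ∀ (H : SimpleGraph W)
    (m : Imm G Set.univ H), Planar H → m.X.ncard ≤ n → ∃ (H' : SimpleGraph W)
      (m' : Imm G Set.univ H'), Planar H' ∧ m'.X.ncard ≤ n ∧ m'.EdgeDisj := by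
  induction n using Nat.strong_induction_on with
  | _ n ih =>
  intro H m hH hn
  by_cases hd : m.EdgeDisj
  · exact ⟨H, m, hH, hn, hd⟩
  have hinj : Function.Injective m.φ := Set.injOn_univ.1 m.inj
  have step : ∀ {u v x y : V} {a b : W}, G.Adj u v → G.Adj x y → s(u, v) ≠ s(x, y) → H.Adj a b →
      a ∈ m.J u v → a ∈ m.J x y → b ∈ m.I s(u, v) → b ∈ m.I s(x, y) → ∃ (H' : SimpleGraph W)
      (m' : Imm G Set.univ H'), Planar H' ∧ m'.X.ncard ≤ n ∧ m'.EdgeDisj := by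
    intro u v x y a b huv hxy hne hab ha ha' hb hb'
    obtain ⟨m', hm'⟩ := m.exists_contr huv hxy hne hab ha ha' hb hb'
    have hlt : m'.X.ncard < m.X.ncard :=
      Set.ncard_lt_ncard ⟨fun w hw => (hm' hw).1,
        fun h => (hm' (h ⟨_, huv, _, hxy, hne, hb, hb'⟩)).2 rfl⟩ (Set.toFinite _)
    obtain ⟨H', m'', h1, h2, h3⟩ := ih m'.X.ncard (by omega) _ m'
      (hH.map_contr (connSet_pair hab) (by simp)) le_rfl
    exact ⟨H', m'', h1, by omega, h3⟩
  simp only [Imm.EdgeDisj, not_forall] at hd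
  obtain ⟨u, v, x, y, a, b, huv, hxy, hab, ha, hb, ha', hb', hne⟩ := hd
  have hJ : ∀ {c d : V} {w : W}, G.Adj c d → w ∈ m.J c d →
      (w ∉ Set.range m.φ → w ∈ m.I s(c, d)) ∧ ∀ z, w = m.φ z → z ∈ s(c, d) := by
    intro c d w hcd hw
    refine ⟨fun h => ?_, fun z hz => ?_⟩
    · rcases hw with hw | hw | hw
      exacts [hw, absurd ⟨c, hw.symm⟩ h, absurd ⟨d, Eq.symm hw⟩ h]
    · subst hz
      rcases hw with hw | hw | hw
      · exact absurd hw (m.avoid _ hcd z trivial)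
      · exact Sym2.mem_iff.2 (Or.inl (hinj hw))
      · exact Sym2.mem_iff.2 (Or.inr (hinj hw))
  by_cases hbr : b ∈ Set.range m.φ
  · by_cases har : a ∈ Set.range m.φ
    · obtain ⟨p, rfl⟩ := har
      obtain ⟨q, rfl⟩ := hbr
      have hpq : p ≠ q := fun h => hab.ne (h ▸ rfl)
      exact absurd (Sym2.eq_of_ne_mem hpq ((hJ huv ha).2 p rfl) ((hJ huv hb).2 q rfl)
        ((hJ hxy ha').2 p rfl) ((hJ hxy hb').2 q rfl)) hne
    · exact step huv hxy hne hab.symm hb hb' ((hJ huv ha).1 har) ((hJ hxy ha').1 har)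
  · exact step huv hxy hne hab ha ha' ((hJ huv hb).1 hbr) ((hJ hxy hb').1 hbr)

/-- A simple arc from `p` to `q` inside `A`. -/
def IsArc (A : Set (ℝ × ℝ)) (p q : ℝ × ℝ) (γ : ℝ → ℝ × ℝ) : Prop :=
  ContinuousOn γ (Set.Icc 0 1) ∧ Set.InjOn γ (Set.Icc 0 1) ∧ γ 0 = p ∧ γ 1 = q ∧
    ∀ t ∈ Set.Icc (0 : ℝ) 1, γ t ∈ A

theorem isArc_segment {p q : ℝ × ℝ} (h : p ≠ q) :
    IsArc (segment ℝ p q) p q (AffineMap.lineMap p q) := by
  refine ⟨AffineMap.lineMap_continuous.continuousOn,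
    (AffineMap.lineMap_injective ℝ h).injOn, by simp, by simp, fun t ht => ?_⟩
  rw [segment_eq_image_lineMap]
  exact ⟨t, ht, rfl⟩

theorem IsArc.mono {A B : Set (ℝ × ℝ)} {p q : ℝ × ℝ} {γ : ℝ → ℝ × ℝ} (h : IsArc A p q γ)
    (hAB : A ⊆ B) : IsArc B p q γ :=
  ⟨h.1, h.2.1, h.2.2.1, h.2.2.2.1, fun t ht => hAB (h.2.2.2.2 t ht)⟩

theorem IsArc.rev {A : Set (ℝ × ℝ)} {p q : ℝ × ℝ} {γ : ℝ → ℝ × ℝ} (h : IsArc A p q γ) :
    IsArc A q p fun t => γ (1 - t) := by
  obtain ⟨h1, h2, h3, h4, h5⟩ := h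
  have hm : ∀ t ∈ Set.Icc (0 : ℝ) 1, 1 - t ∈ Set.Icc (0 : ℝ) 1 :=
    fun t ht => ⟨by linarith [ht.2], by linarith [ht.1]⟩
  refine ⟨h1.comp (continuous_const.sub continuous_id).continuousOn hm, ?_, by simpa using h4,
    by simpa using h3, fun t ht => h5 _ (hm t ht)⟩
  intro s hs t ht hst
  have := h2 (hm s hs) (hm t ht) hst
  linarith

theorem IsArc.trans {A B : Set (ℝ × ℝ)} {p q r : ℝ × ℝ} {γ δ : ℝ → ℝ × ℝ} (h : IsArc A p q γ)
    (h' : IsArc B q r δ) (hAB : ∀ z ∈ A, z ∈ B → z = q) :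
    ∃ η, IsArc (A ∪ B) p r η := by
  obtain ⟨h1, h2, h3, h4, h5⟩ := h
  obtain ⟨k1, k2, k3, k4, k5⟩ := h'
  have hl : ∀ t ∈ Set.Icc (0 : ℝ) 1, t ≤ 1 / 2 → 2 * t ∈ Set.Icc (0 : ℝ) 1 :=
    fun t ht h => ⟨by linarith [ht.1], by linarith⟩
  have hr : ∀ t ∈ Set.Icc (0 : ℝ) 1, 1 / 2 ≤ t → 2 * t - 1 ∈ Set.Icc (0 : ℝ) 1 :=
    fun t ht h => ⟨by linarith, by linarith [ht.2]⟩
  have hmix : ∀ s ∈ Set.Icc (0 : ℝ) 1, ∀ t ∈ Set.Icc (0 : ℝ) 1, s ≤ 1 / 2 → ¬ t ≤ 1 / 2 →
      γ (2 * s) ≠ δ (2 * t - 1) := by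
    intro s hs t ht hs' ht' he
    have ht'' := hr t ht (le_of_not_ge ht')
    have h0 : δ (2 * t - 1) = q := hAB _ (he ▸ h5 _ (hl s hs hs')) (k5 _ ht'')
    have := k2 ht'' ⟨le_rfl, zero_le_one⟩ (h0.trans k3.symm)
    exact ht' (by linarith)
  refine ⟨fun t => if t ≤ 1 / 2 then γ (2 * t) else δ (2 * t - 1), ?_, ?_, ?_, ?_, ?_⟩
  · have hu : Set.Icc (0 : ℝ) 1 = Set.Icc 0 (1 / 2) ∪ Set.Icc (1 / 2) 1 :=
      (Set.Icc_union_Icc_eq_Icc (by norm_num) (by norm_num)).symm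
    rw [hu]
    refine ContinuousOn.union_of_isClosed ?_ ?_ isClosed_Icc isClosed_Icc
    · refine ContinuousOn.congr (f := fun t => γ (2 * t)) ?_ fun t ht => if_pos ht.2
      exact h1.comp (continuous_const.mul continuous_id).continuousOn
        fun t ht => ⟨by linarith [ht.1], by linarith [ht.2]⟩
    · refine ContinuousOn.congr (f := fun t => δ (2 * t - 1)) ?_ fun t ht => ?_
      · exact k1.comp ((continuous_const.mul continuous_id).sub continuous_const).continuousOn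
          fun t ht => ⟨by linarith [ht.1], by linarith [ht.2]⟩
      · by_cases h : t ≤ 1 / 2
        · obtain rfl : t = 1 / 2 := le_antisymm h ht.1
          simp only [le_refl, if_true]
          norm_num
          exact h4.trans k3.symm
        · exact if_neg h
  · intro s hs t ht hst
    by_cases h : s ≤ 1 / 2 <;> by_cases h' : t ≤ 1 / 2 <;> simp only [h, h', if_true, if_false] at hst
    · have := h2 (hl s hs h) (hl t ht h') hst
      linarith
    · exact absurd hst (hmix s hs t ht h h')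
    · exact absurd hst.symm (hmix t ht s hs h' h)
    · have := k2 (hr s hs (le_of_not_ge h)) (hr t ht (le_of_not_ge h')) hst
      linarith
  · simpa using h3
  · have : ¬ (1 : ℝ) ≤ 1 / 2 := by norm_num
    simp only [this, if_false]
    norm_num
    exact k4
  · intro t ht
    by_cases h : t ≤ 1 / 2 <;> simp only [h, if_true, if_false]
    · exact Or.inl (h5 _ (hl t ht h))
    · exact Or.inr (k5 _ (hr t ht (le_of_not_ge h)))

/-- The union of the segments spanned by the edges inside `S`. -/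
def segs (H : SimpleGraph W) (pos : W → ℝ × ℝ) (S : Set W) : Set (ℝ × ℝ) :=
  {z | ∃ x y, H.Adj x y ∧ x ∈ S ∧ y ∈ S ∧ z ∈ segment ℝ (pos x) (pos y)}

theorem segs_mono {H : SimpleGraph W} {pos : W → ℝ × ℝ} {S T : Set W} (h : S ⊆ T) :
    segs H pos S ⊆ segs H pos T :=
  fun _ ⟨x, y, hxy, hx, hy, hz⟩ => ⟨x, y, hxy, h hx, h hy, hz⟩

theorem mem_of_pos_mem_segs {H : SimpleGraph W} {pos : W → ℝ × ℝ} (hs : Straight H pos)
    {S : Set W} {w : W} (h : pos w ∈ segs H pos S) : w ∈ S := by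
  obtain ⟨x, y, hxy, hx, hy, hz⟩ := h
  by_contra hw
  exact hs.2.1 x y w hxy (fun e => hw (e ▸ hx)) (fun e => hw (e ▸ hy)) hz

theorem exists_isArc_of_path {H : SimpleGraph W} {pos : W → ℝ × ℝ} (hs : Straight H pos)
    {a b : W} (p : H.Walk a b) (hp : p.IsPath) (hab : a ≠ b) :
    ∃ γ, IsArc (segs H pos {x | x ∈ p.support}) (pos a) (pos b) γ := by
  induction p with
  | nil => exact absurd rfl hab
  | @cons a c b h p ih =>
    have hseg := isArc_segment (fun e => h.ne (hs.1 e) : pos a ≠ pos c)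
    have hsub : segment ℝ (pos a) (pos c) ⊆ segs H pos {x | x ∈ (Walk.cons h p).support} :=
      fun z hz => ⟨a, c, h, by simp, by simp, hz⟩
    by_cases hcb : c = b
    · subst hcb
      exact ⟨_, hseg.mono hsub⟩
    rw [Walk.cons_isPath_iff] at hp
    obtain ⟨γ, hγ⟩ := ih hp.1 hcb
    obtain ⟨η, hη⟩ := hseg.trans hγ (by
      intro z hz hz'
      obtain ⟨x, y, hxy, hx, hy, hz''⟩ := id hz'
      have hne : s(a, c) ≠ s(x, y) := by
        intro e
        rcases Sym2.eq_iff.1 e with ⟨rfl, -⟩ | ⟨rfl, -⟩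
        exacts [hp.2 hx, hp.2 hy]
      obtain ⟨w, rfl⟩ := hs.2.2 a c x y h hxy hne z hz hz''
      have hw := mem_of_pos_mem_segs hs hz'
      by_contra hwc
      exact hs.2.1 a c w h (fun e => hp.2 (e ▸ hw)) (fun e => hwc (e ▸ rfl)) hz)
    exact ⟨η, hη.mono (Set.union_subset hsub (segs_mono fun x hx => by
      simp [show x ∈ p.support from hx]))⟩

theorem crossingNumber_lt_of_crLT {V : Type} [Finite V] {G : SimpleGraph V} {k : ℕ}
    (h : CrLT G k) : crossingNumber G < k := by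
  classical
  obtain ⟨W, _, H₀, m₀, hH₀, hk⟩ := h
  obtain ⟨H, m, hH, hn, hd⟩ := exists_edgeDisj _ H₀ m₀ hH₀ le_rfl
  obtain ⟨pos, hs⟩ := hH.exists_straight
  have hinj : Function.Injective m.φ := Set.injOn_univ.1 m.inj
  have hex : ∀ u v, ∃ γ, G.Adj u v →
      IsArc (segs H pos (m.J u v)) (pos (m.φ u)) (pos (m.φ v)) γ := by
    intro u v
    by_cases huv : G.Adj u v
    · obtain ⟨p, hp, hpS⟩ := (m.join u v huv).exists_path
      obtain ⟨γ, hγ⟩ := exists_isArc_of_path hs p hp fun e => huv.ne (hinj e)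
      exact ⟨γ, fun _ => hγ.mono (segs_mono hpS)⟩
    · exact ⟨fun _ => 0, fun h => absurd h huv⟩
  choose γ hγ using hex
  obtain ⟨n, ⟨ι⟩⟩ := Finite.exists_equiv_fin V
  have hJ : ∀ u v, m.J v u = m.J u v := fun u v => by
    rw [Imm.J, Imm.J, Sym2.eq_swap, Set.pair_comm]
  obtain ⟨arc, harc, hrev⟩ : ∃ arc : V → V → ℝ → ℝ × ℝ, (∀ u v, G.Adj u v →
      IsArc (segs H pos (m.J u v)) (pos (m.φ u)) (pos (m.φ v)) (arc u v)) ∧
      ∀ u v, G.Adj u v → ∀ t, arc v u t = arc u v (1 - t) := by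
    refine ⟨fun u v => if ι u < ι v then γ u v else fun t => γ v u (1 - t), ?_, ?_⟩
    · intro u v huv
      by_cases h : ι u < ι v <;> simp only [h, if_true, if_false]
      · exact hγ u v huv
      · exact hJ u v ▸ (hγ v u huv.symm).rev
    · intro u v huv t
      rcases lt_or_gt_of_ne (fun e => huv.ne (ι.injective e) : ι u ≠ ι v) with h | h
      · simp only [h, h.not_gt, if_true, if_false]
      · simp only [h, h.not_gt, if_true, if_false, sub_sub_cancel]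
  have havoid : ∀ u v, G.Adj u v → ∀ t ∈ Set.Ioo (0 : ℝ) 1, ∀ w, arc u v t ≠ pos (m.φ w) := by
    intro u v huv t ht w hw
    obtain ⟨-, h2, h3, h4, h5⟩ := harc u v huv
    have ht' := Set.Ioo_subset_Icc_self ht
    rcases mem_of_pos_mem_segs hs (hw ▸ h5 t ht') with h | h | h
    · exact m.avoid _ huv w trivial h
    · exact ht.1.ne' (h2 ht' ⟨le_rfl, zero_le_one⟩ (by rw [hw, h3, h]))
    · exact ht.2.ne (h2 ht' ⟨zero_le_one, le_rfl⟩ (by rw [hw, h4, h]))
  have hcross : ∀ u v x y, G.Adj u v → G.Adj x y → s(u, v) ≠ s(x, y) → ∀ q,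
      q ∈ arc u v '' Set.Ioo 0 1 → q ∈ arc x y '' Set.Ioo 0 1 →
      ∃ w, pos w = q ∧ w ∈ m.I s(u, v) ∧ w ∈ m.I s(x, y) := by
    rintro u v x y huv hxy hne q ⟨t, ht, hq⟩ ⟨t', ht', hq'⟩
    have h1 := hq ▸ (harc u v huv).2.2.2.2 t (Set.Ioo_subset_Icc_self ht)
    have h2 := hq' ▸ (harc x y hxy).2.2.2.2 t' (Set.Ioo_subset_Icc_self ht')
    obtain ⟨a, b, hab, ha, hb, hz⟩ := id h1
    obtain ⟨c, d, hcd, hc, hd', hz'⟩ := id h2
    have hne' : s(a, b) ≠ s(c, d) := by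
      intro e
      rcases Sym2.eq_iff.1 e with ⟨rfl, rfl⟩ | ⟨rfl, rfl⟩
      exacts [hne (hd u v x y a b huv hxy hab ha hb hc hd'),
        hne (hd u v x y a b huv hxy hab ha hb hd' hc)]
    obtain ⟨w, rfl⟩ := hs.2.2 a b c d hab hcd hne' q hz hz'
    refine ⟨w, rfl, ?_, ?_⟩
    · rcases mem_of_pos_mem_segs hs h1 with h | h | h
      exacts [h, absurd (h ▸ hq) (havoid u v huv t ht u), absurd (h ▸ hq) (havoid u v huv t ht v)]
    · rcases mem_of_pos_mem_segs hs h2 with h | h | h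
      exacts [h, absurd (h ▸ hq') (havoid x y hxy t' ht' x),
        absurd (h ▸ hq') (havoid x y hxy t' ht' y)]
  refine iInf_lt_iff.2 ⟨⟨fun v => pos (m.φ v), arc, hs.1.comp hinj, fun u v h => (harc u v h).1,
    fun u v h => (harc u v h).2.1, fun u v h => (harc u v h).2.2.1,
    fun u v h => (harc u v h).2.2.2.1, fun u v h t _ => hrev u v h t, havoid, ?_⟩, ?_⟩
  · intro u₁ v₁ u₂ v₂ u₃ v₃ h1 h2 h3 q q1 q2 q3
    by_contra hcon
    rw [not_or, not_or] at hcon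
    obtain ⟨w, hw, w1, w2⟩ := hcross _ _ _ _ h1 h2 hcon.1 q q1 q2
    obtain ⟨w', hw', -, w3⟩ := hcross _ _ _ _ h1 h3 hcon.2.1 q q1 q3
    obtain rfl : w = w' := hs.1 (hw.trans hw'.symm)
    rcases m.notriple _ h1 _ h2 _ h3 w w1 w2 w3 with h | h | h
    exacts [hcon.1 h, hcon.2.1 h, hcon.2.2 h]
  · refine lt_of_le_of_lt (Set.encard_le_encard (t := pos '' m.X) ?_) ?_
    · rintro q ⟨u, v, x, y, huv, hxy, hne, h1, h2⟩
      obtain ⟨w, hw, w1, w2⟩ := hcross u v x y huv hxy hne q h1 h2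
      exact ⟨w, ⟨_, huv, _, hxy, hne, w1, w2⟩, hw⟩
    · refine lt_of_le_of_lt (Set.encard_image_le _ _) ?_
      rw [← (Set.toFinite m.X).cast_ncard_eq]
      exact_mod_cast hn.trans_lt hk

end Pool.Agent.Lib.MP_9550e9_co
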