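import Pool.Agent.Lib.MP_9550e9_co.IrrelevantB

/-! An edge deep inside a flat system of nested cycles is not critical. -/

namespace Pool.Agent.Lib.MP_9550e9_co

open SimpleGraph Pool.Agent.Lib.Common.Pl

section nest

variable {V : Type} {G₀ : SimpleGraph V} {m : ℕ} {C : ℕ → Cyc G₀} {A B : ℕ → Set V}

/-- The inside of the `i`-th cycle of a nest. -/
def inside (C : ℕ → Cyc G₀) (i : ℕ) : Set V := comp G₀ (C i).vertsᶜ ((C 0).c 0)

theorem inside_disjoint (i : ℕ) : Disjoint (inside C i) (C i).verts :=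
  Set.disjoint_left.2 fun _ hv => comp_subset hv

theorem inside_disjoint_B (hpl : Planar G₀) {i : ℕ} (h : Alt G₀ (C i) (A i) (B i))
    (hA : A i ⊆ inside C i) : Disjoint (inside C i) (B i) := by
  rw [Set.disjoint_left]
  intro v hv hvB
  obtain ⟨a, ha⟩ := h.1.1
  exact h.not_rIn le_rfl hpl ha hvB ((RIn.symm (hA ha)).trans hv)

theorem nest_step (hpl : Planar G₀) {i : ℕ} (h : Alt G₀ (C i) (A i) (B i))
    (h' : Alt G₀ (C (i + 1)) (A (i + 1)) (B (i + 1))) (hA : A i ⊆ inside C i)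
    (h2 : (C i).verts ⊆ A (i + 1)) (h3 : (C (i + 1)).verts ⊆ B i) :
    inside C i ⊆ inside C (i + 1) ∧ A (i + 1) ⊆ inside C (i + 1) := by
  obtain ⟨a, ha⟩ := h.1.1
  have h0 : (C 0).c 0 ∈ (C i).vertsᶜ := RIn.left_mem (hA ha)
  have hsub : inside C i ⊆ (C (i + 1)).vertsᶜ := fun v hv hvC =>
    Set.disjoint_left.1 (inside_disjoint_B hpl h hA) hv (h3 hvC)
  have k1 : inside C i ⊆ inside C (i + 1) := fun v hv => (rIn_comp hv).mono hsub
  refine ⟨k1, ?_⟩
  obtain ⟨-, -, -, -, -, i₁, -, -, -, -, -, -, -, ⟨x, hx, y, hy, hxy⟩, -⟩ := h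
  obtain rfl : y = (C i).c i₁ := hy
  have hyA := h2 ((C i).c_mem_verts i₁)
  have hAC : A (i + 1) ⊆ (C (i + 1)).vertsᶜ := fun v hv => Set.disjoint_left.1 h'.2.2.2.1 hv
  exact h'.1.subset_comp hAC hyA (mem_comp_of_adj (k1 (hA hx)) hxy (hAC hyA))

theorem nest_A (hpl : Planar G₀) (h1 : ∀ i, 1 ≤ i → i ≤ m → Alt G₀ (C i) (A i) (B i))
    (h2 : ∀ i, 1 ≤ i → i ≤ m → (C (i - 1)).verts ⊆ A i)
    (h3 : ∀ i, 1 ≤ i → i < m → (C (i + 1)).verts ⊆ B i) :
    ∀ i, 1 ≤ i → i ≤ m → A i ⊆ inside C i := by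
  intro i hi
  induction i, hi using Nat.le_induction with
  | base =>
    intro hm
    have h := h1 1 le_rfl hm
    have hAC : A 1 ⊆ (C 1).vertsᶜ := fun v hv => Set.disjoint_left.1 h.2.2.2.1 hv
    have h0 : (C 0).c 0 ∈ A 1 := h2 1 le_rfl hm ((C 0).c_mem_verts 0)
    exact h.1.subset_comp hAC h0 (mem_comp_self (hAC h0))
  | succ i hi ih =>
    intro hm
    exact (nest_step hpl (h1 i hi (by omega)) (h1 (i + 1) (by omega) hm) (ih (by omega))
      (h2 (i + 1) (by omega) hm) (h3 i hi hm)).2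

theorem nest_mono (hpl : Planar G₀) (h1 : ∀ i, 1 ≤ i → i ≤ m → Alt G₀ (C i) (A i) (B i))
    (h2 : ∀ i, 1 ≤ i → i ≤ m → (C (i - 1)).verts ⊆ A i)
    (h3 : ∀ i, 1 ≤ i → i < m → (C (i + 1)).verts ⊆ B i) {i j : ℕ} (hi : 1 ≤ i) (hij : i ≤ j)
    (hj : j ≤ m) : inside C i ⊆ inside C j := by
  induction j, hij using Nat.le_induction with
  | base => exact le_rfl
  | succ j hij ih =>
    exact (ih (by omega)).trans (nest_step hpl (h1 j (by omega) (by omega))
      (h1 (j + 1) (by omega) hj) (nest_A hpl h1 h2 h3 j (by omega) (by omega))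
      (h2 (j + 1) (by omega) hj) (h3 j (by omega) hj)).1

end nest

/-- Deleting an edge of a cycle keeps a set containing the cycle connected. -/
theorem rIn_delete_cyc_edge {V : Type} {G G₀ : SimpleGraph V} (hle : G₀ ≤ G) (C : Cyc G₀)
    {T : Set V} (hT : C.verts ⊆ T) {x y : V} (h : RIn G₀ T x y) :
    RIn (G.deleteEdges {s(C.c 0, C.c 1)}) T x y := by
  have h3 := C.three_le
  have key : ∀ l, 1 ≤ l → l ≤ C.n → RIn (G.deleteEdges {s(C.c 0, C.c 1)}) T (C.c 1) (C.c l) := by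
    intro l hl
    induction l, hl using Nat.le_induction with
    | base => exact fun _ => RIn.refl (hT (C.c_mem_verts 1))
    | succ l hl ih =>
      intro hn
      refine (ih (by omega)).tail ?_ (hT (C.c_mem_verts _))
      rw [deleteEdges_adj]
      refine ⟨hle (C.adj l), fun e => ?_⟩
      have := C.inj' (cyc_edge_eq C (j := l) (j' := 0) e) (by omega) (by omega)
      omega
  have k0 := key C.n (by omega) le_rfl
  rw [← zero_add C.n, C.per] at k0
  refine h.induction (P := fun z => RIn (G.deleteEdges {s(C.c 0, C.c 1)}) T x z)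
    (RIn.refl h.left_mem) fun a b _ hb hab ih => ?_
  by_cases e : s(a, b) = s(C.c 0, C.c 1)
  · rcases Sym2.eq_iff.1 e with ⟨rfl, rfl⟩ | ⟨rfl, rfl⟩
    · exact ih.trans k0.symm
    · exact ih.trans k0
  · exact ih.tail (deleteEdges_adj.2 ⟨hle hab, e⟩) hb

theorem irrelevant_of_nest {V : Type} [Finite V] {G G₀ : SimpleGraph V} {k : ℕ}
    (hle : G₀ ≤ G) (hpl : Planar G₀) (hconn : ∀ e, (G.deleteEdges {e}).Preconnected)
    {C : ℕ → Cyc G₀} {A B : ℕ → Set V}
    (h1 : ∀ i, 1 ≤ i → i ≤ 4 * k + 4 → Alt G₀ (C i) (A i) (B i))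
    (h2 : ∀ i, 1 ≤ i → i ≤ 4 * k + 4 → (C (i - 1)).verts ⊆ A i)
    (h3 : ∀ i, 1 ≤ i → i < 4 * k + 4 → (C (i + 1)).verts ⊆ B i)
    (h4 : ∀ i, 1 ≤ i → i + 2 ≤ 4 * k + 4 → Disjoint (B i) (C (i + 2)).verts)
    (hG : ∀ a b, G.Adj a b → a ∈ inside C (4 * k + 4) → G₀.Adj a b)
    (h : CrLT (G.deleteEdges {s((C 0).c 0, (C 0).c 1)}) k) : CrLT G k := by
  set G' := G.deleteEdges {s((C 0).c 0, (C 0).c 1)} with hG'
  have : Nonempty V := ⟨(C 0).c 0⟩
  obtain ⟨W, hW, H, m₀, hH, hm₀⟩ := h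
  obtain ⟨m, hmX, ht⟩ := m₀.exists_tight
  have hmk : m.X.ncard < k := (Set.ncard_le_ncard hmX (Set.toFinite _)).trans_lt hm₀
  have hcr := m.ncard_crossed_le
  have hA := nest_A hpl h1 h2 h3
  have hmono : ∀ {i j : ℕ}, 1 ≤ i → i ≤ j → j ≤ 4 * k + 4 → inside C i ⊆ inside C j :=
    fun hi hij hj => nest_mono hpl h1 h2 h3 hi hij hj
  have hCin : ∀ i j, i < j → j ≤ 4 * k + 4 → (C i).verts ⊆ inside C j := fun i j hij hj =>
    ((h2 (i + 1) (by omega) (by omega)).trans (hA (i + 1) (by omega) (by omega))).trans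
      (hmono (by omega) hij hj)
  have hKB : ∀ i, 1 ≤ i → i ≤ 4 * k + 4 → Disjoint (inside C i) (B i) :=
    fun i hi hi' => inside_disjoint_B hpl (h1 i hi hi') (hA i hi hi')
  -- an uncrossed zone
  have hzone : ∃ j ≤ 2 * k, ∀ u v, G'.Adj u v → u ∈ inside C (2 * j + 3) →
      u ∉ inside C (2 * j + 1) → v ∉ inside C (2 * j + 1) → s(u, v) ∉ m.crossed := by
    by_contra hcon
    push Not at hcon
    choose! u v k1 k2 k3 k4 k5 using hcon
    have key : ∀ j j', j < j' → j' ≤ 2 * k → s(u j, v j) ≠ s(u j', v j') := by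
      intro j j' hjj hj' e
      have hin : u j ∈ inside C (2 * j' + 1) :=
        hmono (by omega) (by omega) (by omega) (k2 j (by omega))
      rcases Sym2.eq_iff.1 e with ⟨e1, -⟩ | ⟨e1, -⟩
      · exact k3 j' hj' (e1 ▸ hin)
      · exact k4 j' hj' (e1 ▸ hin)
    have := Set.ncard_le_ncard_of_injOn (s := Set.Iic (2 * k)) (t := m.crossed)
      (fun j => s(u j, v j)) (fun j hj => k5 j hj) (by
        intro j hj j' hj' e
        rcases lt_trichotomy j j' with h | h | h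
        · exact absurd e (key j j' h hj')
        · exact h
        · exact absurd e.symm (key j' j h hj)) (Set.toFinite _)
    rw [Set.ncard_Iic_nat] at this
    omega
  obtain ⟨j, hj, hun⟩ := hzone
  set i := 2 * j + 1 with hi
  have hi1 : 1 ≤ i := by omega
  have hi3 : i + 3 ≤ 4 * k + 4 := by omega
  have hC0 : ∀ l, 1 ≤ l → l ≤ 4 * k + 4 → (C 0).verts ⊆ inside C l :=
    fun l h h' => hCin 0 l h h'
  have hGG : ∀ l, 1 ≤ l → l ≤ 4 * k + 4 → ∀ x y, G.Adj x y → x ∉ inside C l → G'.Adj x y := by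
    intro l hl hl' x y hxy hx
    refine deleteEdges_adj.2 ⟨hxy, fun e => hx (hC0 l hl hl' ?_)⟩
    rcases Sym2.eq_iff.1 e with ⟨rfl, -⟩ | ⟨rfl, -⟩ <;> exact (C 0).c_mem_verts _
  have hinc : ∀ l, 1 ≤ l → l ≤ 4 * k + 4 → ∀ x y, G.Adj x y → x ∈ inside C l →
      G₀.Adj x y ∧ (y ∈ inside C l ∨ y ∈ (C l).verts) := by
    intro l hl hl' x y hxy hx
    have h0 := hG x y hxy (hmono hl hl' le_rfl hx)
    refine ⟨h0, ?_⟩
    by_cases hy : y ∈ (C l).verts
    · exact Or.inr hy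
    · exact Or.inl (mem_comp_of_adj hx h0 hy)
  have hBconn : ∀ l, 1 ≤ l → l ≤ 4 * k + 4 → ConnSet G' (B l) := fun l hl hl' =>
    (h1 l hl hl').2.1.mono' fun a b ha _ hab =>
      hGG l hl hl' a b (hle hab) (Set.disjoint_right.1 (hKB l hl hl') ha)
  have hCG : (C i).graph ≤ G' := fun a b hab =>
    hGG i hi1 (by omega) a b (hle ((C i).graph_le hab))
      (Set.disjoint_right.1 (inside_disjoint i) ((C i).support_graph ▸ hab.mem_support_left))
  have hKconn : ConnSet G' (inside C i) := by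
    have h0 := hC0 i hi1 (by omega)
    exact ConnSet.of_root (h0 ((C 0).c_mem_verts 0)) fun v hv =>
      rIn_delete_cyc_edge hle (C 0) h0 (rIn_comp hv)
  set C' := (C i).transfer G' hCG with hC'
  have hAlt : Alt G' C' (inside C i) (B i) := by
    obtain ⟨-, -, -, -, hBC, i₁, i₂, i₃, i₄, h12, h23, h34, h41, k1, k2, k3, k4⟩ :=
      h1 i hi1 (by omega)
    have hs : ∀ {S : Set V} {l : ℕ}, SAdj G₀ S {(C i).c l} → SAdj G' S {(C i).c l} := by
      rintro S l ⟨a, ha, c, hc, hac⟩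
      obtain rfl : c = (C i).c l := hc
      exact ⟨a, ha, _, rfl, (hGG i hi1 (by omega) _ _ (hle hac.symm)
        (Set.disjoint_right.1 (inside_disjoint i) ((C i).c_mem_verts l))).symm⟩
    exact ⟨hKconn, hBconn i hi1 (by omega), hKB i hi1 (by omega), inside_disjoint i, hBC,
      i₁, i₂, i₃, i₄, h12, h23, h34, h41, (hs k1).mono (hA i hi1 (by omega)) le_rfl, hs k2,
      (hs k3).mono (hA i hi1 (by omega)) le_rfl, hs k4⟩
  have hB₂ : B i ⊆ inside C (i + 2) := by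
    have hc := (C (i + 1)).c_mem_verts 0
    exact (h1 i hi1 (by omega)).2.1.subset_comp
      (fun v hv => Set.disjoint_left.1 (h4 i hi1 (by omega)) hv) (h3 i hi1 (by omega) hc)
      (hCin (i + 1) (i + 2) (by omega) (by omega) hc)
  have hC₂ : (C i).verts ⊆ inside C (i + 2) := hCin i (i + 2) (by omega) (by omega)
  have hout : ∀ u ∉ inside C (i + 2), ∃ b ∈ B i, RIn G' (C i).vertsᶜ u b := by
    intro u hu
    obtain ⟨p⟩ := hconn s((C 0).c 0, (C 0).c 1) u ((C 0).c 0)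
    have hr : RIn G' Set.univ u ((C 0).c 0) := ⟨p, fun _ _ => trivial⟩
    obtain ⟨a, b, k1, k2, -, k4⟩ := hr.exists_exit (A := (inside C (i + 2))ᶜ) hu
      (by simpa using hC0 (i + 2) (by omega) (by omega) ((C 0).c_mem_verts 0))
    have hb : b ∈ inside C (i + 2) := by simpa using k4
    have ha : a ∈ (C (i + 2)).verts :=
      (hinc (i + 2) (by omega) (by omega) b a (deleteEdges_adj.1 k2).1.symm hb).2.resolve_left
        k1.right_mem.2
    have haB : a ∈ B (i + 1) := h3 (i + 1) (by omega) (by omega) ha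
    obtain ⟨-, -, -, -, -, -, i₂, -, -, -, -, -, -, -, ⟨x, hx, y, hy, hxy⟩, -⟩ :=
      h1 (i + 1) (by omega) (by omega)
    obtain rfl : y = (C (i + 1)).c i₂ := hy
    have hyB := h3 i hi1 (by omega) ((C (i + 1)).c_mem_verts i₂)
    have hBC : B (i + 1) ⊆ (C i).vertsᶜ := fun v hv hvC =>
      Set.disjoint_left.1 (hKB (i + 1) (by omega) (by omega))
        (hCin i (i + 1) (by omega) (by omega) hvC) hv
    refine ⟨_, hyB, ((k1.mono fun v hv hvC => hv.2 (hC₂ hvC)).trans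
      (((hBconn (i + 1) (by omega) (by omega)).rIn haB hx).mono hBC)).tail ?_ ?_⟩
    · exact hGG (i + 1) (by omega) (by omega) _ _ (hle hxy)
        (Set.disjoint_right.1 (hKB (i + 1) (by omega) (by omega)) hx)
    · exact Set.disjoint_left.1 (h1 i hi1 (by omega)).2.2.2.2.1 hyB
  have hKB' : ∀ x ∈ inside C i, ∀ y ∈ B i, ¬ G'.Adj x y := by
    intro x hx y hy hxy
    rcases (hinc i hi1 (by omega) x y (deleteEdges_adj.1 hxy).1 hx).2 with h | h
    · exact Set.disjoint_left.1 (hKB i hi1 (by omega)) h hy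
    · exact Set.disjoint_left.1 (h1 i hi1 (by omega)).2.2.2.2.1 hy h
  obtain ⟨H', m', hH', hX'⟩ := redraw (G := G) (deleteEdges_le _) hpl hH m ht C' hKconn
    (inside_disjoint i) (C i).graph_le (hGG i hi1 (by omega)) (hinc i hi1 (by omega))
    (fun l => hun _ _ (C'.adj l) (hC₂ ((C i).c_mem_verts _))
      (Set.disjoint_right.1 (inside_disjoint i) ((C i).c_mem_verts _))
      (Set.disjoint_right.1 (inside_disjoint i) ((C i).c_mem_verts _)))
    (fun x y u v hxy hx huv hu hv =>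
      m.no_cross hH ht C' hAlt hKB' hC₂ hB₂ hun hout hxy hx huv hu hv)
  exact ⟨W, hW, H', m', hH', (Set.ncard_le_ncard hX' (Set.toFinite _)).trans_lt hmk⟩

theorem irrelevant_of_nests {V : Type} [Finite V] {G G₀ : SimpleGraph V} {Z : Set V} {k z : ℕ}
    (hle : G₀ ≤ G) (hpl : Planar G₀) (hZ : Z.ncard ≤ z)
    (hG : ∀ a b, G.Adj a b → G₀.Adj a b ∨ (a ∈ Z ∧ b ∈ Z))
    (hconn : ∀ e, (G.deleteEdges {e}).Preconnected) (hN : Nests G₀ (z + 1) (4 * k + 4)) :
    ∃ e ∈ G.edgeSet, CrLT (G.deleteEdges {e}) k → CrLT G k := by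
  obtain ⟨C, A, B, h1, h2, h3, h4, h5⟩ := hN
  have hA : ∀ a, A a (4 * k + 4) ⊆ inside (C a) (4 * k + 4) := fun a =>
    nest_A hpl (h1 a) (h2 a) (h3 a) _ (by omega) le_rfl
  have hKB : ∀ a, Disjoint (inside (C a) (4 * k + 4)) (B a (4 * k + 4)) := fun a =>
    inside_disjoint_B hpl (h1 a _ (by omega) le_rfl) (hA a)
  have hdisj : ∀ a b, a ≠ b → Disjoint (inside (C a) (4 * k + 4)) (inside (C b) (4 * k + 4)) := by
    intro a b hab
    rw [Set.disjoint_left]
    intro v hva hvb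
    have hconnb : ConnSet G₀ (inside (C b) (4 * k + 4)) := connSet_comp (RIn.left_mem hvb)
    have hsub : inside (C b) (4 * k + 4) ⊆ inside (C a) (4 * k + 4) :=
      hconnb.subset_comp
        (fun x hx hxC => Set.disjoint_left.1 (hKB b) hx ((h5 b a hab.symm).1 hxC)) hvb hva
    have hc := (C b (4 * k + 4 - 1)).c_mem_verts 0
    exact Set.disjoint_left.1 (hKB a) (hsub (hA b (h2 b _ (by omega) le_rfl hc)))
      ((h5 a b hab).2 hc)
  have hfree : ∃ a, ∀ v ∈ inside (C a) (4 * k + 4), v ∉ Z := by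
    by_contra hcon
    push Not at hcon
    choose v hv hvZ using hcon
    have := Set.ncard_le_ncard_of_injOn (s := Set.univ) (t := Z) v (fun a _ => hvZ a) (by
      intro a _ b _ e
      by_contra hab
      exact Set.disjoint_left.1 (hdisj a b hab) (hv a) (e ▸ hv b)) (Set.toFinite _)
    rw [Set.ncard_univ, Nat.card_eq_fintype_card, Fintype.card_fin] at this
    omega
  obtain ⟨a, ha⟩ := hfree
  refine ⟨s((C a 0).c 0, (C a 0).c 1), hle ((C a 0).adj 0), ?_⟩
  exact irrelevant_of_nest hle hpl hconn (h1 a) (h2 a) (h3 a) (h4 a)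
    fun x y hxy hx => (hG x y hxy).resolve_right fun h => ha x hx h.1

end Pool.Agent.Lib.MP_9550e9_co
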