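import Pool.Agent.Lib.MP_9550e9_co.ShortenC

/-! A long linked chain through a cubic region contains a non-critical edge. -/

namespace Pool.Agent.Lib.MP_9550e9_co

open SimpleGraph Pool.Agent.Lib.Common.Pl

variable {V : Type}

theorem shorten_step [Finite V] {G : SimpleGraph V} {w p t c k : ℕ} (Λ : Linked G w p t)
    (y : Fin c → V) (hy : Function.Injective y) (hyr : Set.range y = bd G Λ.O) {i j : ℕ}
    (hij : i < j) (hj : j ≤ p) (hσ : ∀ l, Λ.σ i l ↔ Λ.σ j l)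
    (hty : ∀ n < k, ∀ a < k, Real (res G (Λ.U i)ᶜ) (Λ.U i)ᶜ (Sum.elim y (Λ.x i)) n a ⊆
      Real (res G (Λ.U j)ᶜ) (Λ.U j)ᶜ (Sum.elim y (Λ.x j)) n a) :
    ∃ e ∈ G.edgeSet, CrLT (G.deleteEdges {e}) k → CrLT G k := by
  classical
  have hi : i ≤ p := by omega
  obtain ⟨T, hT1, hT2⟩ := Λ.link i j hij hj
  choose P hP hPT using fun l => (hT1 l).2.exists_path
  have hd : ∀ l l', l ≠ l' → ∀ z ∈ (P l).support, z ∉ (P l').support := fun l l' h z hz hz' =>
    Set.disjoint_left.1 (hT2 l l' h) (hPT l z hz) (hPT l' z hz')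
  obtain ⟨a, z, haz, haU, haj, hzj, hnot⟩ := Λ.exists_spare_edge hij hj hσ P hP hd
  refine ⟨s(a, z), haz, ?_⟩
  rintro ⟨W, hW, H, m, hH, hm⟩
  have hUU : Λ.U j ⊆ Λ.U i := Λ.U_anti hij.le hj
  have hxi : ∀ l, Λ.x i l ∉ Λ.U i := fun l => (Λ.x_mem hi l).1.1
  have hxj : ∀ l, Λ.x j l ∉ Λ.U j := fun l => (Λ.x_mem hj l).1.1
  have hyO : ∀ l, y l ∉ Λ.O := fun l => (hyr ▸ Set.mem_range_self l : y l ∈ bd G Λ.O).1
  let T' : Fin t → Set V := fun l => {v | v ∈ (P l).support}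
  have hT' : ∀ l, RIn (G.deleteEdges {s(a, z)}) (T' l) (Λ.x i l) (Λ.x j l) := fun l =>
    ⟨(P l).toDeleteEdges {s(a, z)} fun e he h => hnot l ((Set.mem_singleton_iff.1 h) ▸ he),
      fun v hv => by rwa [Walk.support_transfer] at hv⟩
  have hTm : ∀ l, ∀ v ∈ T' l, v = Λ.x i l ∨ (v ∈ Λ.U i ∧ v ∉ Λ.U j) := fun l v hv =>
    (hT1 l).1 (hPT l v hv)
  have hTeq : ∀ l l' v, v ∈ T' l → v ∈ T' l' → l = l' := fun l l' v h h' => by
    by_contra hne
    exact hd l l' hne v h h'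
  let ρ : V → V := fun v => if h : ∃ l, Λ.x i l = v then Λ.x j h.choose else v
  have hρx : ∀ l, ρ (Λ.x i l) = Λ.x j l := fun l => by
    have h : ∃ l', Λ.x i l' = Λ.x i l := ⟨l, rfl⟩
    simp only [ρ, dif_pos h, Λ.x_inj i hi h.choose_spec]
  have hρn : ∀ v, v ∉ Set.range (Λ.x i) → ρ v = v := fun v hv => dif_neg hv
  let ψ : V → V := fun v => if h : ∃ l, Λ.x j l = v ∧ ¬ Λ.σ j l then Λ.x i h.choose else v
  have hψn : ∀ v, v ∉ Set.range (Λ.x j) → ψ v = v := fun v hv =>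
    dif_neg fun ⟨l, hl, _⟩ => hv ⟨l, hl⟩
  have hψ1 : ∀ l, Λ.σ j l → ψ (Λ.x j l) = Λ.x j l := fun l hl =>
    dif_neg fun ⟨l', hl', h⟩ => h (Λ.x_inj j hj hl' ▸ hl)
  have hψ2 : ∀ l, ¬ Λ.σ j l → ψ (Λ.x j l) = Λ.x i l := fun l hl => by
    have h : ∃ l', Λ.x j l' = Λ.x j l ∧ ¬ Λ.σ j l' := ⟨l, rfl, hl⟩
    simp only [ψ, dif_pos h, Λ.x_inj j hj h.choose_spec.1]
  have hψT : ∀ l, ψ (Λ.x j l) ∈ T' l := fun l => by
    by_cases h : Λ.σ j l
    · rw [hψ1 l h]; exact (hT' l).right_mem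
    · rw [hψ2 l h]; exact (hT' l).left_mem
  have hxji : ∀ l, Λ.x j l ∉ Λ.U i → Λ.x j l = Λ.x i l := fun l h =>
    (hTm l _ (hT' l).right_mem).resolve_right fun h' => h h'.1
  have hρU : ∀ u, u ∉ Λ.U i → ρ u ∉ Λ.U j := by
    intro u hu
    by_cases h : u ∈ Set.range (Λ.x i)
    · obtain ⟨l, rfl⟩ := h
      rw [hρx]
      exact hxj l
    · rw [hρn u h]
      exact fun h' => hu (hUU h')
  have hρeq : ∀ u l, u ∉ Λ.U i → ρ u = Λ.x j l → u = Λ.x i l := by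
    intro u l hu e
    by_cases h : u ∈ Set.range (Λ.x i)
    · obtain ⟨l', rfl⟩ := h
      rw [hρx] at e
      rw [Λ.x_inj j hj e]
    · rw [hρn u h] at e
      subst e
      exact hxji l hu
  have hρinj : Set.InjOn ρ (Λ.U i)ᶜ := by
    intro u hu v hv e
    by_cases h : v ∈ Set.range (Λ.x i)
    · obtain ⟨l, rfl⟩ := h
      exact hρeq u l hu (e.trans (hρx l))
    · by_cases h' : u ∈ Set.range (Λ.x i)
      · obtain ⟨l, rfl⟩ := h'
        exact (hρeq v l hv (e.symm.trans (hρx l))).symm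
      · rwa [hρn u h', hρn v h] at e
  set A := res G (Λ.U i)ᶜ with hA
  set R := inc G (Λ.U j) with hR
  let SR : Set V := Λ.U j ∪ Set.range (Sum.elim y (Λ.x j))
  let G' : SimpleGraph V := A.map ρ ⊔ R
  let S' : Set V := ρ '' (Λ.U i)ᶜ ∪ SR
  have hSR : R.support ⊆ SR := by
    intro v hv
    rcases support_inc_subset hv with h | h
    · exact Or.inl h
    · by_cases hO : v ∈ Λ.O
      · obtain ⟨l, rfl⟩ : v ∈ Set.range (Λ.x j) := (Λ.range_x j hj).ge ⟨h, hO⟩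
        exact Or.inr ⟨Sum.inr l, rfl⟩
      · obtain ⟨u, hu, hvu⟩ := h.2
        obtain ⟨l, rfl⟩ : v ∈ Set.range y := hyr.ge ⟨hO, u, Λ.U_sub hj hu, hvu⟩
        exact Or.inr ⟨Sum.inl l, rfl⟩
  have hS' : G'.support ⊆ S' := by
    rintro v ⟨u, ⟨-, c, d, hcd, rfl, rfl⟩ | h⟩
    · exact Or.inl ⟨c, hcd.2.1, rfl⟩
    · exact Or.inr (hSR h.mem_support_left)
  have hloc : ∀ v ∈ S', ∀ l, ψ v ∈ T' l → v = Λ.x j l := by
    intro v hv l h
    by_cases hx : v ∈ Set.range (Λ.x j)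
    · obtain ⟨l', rfl⟩ := hx
      rw [hTeq l l' _ h (hψT l')]
    · exfalso
      rw [hψn v hx] at h
      rcases hv with ⟨u, hu, rfl⟩ | hv | ⟨l' | l', rfl⟩
      · by_cases hu' : u ∈ Set.range (Λ.x i)
        · obtain ⟨l', rfl⟩ := hu'
          exact hx ⟨l', (hρx l').symm⟩
        · rw [hρn u hu'] at h
          rcases hTm l u h with h | h
          exacts [hu' ⟨l, h.symm⟩, hu h.1]
      · rcases hTm l v h with h | h
        exacts [hxi l (h ▸ hUU hv), h.2 hv]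
      · rcases hTm l _ h with h | h
        · exact hyO l' ((show y l' = Λ.x i l from h) ▸ (Λ.x_mem hi l).2)
        · exact hyO l' (Λ.U_sub hi h.1)
      · exact hx ⟨l', rfl⟩
  let I₁ : Sym2 V → Set V := fun e =>
    {v | ∃ l, Λ.x j l ∈ e ∧ (Λ.σ j l ↔ ∀ u ∈ e, u ∉ Λ.U j) ∧ v ∈ T' l ∧ v ≠ ψ (Λ.x j l)}
  have hI : ∀ e ∈ G'.edgeSet, ∀ f ∈ G'.edgeSet, ∀ v, v ∈ I₁ e → v ∈ I₁ f → e = f := by
    rintro e he f hf v ⟨l, k1, k2, k3, -⟩ ⟨l', k1', k2', k3', -⟩
    obtain rfl := hTeq l l' v k3 k3'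
    obtain ⟨u, rfl⟩ := Sym2.mem_iff_exists.1 k1
    obtain ⟨u', rfl⟩ := Sym2.mem_iff_exists.1 k1'
    by_cases hs : Λ.σ j l
    · have key : ∀ u, G'.Adj (Λ.x j l) u → u ∉ Λ.U j →
          ∃ d ∈ G.neighborSet (Λ.x i l) ∩ (Λ.U i)ᶜ, ρ d = u := by
        rintro u (⟨-, c, d, hcd, hc, rfl⟩ | h) hu
        · obtain rfl := hρeq c l hcd.2.1 hc
          exact ⟨d, ⟨hcd.1, hcd.2.2⟩, rfl⟩
        · exact (h.2.elim (hxj l) hu).elim
      obtain ⟨d, hd1, rfl⟩ := key u he (k2.1 hs u (by simp))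
      obtain ⟨d', hd1', rfl⟩ := key u' hf (k2'.1 hs u' (by simp))
      have h3 := Λ.x_cubic hi l
      have h4 := ncard_inter_add (G.neighborSet (Λ.x i l)) (Λ.U i)
      have h5 : 2 ≤ _ := (hσ l).2 hs
      rw [(Set.ncard_le_one_iff_subsingleton.1 (by omega)) hd1 hd1']
    · have key : ∀ u, G'.Adj (Λ.x j l) u → ¬ (∀ u' ∈ s(Λ.x j l, u), u' ∉ Λ.U j) →
          u ∈ G.neighborSet (Λ.x j l) ∩ Λ.U j := by
        intro u h hu
        have hu' : u ∈ Λ.U j := by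
          by_contra hc
          refine hu fun u' h' => ?_
          rcases Sym2.mem_iff.1 h' with rfl | rfl
          exacts [hxj l, hc]
        rcases h with ⟨-, c, d, hcd, hc, rfl⟩ | h
        · exact (hρU d hcd.2.2 hu').elim
        · exact ⟨h.1, hu'⟩
      have h1 := key u he fun h => hs (k2.2 h)
      have h2 := key u' hf fun h => hs (k2'.2 h)
      have h5 : ¬ 2 ≤ _ := hs
      rw [(Set.ncard_le_one_iff_subsingleton.1 (by omega)) h1 h2]
  have hsub : ∀ l e q, Λ.x j l ∈ e → (Λ.σ j l ↔ ∀ u ∈ e, u ∉ Λ.U j) →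
      T' l ⊆ I₁ e ∪ {ψ (Λ.x j l), q} := by
    intro l e q h1 h2 v hv
    by_cases h : v = ψ (Λ.x j l)
    · exact Or.inr (Or.inl h)
    · exact Or.inl ⟨l, h1, h2, hv, h⟩
  have hL : ∀ u v, A.Adj u v → RIn (G.deleteEdges {s(a, z)})
      (I₁ s(ρ u, ρ v) ∪ {ψ (ρ u), ψ (ρ v)}) (ψ (ρ u)) u := by
    intro u v huv
    by_cases h : u ∈ Set.range (Λ.x i)
    · obtain ⟨l, rfl⟩ := h
      by_cases hs : Λ.σ j l
      · have := (hT' l).symm.mono (hsub l s(ρ (Λ.x i l), ρ v) (ψ (ρ v)) (by simp [hρx])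
          ⟨fun _ u' h' => by
            rcases Sym2.mem_iff.1 h' with rfl | rfl
            exacts [hρU _ huv.2.1, hρU _ huv.2.2], fun _ => hs⟩)
        rw [hρx] at this ⊢
        rwa [hψ1 l hs] at this ⊢
      · have e : ψ (ρ (Λ.x i l)) = Λ.x i l := by rw [hρx, hψ2 l hs]
        rw [e]
        exact RIn.refl (Or.inr (Or.inl rfl))
    · have e : ψ (ρ u) = u := by
        rw [hρn u h]
        refine hψn u ?_
        rintro ⟨l, rfl⟩
        exact h ⟨l, (hxji l huv.2.1).symm⟩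
      rw [e]
      exact RIn.refl (Or.inr (Or.inl rfl))
  have hRr : ∀ u v, R.Adj u v → RIn (G.deleteEdges {s(a, z)})
      (I₁ s(u, v) ∪ {ψ u, ψ v}) (ψ u) u := by
    intro u v huv
    by_cases h : ∃ l, Λ.x j l = u ∧ ¬ Λ.σ j l
    · obtain ⟨l, rfl, hs⟩ := h
      have := (hT' l).mono (hsub l s(Λ.x j l, v) (ψ v) (by simp)
        ⟨fun h => (hs h).elim, fun h => (h v (by simp) (huv.2.resolve_left (hxj l))).elim⟩)
      rwa [hψ2 l hs] at this ⊢
    · have e : ψ u = u := dif_neg h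
      rw [e]
      exact RIn.refl (Or.inr (Or.inl rfl))
  let m₁ : Imm G' S' (G.deleteEdges {s(a, z)}) :=
    { φ := ψ
      I := I₁
      inj := by
        intro u hu v hv e
        by_cases h : u ∈ Set.range (Λ.x j)
        · obtain ⟨l, rfl⟩ := h
          exact (hloc v hv l (e ▸ hψT l)).symm
        · by_cases h' : v ∈ Set.range (Λ.x j)
          · obtain ⟨l, rfl⟩ := h'
            exact hloc u hu l (e ▸ hψT l)
          · rwa [hψn u h, hψn v h'] at e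
      join := by
        rintro u v (⟨-, c, d, hcd, rfl, rfl⟩ | h)
        · have h1 := hL c d hcd
          have h2 := hL d c hcd.symm
          rw [Sym2.eq_swap (a := ρ d) (b := ρ c), Set.pair_comm] at h2
          refine (h1.tail (deleteEdges_adj.2 ⟨hcd.1, fun h => ?_⟩) h2.right_mem).trans h2.symm
          rcases Sym2.eq_iff.1 (Set.mem_singleton_iff.1 h) with ⟨rfl, rfl⟩ | ⟨rfl, rfl⟩
          exacts [haU.elim hcd.2.1 hcd.2.2, haU.elim hcd.2.2 hcd.2.1]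
        · have h1 := hRr u v h
          have h2 := hRr v u h.symm
          rw [Sym2.eq_swap (a := v) (b := u), Set.pair_comm] at h2
          refine (h1.tail (deleteEdges_adj.2 ⟨h.1, fun h' => ?_⟩) h2.right_mem).trans h2.symm
          rcases Sym2.eq_iff.1 (Set.mem_singleton_iff.1 h') with ⟨rfl, rfl⟩ | ⟨rfl, rfl⟩
          exacts [h.2.elim haj hzj, h.2.elim hzj haj]
      avoid := by
        rintro e - v hv ⟨l, -, -, k3, k4⟩
        exact k4 (by rw [hloc v hv l k3])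
      notriple := fun e he f hf _ _ v h1 h2 _ => Or.inl (hI e he f hf v h1 h2) }
  obtain ⟨m', hm'⟩ := Imm.exists_comp hS' m₁
    (Set.eq_empty_of_forall_notMem fun v ⟨e, he, f, hf, hne, h1, h2⟩ =>
      hne (hI e he f hf v h1 h2)) m
  have hAG : ∀ u v, A.Adj u v → G'.Adj (ρ u) (ρ v) := fun u v h =>
    Or.inl (map_adj_apply' h fun e => h.ne (hρinj h.2.1 h.2.2 e))
  have hRG : ∀ u v, R.Adj u v → G'.Adj (id u) (id v) := fun u v h => Or.inr h
  have hmA : Set.MapsTo ρ (Λ.U i)ᶜ S' := fun u hu => Or.inl ⟨u, hu, rfl⟩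
  have hmR : Set.MapsTo id SR S' := fun u hu => Or.inr hu
  have hne : ∀ e ∈ A.edgeSet, ∀ f ∈ R.edgeSet, e.map ρ ≠ f.map id := by
    intro e he f hf h
    induction e using Sym2.ind with
    | h c d =>
      rw [Sym2.map_id, id] at h
      subst h
      exact (show R.Adj (ρ c) (ρ d) from hf).2.elim (hρU c he.2.1) (hρU d he.2.2)
  let mA := m'.pull A (Λ.U i)ᶜ ρ support_res_subset hρinj hmA hAG
  let mR := m'.pull R SR id hSR (Set.injOn_id _) hmR hRG
  have c4 : ∀ f ∈ R.edgeSet, ∀ w ∈ mA.X, w ∉ mR.I f := by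
    rintro f hf w ⟨e, he, e', he', hee, h1, h2⟩ h3
    rcases m'.notriple _ (sym2_map_mem hAG he) _ (sym2_map_mem hAG he') _ (sym2_map_mem hRG hf)
      w h1 h2 h3 with h | h | h
    · exact hee (sym2_map_injOn support_res_subset hρinj he he' h)
    · exact hne e he f hf h
    · exact hne e' he' f hf h
  have c4' : ∀ e ∈ A.edgeSet, ∀ w ∈ mR.X, w ∉ mA.I e := by
    rintro e he w ⟨f, hf, f', hf', hff, h1, h2⟩ h3
    rcases m'.notriple _ (sym2_map_mem hRG hf) _ (sym2_map_mem hRG hf') _ (sym2_map_mem hAG he)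
      w h1 h2 h3 with h | h | h
    · exact hff (sym2_map_injOn hSR (Set.injOn_id _) hf hf' h)
    · exact hne e he f hf h.symm
    · exact hne e he f' hf' h.symm
  have hbnot : ∀ {q : ℕ}, q ≤ p → ∀ l, Sum.elim y (Λ.x q) l ∉ Λ.U q := by
    rintro q hq (l | l)
    · exact fun h => hyO l (Λ.U_sub hq h)
    · exact (Λ.x_mem hq l).1.1
  refine crLT_of_replace (A' := res G (Λ.U j)ᶜ) (R := R) (SA' := (Λ.U j)ᶜ) (SR := SR)
    (by rw [sup_comm, hR, inc_sup_res]) ?_ support_res_subset support_res_subset hSR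
    (fun v => (em (v ∈ Λ.U j)).symm.imp id Or.inl) ?_ ?_ (hbnot hi) hty hH mA mR ?_ ?_
    (fun e he v hv => m'.avoid _ (sym2_map_mem hAG he) _ (hmR hv))
    (fun f hf u hu => m'.avoid _ (sym2_map_mem hRG hf) _ (hmA hu)) c4 c4' ?_
  · intro e he he'
    induction e using Sym2.ind with
    | h c d => exact (show R.Adj c d from he').2.elim he.2.1 he.2.2
  · ext v
    constructor
    · rintro ⟨h1, h2 | h2⟩
      exacts [(h1 h2).elim, h2]
    · rintro ⟨l, rfl⟩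
      exact ⟨hbnot hj l, Or.inr ⟨l, rfl⟩⟩
  · rintro (l | l) (l' | l') h
    · rw [hy h]
    · exact (hyO l ((show y l = Λ.x j l' from h) ▸ (Λ.x_mem hj l').2)).elim
    · exact (hyO l' ((show Λ.x j l = y l' from h) ▸ (Λ.x_mem hj l).2)).elim
    · rw [Λ.x_inj j hj h]
  · rintro (l | l)
    · refine congrArg m'.φ (hρn _ ?_)
      rintro ⟨l', h⟩
      exact hyO l ((show Λ.x i l' = y l from h) ▸ (Λ.x_mem hi l').2)
    · exact congrArg m'.φ (hρx l)
  · intro u hu v hv h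
    have e : ρ u = v := m'.inj (hmA hu) (hmR hv) h
    rcases hv with hv | hv
    · exact (hρU u hu (e ▸ hv)).elim
    · exact hv
  · have d1 : Disjoint mA.X mR.X := Set.disjoint_left.2 fun w h1 ⟨f, hf, _, _, _, h2, _⟩ =>
      c4 f hf w h1 h2
    have d2 : Disjoint (mA.X ∪ mR.X)
        {w | ∃ e ∈ A.edgeSet, ∃ f ∈ R.edgeSet, w ∈ mA.I e ∧ w ∈ mR.I f} := by
      rw [Set.disjoint_left]
      rintro w (h | h) ⟨e, he, f, hf, h1, h2⟩
      exacts [c4 f hf w h h2, c4' e he w h h1]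
    rw [← Set.ncard_union_eq d1, ← Set.ncard_union_eq d2]
    refine lt_of_le_of_lt (Set.ncard_le_ncard (Set.Subset.trans ?_ hm')) hm
    rintro w ((⟨e, he, f, hf, h, h1, h2⟩ | ⟨e, he, f, hf, h, h1, h2⟩) | ⟨e, he, f, hf, h1, h2⟩)
    · exact ⟨_, sym2_map_mem hAG he, _, sym2_map_mem hAG hf,
        fun h' => h (sym2_map_injOn support_res_subset hρinj he hf h'), h1, h2⟩
    · exact ⟨_, sym2_map_mem hRG he, _, sym2_map_mem hRG hf,
        fun h' => h (sym2_map_injOn hSR (Set.injOn_id _) he hf h'), h1, h2⟩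
    · exact ⟨_, sym2_map_mem hAG he, _, sym2_map_mem hRG hf, hne e he f hf, h1, h2⟩

/-- The finite set of types of left sides. -/
abbrev TySp (k c t : ℕ) : Type :=
  ((n : Fin k) → Fin k → Set (FolT ((Fin c ⊕ Fin t) ⊕ Fin n))) × (Fin t → Prop)

theorem irrelevant_of_linked (k w : ℕ) : ∃ p : ℕ, ∀ (V : Type) [Finite V] (G : SimpleGraph V)
    (t : ℕ), t ≤ w → Linked G w p t →
      ∃ e ∈ G.edgeSet, CrLT (G.deleteEdges {e}) k → CrLT G k := by
  refine ⟨(Finset.range (w + 1) ×ˢ Finset.range (w + 1)).sup fun q => Nat.card (TySp k q.1 q.2),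
    fun V _ G t ht Λ => ?_⟩
  set p := (Finset.range (w + 1) ×ˢ Finset.range (w + 1)).sup fun q => Nat.card (TySp k q.1 q.2)
    with hp
  obtain ⟨y, hy, hyr⟩ : ∃ y : Fin (bd G Λ.O).ncard → V, Function.Injective y ∧
      Set.range y = bd G Λ.O := by
    have : Fintype (bd G Λ.O) := Fintype.ofFinite _
    have e := (Fintype.equivFinOfCardEq (α := bd G Λ.O) (n := (bd G Λ.O).ncard)
      (by rw [← Nat.card_eq_fintype_card]; rfl)).symm
    refine ⟨fun l => (e l : V), Subtype.val_injective.comp e.injective, ?_⟩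
    ext w
    exact ⟨fun ⟨l, hl⟩ => hl ▸ (e l).2, fun hw => ⟨e.symm ⟨w, hw⟩, by simp⟩⟩
  have hcard : Nat.card (TySp k (bd G Λ.O).ncard t) ≤ p :=
    Finset.le_sup (f := fun q : ℕ × ℕ => Nat.card (TySp k q.1 q.2)) (b := ((bd G Λ.O).ncard, t))
      (by have := Λ.bdO; simp; omega)
  let F : Fin (p + 1) → TySp k (bd G Λ.O).ncard t := fun i =>
    (fun n a => Real (res G (Λ.U i)ᶜ) (Λ.U i)ᶜ (Sum.elim y (Λ.x i)) n a, Λ.σ i)
  have key : ∀ i j : Fin (p + 1), i < j → F i = F j →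
      ∃ e ∈ G.edgeSet, CrLT (G.deleteEdges {e}) k → CrLT G k := by
    intro i j hij h
    obtain ⟨h1, h2⟩ := Prod.mk.inj h
    exact shorten_step Λ y hy hyr hij (Nat.lt_succ_iff.1 j.2)
      (fun l => Iff.of_eq (congrFun h2 l))
      fun n hn a ha => (congrFun (congrFun h1 ⟨n, hn⟩) ⟨a, ha⟩).le
  have := Fintype.ofFinite (TySp k (bd G Λ.O).ncard t)
  obtain ⟨i, j, hne, h⟩ := Fintype.exists_ne_map_eq_of_card_lt F
    (by rw [← Nat.card_eq_fintype_card, Fintype.card_fin]; omega)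
  rcases lt_or_gt_of_ne hne with hij | hij
  exacts [key i j hij h, key j i hij h.symm]

end Pool.Agent.Lib.MP_9550e9_co
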