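import Pool.Agent.Lib.Common.Planar.GridThm
import Pool.Agent.Lib.MP_9550e9_co.Irrelevant
import Pool.Agent.Lib.MP_9550e9_co.Shorten
import Pool.Agent.Lib.MP_9550e9_co.DrawToImm
import Pool.Agent.Lib.MP_9550e9_co.ImmToDraw

/-! Crossing-critical graphs have many vertices of degree different from three. -/

namespace Pool.Agent.Lib.MP_9550e9_co

open SimpleGraph Pool.Agent.Lib.Common.Pl

theorem card_le_of_critical (k : ℕ) : ∃ M N : ℕ, ∀ (V : Type) [Finite V] (G : SimpleGraph V),
    (∀ e, (G.deleteEdges {e}).Preconnected) → G.edgeSet.Nonempty → ¬ CrLT G k →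
    (∀ e ∈ G.edgeSet, CrLT (G.deleteEdges {e}) k) →
    Nat.card V ≤ N + M * {v | (G.neighborSet v).ncard ≠ 3}.ncard := by
  obtain ⟨r, hr⟩ := nests_of_grid (4 * k + 2 + 1) (4 * k + 4)
  obtain ⟨w, hw⟩ := dec_or_grid r
  obtain ⟨p, hp⟩ := irrelevant_of_linked k (w + (4 * k + 2))
  obtain ⟨L, hL⟩ := exists_linked (w + (4 * k + 2)) p
  obtain ⟨M, N, hMN⟩ := exists_cubicChain (w + (4 * k + 2)) L
  refine ⟨M, N, fun V _ G hconn ⟨e₀, he₀⟩ hcr hcrit => ?_⟩
  obtain ⟨G₀, Z, hle, hpl, hZ, hG⟩ := exists_near_planar (hcrit e₀ he₀)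
  by_contra hlt
  rcases hw V G₀ hpl with hd | hg
  · obtain ⟨U, hU⟩ := hMN V G (dec_of_dec_res hZ hG hd) (not_le.1 hlt)
    obtain ⟨t, ht, ⟨Λ⟩⟩ := hL V G U hU
    obtain ⟨e, he, h⟩ := hp V G t ht Λ
    exact hcr (h (hcrit e he))
  · obtain ⟨e, he, h⟩ := irrelevant_of_nests hle hpl hZ hG hconn (hr V G₀ hg)
    exact hcr (h (hcrit e he))

theorem ThreeConnected.reachable {V : Type} {G G' : SimpleGraph V} (h : ThreeConnected G)
    {S : Set V} (hS : S.ncard ≤ 2) (hG : ∀ a b, a ∉ S → b ∉ S → G.Adj a b → G'.Adj a b)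
    {u v : V} (hu : u ∉ S) (hv : v ∉ S) : G'.Reachable u v := by
  have := (h.2 S hS).preconnected ⟨u, hu⟩ ⟨v, hv⟩
  exact this.map (G := G.induce Sᶜ) (G' := G')
    ⟨fun x => x.1, fun {a b} hab => hG a.1 b.1 a.2 b.2 hab⟩

theorem ThreeConnected.exists_notMem {V : Type} [Finite V] {G : SimpleGraph V}
    (h : ThreeConnected G) {S : Set V} (hS : S.ncard ≤ 3) : ∃ c, c ∉ S := by
  by_contra hcon
  have e : S = Set.univ := Set.eq_univ_of_forall fun x => by
    by_contra hx
    exact hcon ⟨x, hx⟩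
  rw [e, Set.ncard_univ] at hS
  have := h.1
  omega

theorem ThreeConnected.preconnected_deleteEdges {V : Type} [Finite V] {G : SimpleGraph V}
    (h : ThreeConnected G) (e : Sym2 V) : (G.deleteEdges {e}).Preconnected := by
  induction e using Sym2.ind with
  | _ a b =>
    have one : ∀ z, z ∈ s(a, b) → ∀ u v, u ≠ z → v ≠ z → (G.deleteEdges {s(a, b)}).Reachable u v := by
      intro z hz u v hu hv
      refine h.reachable (S := {z}) (by simp) (fun x y hx hy hxy => ?_) hu hv
      rw [deleteEdges_adj]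
      refine ⟨hxy, fun he => ?_⟩
      rw [Set.mem_singleton_iff] at he
      rw [← he, Sym2.mem_iff] at hz
      rcases hz with rfl | rfl
      · exact hx rfl
      · exact hy rfl
    by_cases hab : a = b
    · intro u v
      refine h.reachable (S := ∅) (by simp) (fun x y _ _ hxy => ?_) (by simp) (by simp)
      rw [deleteEdges_adj]
      refine ⟨hxy, fun he => ?_⟩
      rw [Set.mem_singleton_iff, ← hab, Sym2.eq_iff] at he
      rcases he with ⟨h1, h2⟩ | ⟨h1, h2⟩ <;> exact hxy.ne (h1.trans h2.symm)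
    · obtain ⟨c, hc⟩ := h.exists_notMem (S := {a, b}) ((Set.ncard_pair hab).le.trans (by omega))
      have hca : c ≠ a := fun e => hc (Or.inl e)
      have hcb : c ≠ b := fun e => hc (Or.inr e)
      have toc : ∀ u, (G.deleteEdges {s(a, b)}).Reachable u c := by
        intro u
        by_cases hu : u = a
        · exact one b (Sym2.mem_mk_right a b) u c (hu ▸ hab) hcb
        · exact one a (Sym2.mem_mk_left a b) u c hu hca
      exact fun u v => (toc u).trans (toc v).symm

theorem ThreeConnected.three_le {V : Type} [Finite V] {G : SimpleGraph V}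
    (h : ThreeConnected G) (v : V) : 3 ≤ (G.neighborSet v).ncard := by
  by_contra hlt
  have hS : (G.neighborSet v).ncard ≤ 2 := by omega
  obtain ⟨c, hc⟩ := h.exists_notMem (S := insert v (G.neighborSet v))
    ((Set.ncard_insert_le _ _).trans (by omega))
  have hcv : c ≠ v := fun e => hc (Or.inl e)
  have hr : (res G (G.neighborSet v)ᶜ).Reachable v c :=
    h.reachable (G' := res G (G.neighborSet v)ᶜ) hS
      (fun a b ha hb hab => res_adj.2 ⟨hab, ha, hb⟩) (fun hv => G.irrefl hv)
      fun hc' => hc (Or.inr hc')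
  obtain ⟨p⟩ := hr
  cases p with
  | nil => exact hcv rfl
  | cons hadj _ => exact hadj.2.2 hadj.1

theorem ThreeConnected.deg_sum {V : Type} [Finite V] {G : SimpleGraph V} (h : ThreeConnected G) :
    3 * Nat.card V + {v | (G.neighborSet v).ncard ≠ 3}.ncard ≤ 2 * G.edgeSet.ncard := by
  classical
  have := Fintype.ofFinite V
  have h1 := G.sum_degrees_eq_twice_card_edges
  have h2 : G.edgeSet.ncard = G.edgeFinset.card := by
    rw [← Set.ncard_coe_finset, coe_edgeFinset]
  have h3 : ∀ v, G.degree v = (G.neighborSet v).ncard := fun v => by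
    rw [← card_neighborFinset_eq_degree, ← Set.ncard_coe_finset, coe_neighborFinset]
  have h4 : {v | (G.neighborSet v).ncard ≠ 3}.ncard =
      ∑ v : V, if (G.neighborSet v).ncard ≠ 3 then 1 else 0 := by
    rw [← Finset.card_filter, ← Set.ncard_coe_finset]
    simp
  have h5 : 3 * Nat.card V = ∑ _v : V, 3 := by
    rw [Finset.sum_const, Finset.card_univ, Nat.card_eq_fintype_card, smul_eq_mul, mul_comm]
  rw [h2, ← h1, h4, h5, ← Finset.sum_add_distrib]
  refine Finset.sum_le_sum fun v _ => ?_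
  rw [h3]
  have := h.three_le v
  split_ifs with hv
  · omega
  · omega

theorem avg_degree : ∃ (g : ℕ → ℝ) (N : ℕ → ℕ), (∀ k, 0 < g k) ∧
    ∀ (k : ℕ) (V : Type) [Finite V] (G : SimpleGraph V), ThreeConnected G →
      CrossingCritical G k → N k < Nat.card V →
      3 + g k < 2 * (G.edgeSet.ncard : ℝ) / Nat.card V := by
  choose M N hMN using card_le_of_critical
  refine ⟨fun k => 1 / (2 * ((M k : ℝ) + 1)), fun k => 2 * N k, fun k => by positivity,
    fun k V _ G h3 hcr hN => ?_⟩
  have hsum := h3.deg_sum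
  have h4 := h3.1
  have hne : G.edgeSet.Nonempty := by
    rw [← Set.ncard_pos (Set.toFinite _)]
    omega
  have hle := hMN k V G h3.preconnected_deleteEdges hne
    (fun h => absurd (crossingNumber_lt_of_crLT h) (not_lt.2 hcr.1))
    fun e he => crLT_of_crossingNumber_lt (hcr.2 e he)
  generalize {v | (G.neighborSet v).ncard ≠ 3}.ncard = b at hsum hle
  have hN' : 2 * N k < Nat.card V := hN
  have hb : Nat.card V < 2 * (M k + 1) * b := by
    have : 2 * (M k + 1) * b = 2 * (M k * b) + 2 * b := by ring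
    omega
  have hbR : (Nat.card V : ℝ) < 2 * ((M k : ℝ) + 1) * b := by exact_mod_cast hb
  have hsR : 3 * (Nat.card V : ℝ) + b ≤ 2 * (G.edgeSet.ncard : ℝ) := by exact_mod_cast hsum
  have hn : (0 : ℝ) < Nat.card V := by exact_mod_cast (show 0 < Nat.card V by omega)
  have hM : (0 : ℝ) < 2 * ((M k : ℝ) + 1) := by positivity
  rw [lt_div_iff₀ hn]
  have : 1 / (2 * ((M k : ℝ) + 1)) * (Nat.card V : ℝ) < b := by
    rw [one_div_mul_eq_div, div_lt_iff₀ hM]
    linarith
  show (3 + 1 / (2 * ((M k : ℝ) + 1))) * (Nat.card V : ℝ) < _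
  linarith

end Pool.Agent.Lib.MP_9550e9_co
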