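import Pool.Agent.Lib.Common.Planar.Basic

/-! Planarity of a graph glued along a boundary depends on finitely many data of each side. -/

namespace Pool.Agent.Lib.MP_9550e9_co

open SimpleGraph Pool.Agent.Lib.Common.Pl

variable {W W' κ : Type}

open Classical in
/-- The map gluing `W` to `W'` along the boundary labellings `β`, `β'`. -/
noncomputable def glueMap (β : κ → W) (β' : κ → W') : W → W' ⊕ W :=
  fun w => if h : ∃ i, β i = w then Sum.inl (β' h.choose) else Sum.inr w

/-- `H'` glued to `H₂` along the boundary labellings. -/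
noncomputable def glue (H' : SimpleGraph W') (β' : κ → W') (H₂ : SimpleGraph W) (β : κ → W) :
    SimpleGraph (W' ⊕ W) :=
  H'.map Sum.inl ⊔ H₂.map (glueMap β β')

theorem glueMap_apply {β : κ → W} (hβ : Function.Injective β) (β' : κ → W') (i : κ) :
    glueMap β β' (β i) = Sum.inl (β' i) := by
  have h : ∃ j, β j = β i := ⟨i, rfl⟩
  rw [glueMap, dif_pos h, hβ h.choose_spec]

theorem glueMap_of_notMem {β : κ → W} (β' : κ → W') {w : W} (hw : w ∉ Set.range β) :
    glueMap β β' w = Sum.inr w := by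
  exact dif_neg hw

theorem glueMap_eq_inl {β : κ → W} (hβ : Function.Injective β) {β' : κ → W'} {w : W} {w' : W'}
    (h : glueMap β β' w = Sum.inl w') : ∃ i, β i = w ∧ β' i = w' := by
  by_cases hw : w ∈ Set.range β
  · obtain ⟨i, rfl⟩ := hw
    rw [glueMap_apply hβ] at h
    exact ⟨i, rfl, Sum.inl_injective h⟩
  · rw [glueMap_of_notMem β' hw] at h
    cases h

theorem glueMap_eq_inr {β : κ → W} (hβ : Function.Injective β) {β' : κ → W'} {w u : W}
    (h : glueMap β β' w = Sum.inr u) : w = u ∧ u ∉ Set.range β := by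
  by_cases hw : w ∈ Set.range β
  · obtain ⟨i, rfl⟩ := hw
    rw [glueMap_apply hβ] at h
    cases h
  · rw [glueMap_of_notMem β' hw] at h
    obtain rfl := Sum.inr_injective h
    exact ⟨rfl, hw⟩

theorem glueMap_injective {β : κ → W} (hβ : Function.Injective β) {β' : κ → W'}
    (hβ' : Function.Injective β') : Function.Injective (glueMap β β') := by
  intro a b hab
  by_cases hb : b ∈ Set.range β
  · obtain ⟨i, rfl⟩ := hb
    rw [glueMap_apply hβ] at hab
    obtain ⟨j, rfl, hj⟩ := glueMap_eq_inl hβ hab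
    rw [hβ' hj]
  · rw [glueMap_of_notMem β' hb] at hab
    exact (glueMap_eq_inr hβ hab).1

theorem glue_adj {H' : SimpleGraph W'} {β' : κ → W'} {H₂ : SimpleGraph W} {β : κ → W}
    {z z' : W' ⊕ W} (h : (glue H' β' H₂ β).Adj z z') :
    (∃ a b, H'.Adj a b ∧ z = Sum.inl a ∧ z' = Sum.inl b) ∨
      ∃ a b, H₂.Adj a b ∧ z = glueMap β β' a ∧ z' = glueMap β β' b := by
  rcases h with ⟨-, a, b, hab, rfl, rfl⟩ | ⟨-, a, b, hab, rfl, rfl⟩
  · exact Or.inl ⟨a, b, hab, rfl, rfl⟩
  · exact Or.inr ⟨a, b, hab, rfl, rfl⟩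

/-- The fibre of a partial labelling. -/
def fib {U : Type} (μ : W → Option U) (x : U) : Set W := {w | μ w = some x}

/-- Partial labellings that can be the trace of a minor model. -/
def Valid {U : Type} (H : SimpleGraph W) (β : κ → W) (μ : W → Option U) : Prop :=
  (∀ x, ∀ w ∈ fib μ x, w ∈ Set.range β ∨ w ∈ H.support) ∧
    ∀ x, (∀ w ∈ fib μ x, ∃ i, RIn H (fib μ x) w (β i)) ∨
      (ConnSet H (fib μ x) ∧ ∀ i, β i ∉ fib μ x)

/-- The type of traces. -/
abbrev Tr (κ U : Type) : Type := (κ → Option U) × (κ → κ → Prop) × (U → U → Prop) × (U → Prop)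

/-- The trace of a partial labelling. -/
def trace {U : Type} (H : SimpleGraph W) (β : κ → W) (μ : W → Option U) : Tr κ U :=
  (fun i => μ (β i), fun i j => ∃ x, RIn H (fib μ x) (β i) (β j),
    fun x y => SAdj H (fib μ x) (fib μ y), fun x => (fib μ x).Nonempty ∧ ∀ i, β i ∉ fib μ x)

/-- The set of traces of valid labellings. -/
def folio (U : Type) (H : SimpleGraph W) (β : κ → W) : Set (Tr κ U) :=
  {τ | ∃ μ : W → Option U, Valid H β μ ∧ trace H β μ = τ}

theorem hasMinor_of_glue {U : Type} {F : SimpleGraph U} (hF : ∀ x, x ∈ F.support)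
    {H₁ H₂ : SimpleGraph W} {β : κ → W} {H' : SimpleGraph W'} {β' : κ → W'}
    (hβ : Function.Injective β) (hsup : H₁.support ∩ H₂.support ⊆ Set.range β)
    (hfol : folio U H' β' ⊆ folio U H₁ β) (h : HasMinor F (glue H' β' H₂ β)) :
    HasMinor F (H₁ ⊔ H₂) := by
  classical
  obtain ⟨B, h1, h2, h3⟩ := h
  have hBsup : ∀ x, ∀ z ∈ B x, z ∈ (glue H' β' H₂ β).support := by
    intro x b hb
    obtain ⟨y, hxy⟩ := hF x
    obtain ⟨a, ha, c, -, hac⟩ := h3 x y hxy
    rcases ((h1 x).rIn ha hb).eq_or_mem_support with rfl | h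
    · exact hac.mem_support_left
    · exact h.2
  let μ' : W' → Option U := fun w => if h : ∃ x, Sum.inl w ∈ B x then some h.choose else none
  have hμ' : ∀ x w, w ∈ fib μ' x ↔ Sum.inl w ∈ B x := by
    intro x w
    simp only [fib, Set.mem_ofPred_eq, μ']
    split_ifs with h
    · constructor
      · intro e
        obtain rfl := Option.some_injective _ e
        exact h.choose_spec
      · intro hw
        by_contra hne
        exact Set.disjoint_left.1 (h2 _ _ fun e => hne (congrArg some e)) h.choose_spec hw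
    · exact ⟨fun e => (by cases e), fun hw => (h ⟨x, hw⟩).elim⟩
  have hint : ∀ x, (∀ i, β' i ∉ fib μ' x) → ∀ w₀ ∈ fib μ' x, ∀ z ∈ B x,
      ∃ w, z = Sum.inl w ∧ RIn H' (fib μ' x) w₀ w := by
    intro x hx w₀ hw₀ z hz
    refine ((h1 x).rIn ((hμ' x w₀).1 hw₀) hz).induction
      (P := fun z => ∃ w, z = Sum.inl w ∧ RIn H' (fib μ' x) w₀ w) ⟨w₀, rfl, RIn.refl hw₀⟩ ?_
    rintro a b - hb hab ⟨w, rfl, hw⟩
    rcases glue_adj hab with ⟨c, d, hcd, e, rfl⟩ | ⟨c, d, -, e, -⟩
    · obtain rfl := Sum.inl_injective e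
      exact ⟨d, rfl, hw.tail hcd ((hμ' x d).2 hb)⟩
    · obtain ⟨i, -, rfl⟩ := glueMap_eq_inl hβ e.symm
      exact (hx i hw.right_mem).elim
  have hval : Valid H' β' μ' := by
    refine ⟨fun x w hw => ?_, fun x => ?_⟩
    · obtain ⟨z, hz⟩ := hBsup x _ ((hμ' x w).1 hw)
      rcases glue_adj hz with ⟨c, d, hcd, e, -⟩ | ⟨c, d, -, e, -⟩
      · obtain rfl := Sum.inl_injective e
        exact Or.inr hcd.mem_support_left
      · obtain ⟨i, -, rfl⟩ := glueMap_eq_inl hβ e.symm
        exact Or.inl ⟨i, rfl⟩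
    · by_cases hx : ∀ i, β' i ∉ fib μ' x
      · rcases (fib μ' x).eq_empty_or_nonempty with he | ⟨w₀, hw₀⟩
        · exact Or.inl fun w hw => by simp [he] at hw
        · refine Or.inr ⟨ConnSet.of_root hw₀ fun w hw => ?_, hx⟩
          obtain ⟨w', e, hw'⟩ := hint x hx w₀ hw₀ _ ((hμ' x w).1 hw)
          obtain rfl := Sum.inl_injective e
          exact hw'
      · push Not at hx
        obtain ⟨i₀, hi₀⟩ := hx
        refine Or.inl fun w hw => ?_
        have := ((h1 x).rIn ((hμ' x w).1 hw) ((hμ' x _).1 hi₀)).induction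
          (P := fun z => (∃ i, RIn H' (fib μ' x) w (β' i)) ∨
            ∃ w', z = Sum.inl w' ∧ RIn H' (fib μ' x) w w') (Or.inr ⟨w, rfl, RIn.refl hw⟩) ?_
        · rcases this with h | ⟨w', e, hw'⟩
          · exact h
          · obtain rfl := Sum.inl_injective e
            exact ⟨i₀, hw'⟩
        · rintro a b - hb hab (h | ⟨w', rfl, hw'⟩)
          · exact Or.inl h
          · rcases glue_adj hab with ⟨c, d, hcd, e, rfl⟩ | ⟨c, d, -, e, -⟩
            · obtain rfl := Sum.inl_injective e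
              exact Or.inr ⟨d, rfl, hw'.tail hcd ((hμ' x d).2 hb)⟩
            · obtain ⟨i, -, rfl⟩ := glueMap_eq_inl hβ e.symm
              exact Or.inl ⟨i, hw'⟩
  obtain ⟨μ, ⟨hv1, hv2⟩, htr⟩ := hfol ⟨μ', hval, rfl⟩
  simp only [trace, Prod.mk.injEq] at htr
  obtain ⟨t1, t2, t3, t4⟩ := htr
  have t1' : ∀ x i, β i ∈ fib μ x ↔ β' i ∈ fib μ' x := fun x i => by
    simp only [fib, Set.mem_ofPred_eq, congrFun t1 i]
  let D : U → Set W := fun x => fib μ x ∪ {w | w ∉ Set.range β ∧ Sum.inr w ∈ B x}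
  have hD : ∀ x u, glueMap β β' u ∈ B x → u ∈ D x := by
    intro x u hu
    by_cases h : u ∈ Set.range β
    · obtain ⟨i, rfl⟩ := h
      rw [glueMap_apply hβ] at hu
      exact Or.inl ((t1' x i).2 ((hμ' x _).2 hu))
    · rw [glueMap_of_notMem β' h] at hu
      exact Or.inr ⟨h, hu⟩
  have hinr : ∀ x w, Sum.inr w ∈ B x → w ∈ H₂.support ∧ w ∉ Set.range β := by
    intro x w hw
    obtain ⟨z, hz⟩ := hBsup x _ hw
    rcases glue_adj hz with ⟨c, d, -, e, -⟩ | ⟨c, d, hcd, e, -⟩
    · cases e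
    · obtain ⟨rfl, h⟩ := glueMap_eq_inr hβ e.symm
      exact ⟨hcd.mem_support_left, h⟩
  have hmix : ∀ x y w, w ∈ fib μ x → w ∉ Set.range β → Sum.inr w ∉ B y := by
    intro x y w hw hw' hy
    rcases hv1 x w hw with h | h
    · exact hw' h
    · exact hw' (hsup ⟨h, (hinr y w hy).1⟩)
  refine ⟨D, fun x => ?_, fun x y hxy => ?_, fun x y hxy => ?_⟩
  · by_cases hI : (fib μ' x).Nonempty ∧ ∀ i, β' i ∉ fib μ' x
    · have hI' : (fib μ x).Nonempty ∧ ∀ i, β i ∉ fib μ x := (congrFun t4 x).mpr hI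
      have hDx : D x = fib μ x := by
        refine Set.union_eq_left.2 ?_
        rintro w ⟨-, hw⟩
        obtain ⟨w₀, hw₀⟩ := hI.1
        obtain ⟨w', e, -⟩ := hint x hI.2 w₀ hw₀ _ hw
        cases e
      rw [hDx]
      rcases hv2 x with h | h
      · obtain ⟨w, hw⟩ := hI'.1
        obtain ⟨i, hi⟩ := h w hw
        exact (hI'.2 i hi.right_mem).elim
      · exact h.1.mono_graph le_sup_left
    · have hI' : ¬ ((fib μ x).Nonempty ∧ ∀ i, β i ∉ fib μ x) := fun h =>
        hI ((congrFun t4 x).mp h)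
      have hall : ∀ w ∈ fib μ x, ∃ i, RIn H₁ (fib μ x) w (β i) := by
        rcases hv2 x with h | h
        · exact h
        · exact (hI' ⟨h.1.1, h.2⟩).elim
      obtain ⟨u₀, hu₀⟩ : ∃ u₀, glueMap β β' u₀ ∈ B x := by
        obtain ⟨z, hz⟩ := (h1 x).1
        rcases z with w | w
        · have : ∃ i, β' i ∈ fib μ' x := by
            by_contra hc
            push Not at hc
            exact hI ⟨⟨w, (hμ' x w).2 hz⟩, hc⟩
          obtain ⟨i, hi⟩ := this
          exact ⟨β i, by rw [glueMap_apply hβ]; exact (hμ' x _).1 hi⟩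
        · exact ⟨w, by rw [glueMap_of_notMem β' (hinr x w hz).2]; exact hz⟩
      let Q : W' ⊕ W → Prop := fun z =>
        (∃ w i, z = Sum.inl w ∧ RIn (H₁ ⊔ H₂) (D x) u₀ (β i) ∧ RIn H' (fib μ' x) (β' i) w) ∨
          ∃ u, z = Sum.inr u ∧ RIn (H₁ ⊔ H₂) (D x) u₀ u
      have hQ1 : ∀ u, Q (glueMap β β' u) → RIn (H₁ ⊔ H₂) (D x) u₀ u := by
        rintro u (⟨w, i, e, k1, k2⟩ | ⟨u', e, k⟩)
        · obtain ⟨j, rfl, rfl⟩ := glueMap_eq_inl hβ e
          obtain ⟨x', hx'⟩ := (congrFun (congrFun t2 i) j).mpr ⟨x, k2⟩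
          have e1 : β i ∈ fib μ x := (t1' x i).2 k2.left_mem
          have e2 : β i ∈ fib μ x' := hx'.left_mem
          obtain rfl : x = x' := Option.some_injective _ (Eq.trans (Eq.symm e1) e2)
          exact k1.trans ((hx'.mono Set.subset_union_left).mono_graph le_sup_left)
        · obtain ⟨rfl, -⟩ := glueMap_eq_inr hβ e
          exact k
      have hQ2 : ∀ u, glueMap β β' u ∈ B x → RIn (H₁ ⊔ H₂) (D x) u₀ u → Q (glueMap β β' u) := by
        intro u hu k
        by_cases h : u ∈ Set.range β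
        · obtain ⟨i, rfl⟩ := h
          rw [glueMap_apply hβ] at hu ⊢
          exact Or.inl ⟨_, i, rfl, k, RIn.refl ((hμ' x _).2 hu)⟩
        · rw [glueMap_of_notMem β' h]
          exact Or.inr ⟨u, rfl, k⟩
      have hQ : ∀ z ∈ B x, Q z := by
        intro z hz
        refine ((h1 x).rIn hu₀ hz).induction (P := Q) (hQ2 u₀ hu₀ (RIn.refl (hD x u₀ hu₀))) ?_
        intro a b _ hb hab ih
        rcases glue_adj hab with ⟨c, d, hcd, rfl, rfl⟩ | ⟨c, d, hcd, rfl, rfl⟩
        · rcases ih with ⟨w, i, e, k1, k2⟩ | ⟨u', e, -⟩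
          · obtain rfl := Sum.inl_injective e
            exact Or.inl ⟨d, i, rfl, k1, k2.tail hcd ((hμ' x d).2 hb)⟩
          · cases e
        · exact hQ2 d hb ((hQ1 c ih).tail (Or.inr hcd) (hD x d hb))
      refine ConnSet.of_root (hD x u₀ hu₀) ?_
      rintro v (hv | ⟨hv, hv'⟩)
      · obtain ⟨i, hi⟩ := hall v hv
        have : glueMap β β' (β i) ∈ B x := by
          rw [glueMap_apply hβ]
          exact (hμ' x _).1 ((t1' x i).1 hi.right_mem)
        exact (hQ1 _ (hQ _ this)).trans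
          ((hi.symm.mono Set.subset_union_left).mono_graph le_sup_left)
      · refine hQ1 v ?_
        rw [glueMap_of_notMem β' hv]
        exact hQ _ hv'
  · rw [Set.disjoint_left]
    rintro w (hw | ⟨hw, hw'⟩) (hy | ⟨hy, hy'⟩)
    · exact hxy (Option.some_injective _ (Eq.trans (Eq.symm hw) hy))
    · exact hmix x y w hw hy hy'
    · exact hmix y x w hy hw hw'
    · exact Set.disjoint_left.1 (h2 x y hxy) hw' hy'
  · obtain ⟨a, ha, b, hb, hab⟩ := h3 x y hxy
    rcases glue_adj hab with ⟨c, d, hcd, rfl, rfl⟩ | ⟨c, d, hcd, rfl, rfl⟩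
    · have : SAdj H₁ (fib μ x) (fib μ y) := (congrFun (congrFun t3 x) y).mpr
        ⟨c, (hμ' x c).2 ha, d, (hμ' y d).2 hb, hcd⟩
      exact (this.mono Set.subset_union_left Set.subset_union_left).mono_graph le_sup_left
    · exact ⟨c, hD x c ha, d, hD y d hb, Or.inr hcd⟩

/-- There is a finite invariant of boundaried graphs controlling planarity of gluings. -/
theorem exists_folio (κ : Type) [Finite κ] : ∃ (F : Type) (_ : Finite F)
    (fol : ∀ (W : Type), SimpleGraph W → (κ → W) → F),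
    ∀ (W W' : Type) (H₁ H₂ : SimpleGraph W) (β : κ → W) (H' : SimpleGraph W') (β' : κ → W'),
      Function.Injective β → Function.Injective β' →
      H₁.support ∩ H₂.support ⊆ Set.range β → Planar (H₁ ⊔ H₂) →
      fol W' H' β' = fol W H₁ β → Planar (glue H' β' H₂ β) := by
  refine ⟨Set (Tr κ (Fin 5)) × Set (Tr κ (Fin 3 ⊕ Fin 3)), inferInstance,
    fun W H β => (folio _ H β, folio _ H β), ?_⟩
  intro W W' H₁ H₂ β H' β' hβ _ hsup hpl hfol
  simp only [Prod.mk.injEq] at hfol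
  exact ⟨fun h => hpl.1 (hasMinor_of_glue K5_support hβ hsup hfol.1.le h),
    fun h => hpl.2 (hasMinor_of_glue K33_support hβ hsup hfol.2.le h)⟩

end Pool.Agent.Lib.MP_9550e9_co
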