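import Pool.Agent.Lib.Common.Planar.Cyc

/-! Nested cycles inside a grid minor. -/

namespace Pool.Agent.Lib.MP_9550e9_co

open SimpleGraph Pool.Agent.Lib.Common.Pl

variable {V : Type}

/-- `A` and `B` are disjoint connected sets off the cycle `C` whose attachments alternate. -/
def Alt (G : SimpleGraph V) (C : Cyc G) (A B : Set V) : Prop :=
  ConnSet G A ∧ ConnSet G B ∧ Disjoint A B ∧ Disjoint A C.verts ∧ Disjoint B C.verts ∧
    ∃ i₁ i₂ i₃ i₄ : ℕ, i₁ < i₂ ∧ i₂ < i₃ ∧ i₃ < i₄ ∧ i₄ < i₁ + C.n ∧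
      SAdj G A {C.c i₁} ∧ SAdj G B {C.c i₂} ∧ SAdj G A {C.c i₃} ∧ SAdj G B {C.c i₄}

/-- A cycle passing through four cyclically adjacent sets in order. -/
theorem exists_cyc_four {G : SimpleGraph V} (R : Fin 4 → Set V)
    (hR : ∀ j, ConnSet G (R j)) (hRR : ∀ i j, i ≠ j → Disjoint (R i) (R j))
    (hadj : ∀ j, SAdj G (R j) (R (j + 1))) :
    ∃ C : Cyc G, C.verts ⊆ ⋃ j, R j ∧ (∀ j, (C.verts ∩ R j).Nonempty) ∧
      ∀ i i' j j', i < C.n → i' < C.n → C.c i ∈ R j → C.c i' ∈ R j' → j < j' → i < i' := by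
  obtain ⟨a0, ha0, b1, hb1, h0⟩ := hadj 0
  obtain ⟨a1, ha1, b2, hb2, h1⟩ := hadj 1
  obtain ⟨a2, ha2, b3, hb3, h2⟩ := hadj 2
  obtain ⟨a3, ha3, b0, hb0, h3⟩ := hadj 3
  change b1 ∈ R 1 at hb1
  change b2 ∈ R 2 at hb2
  change b3 ∈ R 3 at hb3
  change b0 ∈ R 0 at hb0
  obtain ⟨p0, hp0, s0⟩ := ((hR 0).rIn hb0 ha0).exists_path
  obtain ⟨p1, hp1, s1⟩ := ((hR 1).rIn hb1 ha1).exists_path
  obtain ⟨p2, hp2, s2⟩ := ((hR 2).rIn hb2 ha2).exists_path
  obtain ⟨p3, hp3, s3⟩ := ((hR 3).rIn hb3 ha3).exists_path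
  set w := p0.append (Walk.cons h0 (p1.append (Walk.cons h1 (p2.append (Walk.cons h2 p3)))))
    with hw
  have hsupp : w.support = p0.support ++ (p1.support ++ (p2.support ++ p3.support)) := by
    simp [hw, Walk.support_append]
  have huniq : ∀ x j j', x ∈ R j → x ∈ R j' → j = j' := by
    intro x j j' hx hx'
    by_contra hne
    exact Set.disjoint_left.1 (hRR j j' hne) hx hx'
  let rel : V → V → Prop := fun x y => x ≠ y ∧ ∀ j j', x ∈ R j → y ∈ R j' → j ≤ j'
  have hsame : ∀ (j : Fin 4) (l : List V), l.Nodup → (∀ x ∈ l, x ∈ R j) → l.Pairwise rel := by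
    intro j l hl hm
    refine List.Pairwise.imp_of_mem ?_ hl
    intro x y hx hy hxy
    refine ⟨hxy, fun i i' hi hi' => ?_⟩
    rw [huniq x i j hi (hm x hx), huniq y i' j hi' (hm y hy)]
  have hdiff : ∀ (j j' : Fin 4) x y, j < j' → x ∈ R j → y ∈ R j' → rel x y := by
    intro j j' x y hjj hx hy
    refine ⟨fun e => hjj.ne (huniq x j j' hx (e ▸ hy)), fun i i' hi hi' => ?_⟩
    rw [huniq x i j hi hx, huniq y i' j' hi' hy]
    exact hjj.le
  have hpw : w.support.Pairwise rel := by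
    rw [hsupp, List.pairwise_append, List.pairwise_append, List.pairwise_append]
    refine ⟨hsame 0 _ hp0.support_nodup s0, ⟨hsame 1 _ hp1.support_nodup s1,
      ⟨hsame 2 _ hp2.support_nodup s2, hsame 3 _ hp3.support_nodup s3, ?_⟩, ?_⟩, ?_⟩
    · intro x hx y hy
      exact hdiff 2 3 x y (by decide) (s2 x hx) (s3 y hy)
    · intro x hx y hy
      rcases List.mem_append.1 hy with hy | hy
      · exact hdiff 1 2 x y (by decide) (s1 x hx) (s2 y hy)
      · exact hdiff 1 3 x y (by decide) (s1 x hx) (s3 y hy)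
    · intro x hx y hy
      rcases List.mem_append.1 hy with hy | hy
      · exact hdiff 0 1 x y (by decide) (s0 x hx) (s1 y hy)
      · rcases List.mem_append.1 hy with hy | hy
        · exact hdiff 0 2 x y (by decide) (s0 x hx) (s2 y hy)
        · exact hdiff 0 3 x y (by decide) (s0 x hx) (s3 y hy)
  have hrel : ∀ i i', i < i' → i' ≤ w.length → rel (w.getVert i) (w.getVert i') := by
    intro i i' hii hi'
    rw [Walk.getVert_eq_support_getElem w (n := i) (by omega),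
      Walk.getVert_eq_support_getElem w (n := i') hi']
    exact List.pairwise_iff_getElem.1 hpw i i' _ _ hii
  have hlen : 3 ≤ w.length := by
    simp only [hw, Walk.length_append, Walk.length_cons]
    omega
  obtain ⟨C, hn, hc⟩ := exists_cyc_of_seq (G := G) w.getVert (w.length + 1) (by omega)
    (fun i hi => w.adj_getVert_succ (by omega))
    (by simpa using h3)
    (by
      intro i j hi hj h
      rcases lt_trichotomy i j with h' | h' | h'
      · exact absurd h (hrel i j h' (by omega)).1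
      · exact h'
      · exact absurd h.symm (hrel j i h' (by omega)).1)
  have hmem : ∀ x ∈ w.support, x ∈ C.verts := by
    intro x hx
    obtain ⟨i, rfl, hi⟩ := Walk.mem_support_iff_exists_getVert.1 hx
    exact ⟨i, hc i (by omega)⟩
  refine ⟨C, ?_, ?_, ?_⟩
  · intro x hx
    obtain ⟨j, -, hj, rfl⟩ := C.exists_pos hx 0
    rw [hc j (by omega)]
    have := w.getVert_mem_support j
    rw [hsupp] at this
    simp only [List.mem_append] at this
    rcases this with h | h | h | h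
    exacts [Set.mem_iUnion.2 ⟨0, s0 _ h⟩, Set.mem_iUnion.2 ⟨1, s1 _ h⟩,
      Set.mem_iUnion.2 ⟨2, s2 _ h⟩, Set.mem_iUnion.2 ⟨3, s3 _ h⟩]
  · intro j
    fin_cases j
    · exact ⟨b0, hmem _ (by rw [hsupp]; simp), hb0⟩
    · exact ⟨b1, hmem _ (by rw [hsupp]; simp), hb1⟩
    · exact ⟨b2, hmem _ (by rw [hsupp]; simp), hb2⟩
    · exact ⟨b3, hmem _ (by rw [hsupp]; simp), hb3⟩
  · intro i i' j j' hi hi' hj hj' hjj
    rw [hc i (by omega)] at hj
    rw [hc i' (by omega)] at hj'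
    rcases lt_trichotomy i i' with h' | h' | h'
    · exact h'
    · subst h'
      exact absurd (huniq _ _ _ hj hj') hjj.ne
    · exact absurd ((hrel i' i h' (by omega)).2 j' j hj' hj) (not_le.2 hjj)

/-- Growing a set towards a target set through an adjacent connected set. -/
theorem sAdj_comp_target {G : SimpleGraph V} {A R T S : Set V} {a : V} (hA : ConnSet G A)
    (ha : a ∈ A) (hAT : Disjoint A T) (hR : ConnSet G R) (hRT : (T ∩ R).Nonempty)
    (hAR : SAdj G A R) (hAS : A ⊆ S) (hRS : R ⊆ S) :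
    ∃ t ∈ T ∩ R, SAdj G (comp G (S \ T) a) {t} := by
  obtain ⟨x, hx, y, hy, hxy⟩ := hAR
  have hAsub : A ⊆ S \ T := fun v hv => ⟨hAS hv, Set.disjoint_left.1 hAT hv⟩
  have hxc : x ∈ comp G (S \ T) a := (hA.rIn ha hx).mono hAsub
  by_cases hyT : y ∈ T
  · exact ⟨y, ⟨hyT, hy⟩, x, hxc, y, rfl, hxy⟩
  · obtain ⟨t, htT, htR⟩ := hRT
    obtain ⟨u, v, huv, hadj, hvR, hvT⟩ := (hR.rIn hy htR).exists_exit (A := Tᶜ) hyT
      (by simpa using htT)
    refine ⟨v, ⟨by simpa using hvT, hvR⟩, u, ?_, v, rfl, hadj⟩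
    have hyc : y ∈ comp G (S \ T) a := mem_comp_of_adj hxc hxy ⟨hRS hy, hyT⟩
    exact RIn.trans hyc (huv.mono fun z hz => ⟨hRS hz.1, hz.2⟩)

/-- Four cyclically adjacent sets with an inner and an outer neighbour contain a cycle with
alternating attachments. -/
theorem exists_cyc_alt {G : SimpleGraph V} (R : Fin 4 → Set V)
    (hR : ∀ j, ConnSet G (R j)) (hRR : ∀ i j, i ≠ j → Disjoint (R i) (R j))
    (hadj : ∀ j, SAdj G (R j) (R (j + 1))) :
    ∃ C : Cyc G, C.verts ⊆ ⋃ j, R j ∧ ∀ A B : Set V, ConnSet G A → ConnSet G B → Disjoint A B →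
      (∀ j, Disjoint A (R j)) → (∀ j, Disjoint B (R j)) → SAdj G A (R 0) → SAdj G B (R 1) →
      SAdj G A (R 2) → SAdj G B (R 3) →
      ∃ A' B', A ⊆ A' ∧ A' ⊆ A ∪ R 0 ∪ R 2 ∧ B ⊆ B' ∧ B' ⊆ B ∪ R 1 ∪ R 3 ∧ Alt G C A' B' := by
  obtain ⟨C, hC, hne, hord⟩ := exists_cyc_four R hR hRR hadj
  refine ⟨C, hC, fun A B hA hB hAB hAR hBR h0 h1 h2 h3 => ?_⟩
  obtain ⟨a, ha⟩ := hA.1
  obtain ⟨b, hb⟩ := hB.1
  have hAC : Disjoint A C.verts := by
    rw [Set.disjoint_left]
    intro v hv hvC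
    obtain ⟨j, hj⟩ := Set.mem_iUnion.1 (hC hvC)
    exact Set.disjoint_left.1 (hAR j) hv hj
  have hBC : Disjoint B C.verts := by
    rw [Set.disjoint_left]
    intro v hv hvC
    obtain ⟨j, hj⟩ := Set.mem_iUnion.1 (hC hvC)
    exact Set.disjoint_left.1 (hBR j) hv hj
  have hAsub : A ⊆ (A ∪ R 0 ∪ R 2) \ C.verts :=
    fun v hv => ⟨Or.inl (Or.inl hv), Set.disjoint_left.1 hAC hv⟩
  have hBsub : B ⊆ (B ∪ R 1 ∪ R 3) \ C.verts :=
    fun v hv => ⟨Or.inl (Or.inl hv), Set.disjoint_left.1 hBC hv⟩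
  obtain ⟨t0, ⟨ht0, ht0R⟩, k0⟩ := sAdj_comp_target (S := A ∪ R 0 ∪ R 2) hA ha hAC (hR 0) (hne 0) h0
    (fun v hv => Or.inl (Or.inl hv)) (fun v hv => Or.inl (Or.inr hv))
  obtain ⟨t2, ⟨ht2, ht2R⟩, k2⟩ := sAdj_comp_target (S := A ∪ R 0 ∪ R 2) hA ha hAC (hR 2) (hne 2) h2
    (fun v hv => Or.inl (Or.inl hv)) (fun v hv => Or.inr hv)
  obtain ⟨t1, ⟨ht1, ht1R⟩, k1⟩ := sAdj_comp_target (S := B ∪ R 1 ∪ R 3) hB hb hBC (hR 1) (hne 1) h1
    (fun v hv => Or.inl (Or.inl hv)) (fun v hv => Or.inl (Or.inr hv))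
  obtain ⟨t3, ⟨ht3, ht3R⟩, k3⟩ := sAdj_comp_target (S := B ∪ R 1 ∪ R 3) hB hb hBC (hR 3) (hne 3) h3
    (fun v hv => Or.inl (Or.inl hv)) (fun v hv => Or.inr hv)
  obtain ⟨i0, -, hi0, rfl⟩ := C.exists_pos ht0 0
  obtain ⟨i1, -, hi1, rfl⟩ := C.exists_pos ht1 0
  obtain ⟨i2, -, hi2, rfl⟩ := C.exists_pos ht2 0
  obtain ⟨i3, -, hi3, rfl⟩ := C.exists_pos ht3 0
  rw [zero_add] at hi0 hi1 hi2 hi3
  refine ⟨comp G ((A ∪ R 0 ∪ R 2) \ C.verts) a, comp G ((B ∪ R 1 ∪ R 3) \ C.verts) b,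
    hA.subset_comp hAsub ha (mem_comp_self (hAsub ha)), fun v hv => (comp_subset hv).1,
    hB.subset_comp hBsub hb (mem_comp_self (hBsub hb)), fun v hv => (comp_subset hv).1,
    connSet_comp (hAsub ha), connSet_comp (hBsub hb), ?_,
    Set.disjoint_left.2 fun v hv => (comp_subset hv).2,
    Set.disjoint_left.2 fun v hv => (comp_subset hv).2,
    i0, i1, i2, i3, hord _ _ 0 1 hi0 hi1 ht0R ht1R (by decide),
    hord _ _ 1 2 hi1 hi2 ht1R ht2R (by decide), hord _ _ 2 3 hi2 hi3 ht2R ht3R (by decide),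
    by omega, k0, k1, k2, k3⟩
  rw [Set.disjoint_left]
  intro v hv hv'
  have e1 := (comp_subset hv).1
  have e2 := (comp_subset hv').1
  rcases e1 with (e1 | e1) | e1 <;> rcases e2 with (e2 | e2) | e2
  · exact Set.disjoint_left.1 hAB e1 e2
  · exact Set.disjoint_left.1 (hAR 1) e1 e2
  · exact Set.disjoint_left.1 (hAR 3) e1 e2
  · exact Set.disjoint_left.1 (hBR 0) e2 e1
  · exact Set.disjoint_left.1 (hRR 0 1 (by decide)) e1 e2
  · exact Set.disjoint_left.1 (hRR 0 3 (by decide)) e1 e2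
  · exact Set.disjoint_left.1 (hBR 2) e2 e1
  · exact Set.disjoint_left.1 (hRR 2 1 (by decide)) e1 e2
  · exact Set.disjoint_left.1 (hRR 2 3 (by decide)) e1 e2

/-- `z` systems of nested cycles `C a 0, …, C a m`. -/
def Nests (G : SimpleGraph V) (z m : ℕ) : Prop :=
  ∃ (C : Fin z → ℕ → Cyc G) (A B : Fin z → ℕ → Set V),
    (∀ a i, 1 ≤ i → i ≤ m → Alt G (C a i) (A a i) (B a i)) ∧
    (∀ a i, 1 ≤ i → i ≤ m → (C a (i - 1)).verts ⊆ A a i) ∧
    (∀ a i, 1 ≤ i → i < m → (C a (i + 1)).verts ⊆ B a i) ∧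
    (∀ a i, 1 ≤ i → i + 2 ≤ m → Disjoint (B a i) (C a (i + 2)).verts) ∧
    ∀ a b, a ≠ b → (C b m).verts ⊆ B a m ∧ (C b (m - 1)).verts ⊆ B a m

/-- The union of the branch sets of the cells satisfying `P`. -/
def cells (B : ℕ → ℕ → Set V) (P : ℕ → ℕ → Prop) : Set V := {v | ∃ i j, P i j ∧ v ∈ B i j}

theorem cells_mono {B : ℕ → ℕ → Set V} {P Q : ℕ → ℕ → Prop} (h : ∀ i j, P i j → Q i j) :
    cells B P ⊆ cells B Q := fun _ ⟨i, j, h1, h2⟩ => ⟨i, j, h i j h1, h2⟩

section grid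

variable {G : SimpleGraph V} {r : ℕ} {B : ℕ → ℕ → Set V}

theorem cells_disjoint
    (h2 : ∀ i < r, ∀ j < r, ∀ i' < r, ∀ j' < r, (i, j) ≠ (i', j') → Disjoint (B i j) (B i' j'))
    {P Q : ℕ → ℕ → Prop} (hP : ∀ i j, P i j → i < r ∧ j < r) (hQ : ∀ i j, Q i j → i < r ∧ j < r)
    (hPQ : ∀ i j, P i j → ¬ Q i j) : Disjoint (cells B P) (cells B Q) := by
  rw [Set.disjoint_left]
  rintro v ⟨i, j, e1, e2⟩ ⟨i', j', f1, f2⟩
  refine Set.disjoint_left.1 (h2 i (hP i j e1).1 j (hP i j e1).2 i' (hQ i' j' f1).1 j'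
    (hQ i' j' f1).2 ?_) e2 f2
  intro e
  obtain ⟨rfl, rfl⟩ := Prod.mk.inj e
  exact hPQ i j e1 f1

theorem cells_rect_conn (h1 : ∀ i < r, ∀ j < r, ConnSet G (B i j))
    (h3 : ∀ i j, i + 1 < r → j < r → SAdj G (B i j) (B (i + 1) j))
    (h4 : ∀ i j, i < r → j + 1 < r → SAdj G (B i j) (B i (j + 1)))
    {i₁ i₂ j₁ j₂ : ℕ} (hi : i₁ ≤ i₂) (hj : j₁ ≤ j₂) (hir : i₂ < r) (hjr : j₂ < r) :
    ConnSet G (cells B fun i j => i₁ ≤ i ∧ i ≤ i₂ ∧ j₁ ≤ j ∧ j ≤ j₂) := by
  set S := cells B fun i j => i₁ ≤ i ∧ i ≤ i₂ ∧ j₁ ≤ j ∧ j ≤ j₂ with hS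
  have hsub : ∀ i j, i₁ ≤ i → i ≤ i₂ → j₁ ≤ j → j ≤ j₂ → B i j ⊆ S :=
    fun i j e1 e2 e3 e4 v hv => ⟨i, j, ⟨e1, e2, e3, e4⟩, hv⟩
  obtain ⟨x, hx⟩ := (h1 i₁ (by omega) j₁ (by omega)).1
  have hcol : ∀ i, i₁ ≤ i → i ≤ i₂ → ∀ v ∈ B i j₁, RIn G S x v := by
    intro i hi1
    induction i, hi1 using Nat.le_induction with
    | base =>
      intro _ v hv
      exact ((h1 i₁ (by omega) j₁ (by omega)).rIn hx hv).mono (hsub _ _ le_rfl hi le_rfl hj)
    | succ i hi1 ih =>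
      intro hi2 v hv
      obtain ⟨a, ha, b, hb, hab⟩ := h3 i j₁ (by omega) (by omega)
      have hs := hsub (i + 1) j₁ (by omega) hi2 le_rfl hj
      exact ((ih (by omega) a ha).tail hab (hs hb)).trans
        (((h1 (i + 1) (by omega) j₁ (by omega)).rIn hb hv).mono hs)
  have hrow : ∀ i, i₁ ≤ i → i ≤ i₂ → ∀ j, j₁ ≤ j → j ≤ j₂ → ∀ v ∈ B i j, RIn G S x v := by
    intro i hi1 hi2 j hj1
    induction j, hj1 using Nat.le_induction with
    | base => exact fun _ => hcol i hi1 hi2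
    | succ j hj1 ih =>
      intro hj2 v hv
      obtain ⟨a, ha, b, hb, hab⟩ := h4 i j (by omega) (by omega)
      have hs := hsub i (j + 1) hi1 hi2 (by omega) hj2
      exact ((ih (by omega) a ha).tail hab (hs hb)).trans
        (((h1 i (by omega) (j + 1) (by omega)).rIn hb hv).mono hs)
  refine ConnSet.of_root (hsub _ _ le_rfl hi le_rfl hj hx) ?_
  rintro v ⟨i, j, ⟨e1, e2, e3, e4⟩, hv⟩
  exact hrow i e1 e2 j e3 e4 v hv

theorem cells_union_conn (h1 : ∀ i < r, ∀ j < r, ConnSet G (B i j)) {P Q : ℕ → ℕ → Prop}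
    (hP : ConnSet G (cells B P)) (hQ : ConnSet G (cells B Q)) (i j : ℕ) (hi : i < r) (hj : j < r)
    (hp : P i j) (hq : Q i j) : ConnSet G (cells B fun i j => P i j ∨ Q i j) := by
  obtain ⟨x, hx⟩ := (h1 i hi j hj).1
  have := hP.union hQ ⟨x, ⟨i, j, hp, hx⟩, ⟨i, j, hq, hx⟩⟩
  have e : cells B P ∪ cells B Q = cells B fun i j => P i j ∨ Q i j := by
    ext v
    constructor
    · rintro (⟨i, j, h, hv⟩ | ⟨i, j, h, hv⟩)
      exacts [⟨i, j, Or.inl h, hv⟩, ⟨i, j, Or.inr h, hv⟩]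
    · rintro ⟨i, j, h | h, hv⟩
      exacts [Or.inl ⟨i, j, h, hv⟩, Or.inr ⟨i, j, h, hv⟩]
  rwa [e] at this

theorem cells_sAdj_v (h3 : ∀ i j, i + 1 < r → j < r → SAdj G (B i j) (B (i + 1) j))
    {P Q : ℕ → ℕ → Prop} (i j : ℕ) (hi : i + 1 < r) (hj : j < r) (hp : P i j) (hq : Q (i + 1) j) :
    SAdj G (cells B P) (cells B Q) :=
  (h3 i j hi hj).mono (fun _ hv => ⟨i, j, hp, hv⟩) (fun _ hv => ⟨i + 1, j, hq, hv⟩)

theorem cells_sAdj_h (h4 : ∀ i j, i < r → j + 1 < r → SAdj G (B i j) (B i (j + 1)))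
    {P Q : ℕ → ℕ → Prop} (i j : ℕ) (hi : i < r) (hj : j + 1 < r) (hp : P i j) (hq : Q i (j + 1)) :
    SAdj G (cells B P) (cells B Q) :=
  (h4 i j hi hj).mono (fun _ hv => ⟨i, j, hp, hv⟩) (fun _ hv => ⟨i, j + 1, hq, hv⟩)

end grid

/-- The four sides of the ring whose corners are `(x, y)` and `(x + d + 1, y + d + 1)`. -/
def side (x y d : ℕ) : Fin 4 → ℕ → ℕ → Prop :=
  ![fun i j => x ≤ i ∧ i ≤ x ∧ y ≤ j ∧ j ≤ y + d + 1,
    fun i j => x + 1 ≤ i ∧ i ≤ x + d ∧ y + d + 1 ≤ j ∧ j ≤ y + d + 1,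
    fun i j => x + d + 1 ≤ i ∧ i ≤ x + d + 1 ∧ y ≤ j ∧ j ≤ y + d + 1,
    fun i j => x + 1 ≤ i ∧ i ≤ x + d ∧ y ≤ j ∧ j ≤ y]

/-- The cells of the ring whose corners are `(x, y)` and `(x + d + 1, y + d + 1)`. -/
def ring (x y d : ℕ) (i j : ℕ) : Prop :=
  x ≤ i ∧ i ≤ x + d + 1 ∧ y ≤ j ∧ j ≤ y + d + 1 ∧ (i = x ∨ i = x + d + 1 ∨ j = y ∨ j = y + d + 1)

theorem side_ring {x y d i j : ℕ} {l : Fin 4} (h : side x y d l i j) : ring x y d i j := by
  fin_cases l <;> simp only [side, ring] at h ⊢ <;> simp at h <;> omega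

/-- One ring of a grid, with its cycle and an alternating pair. -/
theorem exists_ring {G : SimpleGraph V} {r : ℕ} {B : ℕ → ℕ → Set V}
    (h1 : ∀ i < r, ∀ j < r, ConnSet G (B i j))
    (h2 : ∀ i < r, ∀ j < r, ∀ i' < r, ∀ j' < r, (i, j) ≠ (i', j') → Disjoint (B i j) (B i' j'))
    (h3 : ∀ i j, i + 1 < r → j < r → SAdj G (B i j) (B (i + 1) j))
    (h4 : ∀ i j, i < r → j + 1 < r → SAdj G (B i j) (B i (j + 1)))
    (x y d : ℕ) (hd : 1 ≤ d) (hx : x + d + 3 < r) (hy : y + d + 3 < r) (Q : ℕ → ℕ → Prop)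
    (hQ : ConnSet G (cells B Q)) (hQr : ∀ i j, Q i j → i < r ∧ j < r)
    (hQout : ∀ i j, Q i j → i ≤ x ∨ x + d + 3 ≤ i ∨ j ≤ y ∨ y + d + 3 ≤ j)
    (hQ1 : Q (x + 2) y) (hQ2 : Q (x + 2) (y + d + 3)) :
    ∃ (C : Cyc G) (A' B' : Set V), C.verts ⊆ cells B (ring (x + 1) (y + 1) d) ∧
      cells B (fun i j => x + 2 ≤ i ∧ i ≤ x + d + 1 ∧ y + 2 ≤ j ∧ j ≤ y + d + 1) ⊆ A' ∧
      cells B Q ⊆ B' ∧ B' ⊆ cells B Q ∪ cells B (ring (x + 1) (y + 1) d) ∧ Alt G C A' B' := by
  have hsr : ∀ l i j, side (x + 1) (y + 1) d l i j → i < r ∧ j < r := by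
    intro l i j h
    have := side_ring h
    simp only [ring] at this
    omega
  have hsub : ∀ l, cells B (side (x + 1) (y + 1) d l) ⊆ cells B (ring (x + 1) (y + 1) d) :=
    fun l => cells_mono fun _ _ h => side_ring h
  obtain ⟨C, hC, hAlt⟩ := exists_cyc_alt (G := G) (fun l => cells B (side (x + 1) (y + 1) d l))
    (by
      intro l
      fin_cases l <;> exact cells_rect_conn h1 h3 h4 (by omega) (by omega) (by omega) (by omega))
    (by
      intro l l' hll
      refine cells_disjoint h2 (hsr l) (hsr l') ?_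
      intro i j e1 e2
      fin_cases l <;> fin_cases l' <;> simp only [side] at e1 e2 <;> simp at e1 e2 hll <;> omega)
    (by
      intro l
      fin_cases l
      · exact cells_sAdj_v h3 (x + 1) (y + d + 2) (by omega) (by omega)
          (by simp [side]; omega) (by simp [side]; omega)
      · exact cells_sAdj_v h3 (x + d + 1) (y + d + 2) (by omega) (by omega)
          (by simp [side]; omega) (by simp [side]; omega)
      · exact (cells_sAdj_v h3 (x + d + 1) (y + 1) (by omega) (by omega)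
          (by simp [side]; omega) (by simp [side]; omega)).symm
      · exact (cells_sAdj_v h3 (x + 1) (y + 1) (by omega) (by omega)
          (by simp [side]; omega) (by simp [side]; omega)).symm)
  obtain ⟨A', B', k1, -, k3, k4, k5⟩ := hAlt
    (cells B (fun i j => x + 2 ≤ i ∧ i ≤ x + d + 1 ∧ y + 2 ≤ j ∧ j ≤ y + d + 1)) (cells B Q)
    (cells_rect_conn h1 h3 h4 (by omega) (by omega) (by omega) (by omega)) hQ
    (cells_disjoint h2 (fun i j h => by omega) hQr fun i j h h' => by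
      have := hQout i j h'
      omega)
    (fun l => cells_disjoint h2 (fun i j h => by omega) (hsr l) fun i j h h' => by
      have := side_ring h'
      simp only [ring] at this
      omega)
    (fun l => cells_disjoint h2 hQr (hsr l) fun i j h h' => by
      have := side_ring h'
      have := hQout i j h
      simp only [ring] at *
      omega)
    (cells_sAdj_v h3 (x + 1) (y + 2) (by omega) (by omega)
      (by simp [side]) (by omega)).symm
    (cells_sAdj_h h4 (x + 2) (y + d + 2) (by omega) (by omega)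
      (by simp [side]; omega) hQ2).symm
    (cells_sAdj_v h3 (x + d + 1) (y + 2) (by omega) (by omega)
      (by omega) (by simp [side]; omega))
    (cells_sAdj_h h4 (x + 2) y (by omega) (by omega) hQ1 (by simp [side]; omega))
  refine ⟨C, A', B', hC.trans (Set.iUnion_subset hsub), k1, k3, k4.trans ?_, k5⟩
  rintro v ((hv | hv) | hv)
  exacts [Or.inl hv, Or.inr (hsub 1 hv), Or.inr (hsub 3 hv)]

theorem nests_of_grid (z m : ℕ) : ∃ r : ℕ, ∀ (V : Type) (G : SimpleGraph V),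
    Grid G r → Nests G z m := by
  refine ⟨(z + 1) * (2 * m + 4) + 1, fun V G hG => ?_⟩
  obtain ⟨B, h1, h2, h3, h4⟩ := hG
  set r := (z + 1) * (2 * m + 4) + 1 with hr
  let s : Fin z → ℕ := fun a => a * (2 * m + 4)
  have hs : ∀ a, s a + (2 * m + 4) < r ∧ 2 * m + 4 < r := by
    intro a
    have := a.2
    have e : (a + 1) * (2 * m + 4) ≤ (z + 1) * (2 * m + 4) := Nat.mul_le_mul_right _ (by omega)
    simp only [s]
    constructor <;> nlinarith
  have hss : ∀ a b, a ≠ b → s a + (2 * m + 4) ≤ s b ∨ s b + (2 * m + 4) ≤ s a := by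
    intro a b hab
    rcases lt_or_gt_of_ne (fun e => hab (Fin.ext e) : (a : ℕ) ≠ b) with h | h
    · left
      have e : (a + 1) * (2 * m + 4) ≤ b * (2 * m + 4) := Nat.mul_le_mul_right _ h
      simp only [s]; nlinarith
    · right
      have e : (b + 1) * (2 * m + 4) ≤ a * (2 * m + 4) := Nat.mul_le_mul_right _ h
      simp only [s]; nlinarith
  let Q : Fin z → ℕ → ℕ → ℕ → Prop := fun a i u v =>
    if i < m then ring (m - i) (s a + (m - i)) (2 * i + 3) u v
    else u < r ∧ v < r ∧ (u = 0 ∨ v ≤ s a ∨ s a + (2 * m + 4) ≤ v)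
  have key : ∀ (a : Fin z) (i : ℕ), ∃ (C : Cyc G) (A' B' : Set V), i ≤ m →
      C.verts ⊆ cells B (ring (m - i + 1) (s a + (m - i) + 1) (2 * i + 1)) ∧
      cells B (fun u v => m - i + 2 ≤ u ∧ u ≤ m - i + (2 * i + 1) + 1 ∧
        s a + (m - i) + 2 ≤ v ∧ v ≤ s a + (m - i) + (2 * i + 1) + 1) ⊆ A' ∧
      cells B (Q a i) ⊆ B' ∧
      B' ⊆ cells B (Q a i) ∪ cells B (ring (m - i + 1) (s a + (m - i) + 1) (2 * i + 1)) ∧
      Alt G C A' B' := by
    have key' : ∀ (a : Fin z) (i : ℕ), i ≤ m → ∃ (C : Cyc G) (A' B' : Set V),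
        C.verts ⊆ cells B (ring (m - i + 1) (s a + (m - i) + 1) (2 * i + 1)) ∧
        cells B (fun u v => m - i + 2 ≤ u ∧ u ≤ m - i + (2 * i + 1) + 1 ∧
          s a + (m - i) + 2 ≤ v ∧ v ≤ s a + (m - i) + (2 * i + 1) + 1) ⊆ A' ∧
        cells B (Q a i) ⊆ B' ∧
        B' ⊆ cells B (Q a i) ∪ cells B (ring (m - i + 1) (s a + (m - i) + 1) (2 * i + 1)) ∧
        Alt G C A' B' := by
      intro a i hi
      obtain ⟨hs1, hs2⟩ := hs a
      refine exists_ring h1 h2 h3 h4 (m - i) (s a + (m - i)) (2 * i + 1) (by omega) (by omega)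
        (by omega) (Q a i) ?_ ?_ ?_ ?_ ?_
      · by_cases him : i < m
        · have c1 := cells_rect_conn h1 h3 h4 (i₁ := m - i) (i₂ := m - i) (j₁ := s a + (m - i))
            (j₂ := s a + (m + i + 4)) (by omega) (by omega) (by omega) (by omega)
          have c2 := cells_rect_conn h1 h3 h4 (i₁ := m - i) (i₂ := m + i + 4)
            (j₁ := s a + (m - i)) (j₂ := s a + (m - i)) (by omega) (by omega) (by omega) (by omega)
          have c3 := cells_rect_conn h1 h3 h4 (i₁ := m - i) (i₂ := m + i + 4)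
            (j₁ := s a + (m + i + 4)) (j₂ := s a + (m + i + 4)) (by omega) (by omega) (by omega)
            (by omega)
          have c4 := cells_rect_conn h1 h3 h4 (i₁ := m + i + 4) (i₂ := m + i + 4)
            (j₁ := s a + (m - i)) (j₂ := s a + (m + i + 4)) (by omega) (by omega) (by omega)
            (by omega)
          have c5 := cells_union_conn h1 c1 c2 (m - i) (s a + (m - i)) (by omega) (by omega)
            (by omega) (by omega)
          have c6 := cells_union_conn h1 c5 c3 (m - i) (s a + (m + i + 4)) (by omega) (by omega)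
            (by omega) (by omega)
          have c7 := cells_union_conn h1 c6 c4 (m + i + 4) (s a + (m - i)) (by omega) (by omega)
            (by omega) (by omega)
          have e : Q a i = fun u v => ((m - i ≤ u ∧ u ≤ m - i ∧ s a + (m - i) ≤ v ∧
              v ≤ s a + (m + i + 4) ∨ m - i ≤ u ∧ u ≤ m + i + 4 ∧ s a + (m - i) ≤ v ∧
              v ≤ s a + (m - i)) ∨ m - i ≤ u ∧ u ≤ m + i + 4 ∧ s a + (m + i + 4) ≤ v ∧
              v ≤ s a + (m + i + 4)) ∨ m + i + 4 ≤ u ∧ u ≤ m + i + 4 ∧ s a + (m - i) ≤ v ∧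
              v ≤ s a + (m + i + 4) := by
            funext u v
            simp only [Q, him, if_true, ring]
            apply propext
            omega
          rw [e]
          exact c7
        · have c1 := cells_rect_conn h1 h3 h4 (i₁ := 0) (i₂ := 0) (j₁ := 0)
            (j₂ := r - 1) (by omega) (by omega) (by omega) (by omega)
          have c2 := cells_rect_conn h1 h3 h4 (i₁ := 0) (i₂ := r - 1)
            (j₁ := 0) (j₂ := s a) (by omega) (by omega) (by omega) (by omega)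
          have c3 := cells_rect_conn h1 h3 h4 (i₁ := 0) (i₂ := r - 1)
            (j₁ := s a + (2 * m + 4)) (j₂ := r - 1) (by omega) (by omega) (by omega)
            (by omega)
          have c5 := cells_union_conn h1 c1 c2 0 0 (by omega) (by omega)
            (by omega) (by omega)
          have c6 := cells_union_conn h1 c5 c3 0 (r - 1) (by omega) (by omega)
            (by omega) (by omega)
          have e : Q a i = fun u v => (0 ≤ u ∧ u ≤ 0 ∧ 0 ≤ v ∧ v ≤ r - 1 ∨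
              0 ≤ u ∧ u ≤ r - 1 ∧ 0 ≤ v ∧ v ≤ s a) ∨
              0 ≤ u ∧ u ≤ r - 1 ∧ s a + (2 * m + 4) ≤ v ∧ v ≤ r - 1 := by
            funext u v
            simp only [Q, him, if_false]
            apply propext
            omega
          rw [e]
          exact c6
      · intro u v h
        by_cases him : i < m <;> simp only [Q, him, if_true, if_false, ring] at h <;> omega
      · intro u v h
        by_cases him : i < m <;> simp only [Q, him, if_true, if_false, ring] at h <;> omega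
      · by_cases him : i < m <;>
          simp only [Q, him, if_true, if_false, ring, true_or, or_true, and_true] <;> omega
      · by_cases him : i < m <;> simp only [Q, him, if_true, if_false, ring] <;> omega
    intro a i
    by_cases hi : i ≤ m
    · obtain ⟨C, A', B', h⟩ := key' a i hi
      exact ⟨C, A', B', fun _ => h⟩
    · obtain ⟨C, A', B', -⟩ := key' a 0 (Nat.zero_le _)
      exact ⟨C, A', B', fun h => absurd h hi⟩
  choose C A' B' hk using key
  refine ⟨C, A', B', fun a i _ hi => (hk a i hi).2.2.2.2, fun a i hi1 hi => ?_,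
    fun a i hi1 hi => ?_, fun a i hi1 hi => ?_, fun a b hab => ⟨?_, ?_⟩⟩
  · refine (hk a (i - 1) (by omega)).1.trans ((cells_mono ?_).trans (hk a i hi).2.1)
    intro u v h
    simp only [ring] at h
    omega
  · refine (hk a (i + 1) (by omega)).1.trans ((cells_mono ?_).trans (hk a i hi.le).2.2.1)
    intro u v h
    simp only [Q, hi, if_true, ring] at h ⊢
    omega
  · obtain ⟨hs1, hs2⟩ := hs a
    have him : i < m := by omega
    refine Disjoint.mono (hk a i (by omega)).2.2.2.1 (hk a (i + 2) hi).1 ?_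
    rw [Set.disjoint_union_left]
    constructor
    · refine cells_disjoint h2 ?_ ?_ ?_ <;> intro u v h <;>
        simp only [Q, him, if_true, ring] at h ⊢ <;> omega
    · refine cells_disjoint h2 ?_ ?_ ?_ <;> intro u v h <;>
        simp only [ring] at h ⊢ <;> omega
  · obtain ⟨hs1, hs2⟩ := hs b
    have := hss a b hab
    refine (hk b m le_rfl).1.trans ((cells_mono ?_).trans (hk a m le_rfl).2.2.1)
    intro u v h
    simp only [Q, lt_irrefl, if_false, ring] at h ⊢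
    omega
  · obtain ⟨hs1, hs2⟩ := hs b
    have := hss a b hab
    refine (hk b (m - 1) (by omega)).1.trans ((cells_mono ?_).trans (hk a m le_rfl).2.2.1)
    intro u v h
    simp only [Q, lt_irrefl, if_false, ring] at h ⊢
    omega

/-- The union of consecutive members of a chain of adjacent connected sets is connected. -/
theorem connSet_chain {W : Type} {H : SimpleGraph W} (D : ℕ → Set W) (hD : ∀ j, ConnSet H (D j))
    (hadj : ∀ j, SAdj H (D j) (D (j + 1))) {i l : ℕ} (hil : i < l) :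
    ConnSet H {w | ∃ j, i ≤ j ∧ j < l ∧ w ∈ D j} := by
  induction l, hil using Nat.le_induction with
  | base =>
    have : {w | ∃ j, i ≤ j ∧ j < i + 1 ∧ w ∈ D j} = D i := by
      ext w
      constructor
      · rintro ⟨j, h1, h2, h3⟩
        obtain rfl : j = i := by omega
        exact h3
      · intro h
        exact ⟨i, le_rfl, by omega, h⟩
    rw [this]
    exact hD i
  | succ l hl ih =>
    have : {w | ∃ j, i ≤ j ∧ j < l + 1 ∧ w ∈ D j} =
        {w | ∃ j, i ≤ j ∧ j < l ∧ w ∈ D j} ∪ D l := by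
      ext w
      constructor
      · rintro ⟨j, h1, h2, h3⟩
        by_cases hj : j = l
        · exact Or.inr (hj ▸ h3)
        · exact Or.inl ⟨j, h1, by omega, h3⟩
      · rintro (⟨j, h1, h2, h3⟩ | h)
        · exact ⟨j, h1, by omega, h3⟩
        · exact ⟨l, by omega, by omega, h⟩
    rw [this]
    refine ih.union_of_sAdj (hD l) ?_
    obtain ⟨l, rfl⟩ : ∃ l', l = l' + 1 := ⟨l - 1, by omega⟩
    exact (hadj l).mono (fun w hw => ⟨l, by omega, by omega, hw⟩) le_rfl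

/-- A cyclic chain of connected sets separates alternating sets in a planar graph. -/
theorem not_rIn_of_chain {W : Type} {H : SimpleGraph W} (hH : Planar H) (D : ℕ → Set W) (n : ℕ)
    (hD : ∀ j, ConnSet H (D j)) (hadj : ∀ j, SAdj H (D j) (D (j + 1)))
    (hper : ∀ j, D (j + n) = D j)
    (hdisj : ∀ j j', j < j' → j' < j + n → Disjoint (D j) (D j'))
    {A B : Set W} (hA : ConnSet H A) (hB : ConnSet H B) (hAB : Disjoint A B)
    (hAD : ∀ j, Disjoint A (D j)) (hBD : ∀ j, Disjoint B (D j))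
    {i₁ i₂ i₃ i₄ : ℕ} (h12 : i₁ < i₂) (h23 : i₂ < i₃) (h34 : i₃ < i₄) (h41 : i₄ < i₁ + n)
    (k1 : SAdj H A (D i₁)) (k2 : SAdj H B (D i₂)) (k3 : SAdj H A (D i₃)) (k4 : SAdj H B (D i₄))
    {a b : W} (ha : a ∈ A) (hb : b ∈ B) : ¬ RIn H (⋃ j, D j)ᶜ a b := by
  intro hr
  obtain ⟨a', b', hr', hab', -, hb'⟩ := hr.exists_exit (A := Bᶜ) (Set.disjoint_left.1 hAB ha)
    (by simpa using hb)
  have hb'B : b' ∈ B := by simpa using hb'
  set S := (⋃ j, D j)ᶜ ∩ Bᶜ with hS
  have hAS : A ⊆ S := fun v hv =>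
    ⟨fun h => by
      obtain ⟨j, hj⟩ := Set.mem_iUnion.1 h
      exact Set.disjoint_left.1 (hAD j) hv hj, Set.disjoint_left.1 hAB hv⟩
  have hAA : A ⊆ comp H S a := hA.subset_comp hAS ha (mem_comp_self (hAS ha))
  let X : ℕ → ℕ → Set W := fun i l => {w | ∃ j, i ≤ j ∧ j < l ∧ w ∈ D j}
  have hX : ∀ i l, i < l → ConnSet H (X i l) := fun i l h => connSet_chain D hD hadj h
  have hDX : ∀ i l j, i ≤ j → j < l → D j ⊆ X i l := fun i l j h1 h2 w hw => ⟨j, h1, h2, hw⟩
  have hXX : ∀ i l i' l', l ≤ i' → l' ≤ i + n → Disjoint (X i l) (X i' l') := by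
    intro i l i' l' h1 h2
    rw [Set.disjoint_left]
    rintro w ⟨j, e1, e2, e3⟩ ⟨j', f1, f2, f3⟩
    exact Set.disjoint_left.1 (hdisj j j' (by omega) (by omega)) e3 f3
  have hcX : ∀ i l, Disjoint (comp H S a) (X i l) := by
    intro i l
    rw [Set.disjoint_left]
    rintro w hw ⟨j, -, -, e3⟩
    exact (comp_subset hw).1 (Set.mem_iUnion.2 ⟨j, e3⟩)
  have hBX : ∀ i l, Disjoint B (X i l) := by
    intro i l
    rw [Set.disjoint_left]
    rintro w hw ⟨j, -, -, e3⟩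
    exact Set.disjoint_left.1 (hBD j) hw e3
  have hXadj : ∀ i l l', i < l → l < l' → SAdj H (X i l) (X l l') := by
    intro i l l' h1 h2
    obtain ⟨l, rfl⟩ : ∃ l', l = l' + 1 := ⟨l - 1, by omega⟩
    exact (hadj l).mono (hDX _ _ _ (by omega) (by omega)) (hDX _ _ _ (by omega) (by omega))
  have hwrap : SAdj H (X i₄ (i₁ + n)) (X i₁ i₂) := by
    obtain ⟨l, hl⟩ : ∃ l, i₁ + n = l + 1 := ⟨i₁ + n - 1, by omega⟩
    have := hadj l
    rw [← hl, hper] at this
    exact this.mono (hDX _ _ _ (by omega) (by omega)) (hDX _ _ _ (by omega) (by omega))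
  refine not_planar_of_K33 ![comp H S a, X i₂ i₃, X i₄ (i₁ + n)] ![B, X i₁ i₂, X i₃ i₄]
    ?_ ?_ ?_ ?_ ?_ ?_ hH
  · intro x
    fin_cases x
    exacts [connSet_comp (hAS ha), hX _ _ h23, hX _ _ h41]
  · intro x
    fin_cases x
    exacts [hB, hX _ _ h12, hX _ _ h34]
  · intro x y hxy
    fin_cases x <;> fin_cases y <;> simp at hxy
    exacts [hcX _ _, hcX _ _, hXX _ _ _ _ (by omega) (by omega)]
  · intro x y hxy
    fin_cases x <;> fin_cases y <;> simp at hxy
    exacts [hBX _ _, hBX _ _, hXX _ _ _ _ (by omega) (by omega)]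
  · intro x y
    fin_cases x <;> fin_cases y
    exacts [Set.disjoint_left.2 fun v hv => (comp_subset hv).2, hcX _ _, hcX _ _,
      (hBX _ _).symm, (hXX _ _ _ _ (by omega) (by omega)).symm,
      hXX _ _ _ _ (by omega) (by omega), (hBX _ _).symm,
      (hXX _ _ _ _ (by omega) (by omega)).symm, (hXX _ _ _ _ (by omega) (by omega)).symm]
  · intro x y
    fin_cases x <;> fin_cases y
    exacts [⟨a', hr', b', hb'B, hab'⟩, k1.mono hAA (hDX _ _ _ le_rfl h12),
      k3.mono hAA (hDX _ _ _ le_rfl h34), (k2.mono le_rfl (hDX _ _ _ le_rfl h23)).symm,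
      (hXadj _ _ _ h12 h23).symm, hXadj _ _ _ h23 h34,
      (k4.mono le_rfl (hDX _ _ _ le_rfl h41)).symm, hwrap, (hXadj _ _ _ h34 h41).symm]

/-- In a planar graph alternating sets lie in different components off the cycle. -/
theorem Alt.not_rIn {G H : SimpleGraph V} {C : Cyc G} {A B : Set V} (h : Alt G C A B)
    (hGH : G ≤ H) (hH : Planar H) {a b : V} (ha : a ∈ A) (hb : b ∈ B) :
    ¬ RIn H C.vertsᶜ a b := by
  obtain ⟨hA, hB, hAB, hAC, hBC, i₁, i₂, i₃, i₄, h12, h23, h34, h41, k1, k2, k3, k4⟩ := h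
  have hU : (⋃ j, ({C.c j} : Set V)) = C.verts := by
    ext v
    simp [Cyc.verts, eq_comm]
  rw [← hU]
  refine not_rIn_of_chain hH (fun j => {C.c j}) C.n (fun j => connSet_singleton _ _)
    (fun j => ⟨_, rfl, _, rfl, hGH (C.adj j)⟩) (fun j => by rw [C.per]) ?_
    (hA.mono_graph hGH) (hB.mono_graph hGH) hAB
    (fun j => hAC.mono_right (Set.singleton_subset_iff.2 (C.c_mem_verts j)))
    (fun j => hBC.mono_right (Set.singleton_subset_iff.2 (C.c_mem_verts j)))
    h12 h23 h34 h41 (k1.mono_graph hGH) (k2.mono_graph hGH) (k3.mono_graph hGH)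
    (k4.mono_graph hGH) ha hb
  intro j j' h1 h2
  rw [Set.disjoint_singleton]
  intro e
  have := C.inj' e (by omega) (by omega)
  omega

end Pool.Agent.Lib.MP_9550e9_co
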