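import Pool.Agent.Lib.MP_9550e9_co.Imm
import Pool.Agent.Lib.MP_9550e9_co.Rings

/-! Tight routings, images of vertex sets, and the rerouting inside a cycle. -/

namespace Pool.Agent.Lib.MP_9550e9_co

open SimpleGraph Pool.Agent.Lib.Common.Pl

variable {V W : Type}

theorem rIn_ends {H : SimpleGraph W} {S : Set W} {a b : W} (hab : a ≠ b)
    (h : RIn H (S ∪ {a, b}) a b) :
    H.Adj a b ∨ ∃ x y, H.Adj a x ∧ RIn H S x y ∧ H.Adj y b := by
  obtain ⟨x, a', h1, h2, -, h4⟩ := h.symm.exists_exit (A := {a}ᶜ) (by simpa using hab.symm)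
    (by simp)
  obtain rfl : a' = a := by simpa using h4
  by_cases hxb : x = b
  · exact Or.inl (hxb ▸ h2.symm)
  · obtain ⟨y, b', k1, k2, -, k4⟩ := h1.symm.exists_exit (A := {b}ᶜ) (by simpa using hxb)
      (by simp)
    obtain rfl : b' = b := by simpa using k4
    refine Or.inr ⟨x, y, h2.symm, k1.mono ?_, k2⟩
    rintro z ⟨⟨hz | hz | hz, hz1⟩, hz2⟩
    · exact hz
    · exact absurd hz hz1
    · exact absurd hz hz2

/-- A routing is tight if each route together with either end is connected. -/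
def Imm.Tight {G : SimpleGraph V} {H : SimpleGraph W} (m : Imm G Set.univ H) : Prop :=
  ∀ u v, G.Adj u v → ConnSet H (m.I s(u, v) ∪ {m.φ u})

theorem Imm.phi_inj {G : SimpleGraph V} {H : SimpleGraph W} (m : Imm G Set.univ H) :
    Function.Injective m.φ := fun _ _ h => m.inj trivial trivial h

theorem Imm.phi_notMem {G : SimpleGraph V} {H : SimpleGraph W} (m : Imm G Set.univ H) {u v : V}
    (h : G.Adj u v) (x : V) : m.φ x ∉ m.I s(u, v) := m.avoid _ h x trivial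

theorem Imm.exists_tight {G : SimpleGraph V} {H : SimpleGraph W} (m : Imm G Set.univ H) :
    ∃ m' : Imm G Set.univ H, m'.X ⊆ m.X ∧ m'.Tight := by
  let I' : Sym2 V → Set W := fun e =>
    {w | w ∈ m.I e ∧ ∀ u ∈ e, ∃ w', RIn H (m.I e) w w' ∧ H.Adj w' (m.φ u)}
  have hsub : ∀ e, I' e ⊆ m.I e := fun e w hw => hw.1
  have hclos : ∀ e, ∀ w ∈ I' e, ∀ w', RIn H (m.I e) w w' → RIn H (I' e) w w' := by
    intro e w hw w' hr
    refine (rIn_comp hr).mono fun x hx => ⟨comp_subset hx, fun u hu => ?_⟩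
    obtain ⟨y, hy, hy'⟩ := hw.2 u hu
    exact ⟨y, (RIn.symm hx).trans hy, hy'⟩
  refine ⟨⟨m.φ, I', m.inj, ?_, fun e he x hx h => m.avoid e he x hx (hsub e h),
    fun e he f hf g hg w h1 h2 h3 => m.notriple e he f hf g hg w (hsub _ h1) (hsub _ h2)
      (hsub _ h3)⟩, ?_, ?_⟩
  · intro u v huv
    rcases rIn_ends (fun e => huv.ne (m.phi_inj e)) (m.join u v huv) with h | ⟨x, y, h1, h2, h3⟩
    · exact RIn.of_adj h (by simp) (by simp)
    · have hx : x ∈ I' s(u, v) := by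
        refine ⟨h2.left_mem, fun z hz => ?_⟩
        rcases Sym2.mem_iff.1 hz with rfl | rfl
        · exact ⟨x, RIn.refl h2.left_mem, h1.symm⟩
        · exact ⟨y, h2, h3⟩
      exact RIn.head h1 (by simp)
        (((hclos _ x hx y h2).mono Set.subset_union_left).tail h3 (by simp))
  · rintro w ⟨e, he, f, hf, hef, h1, h2⟩
    exact ⟨e, he, f, hf, hef, hsub _ h1, hsub _ h2⟩
  · intro u v _
    refine ConnSet.of_root (u := m.φ u) (Or.inr rfl) ?_
    rintro w (hw | hw)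
    · obtain ⟨w', h1, h2⟩ := hw.2 u (Sym2.mem_mk_left u v)
      exact (((hclos _ w hw w' h1).mono Set.subset_union_left).tail h2
        (Or.inr (Set.mem_singleton _))).symm
    · obtain rfl : w = m.φ u := hw
      exact RIn.refl (Or.inr rfl)

theorem Imm.sAdj_end {G : SimpleGraph V} {H : SimpleGraph W} (m : Imm G Set.univ H) {u v : V}
    (h : G.Adj u v) : SAdj H (m.I s(u, v) ∪ {m.φ u}) {m.φ v} := by
  obtain ⟨x, b, h1, h2, -, h4⟩ := (m.join u v h).exists_exit (A := {m.φ v}ᶜ)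
    (fun e => h.ne (m.phi_inj e)) (by simp)
  refine ⟨x, ?_, b, by simpa using h4, h2⟩
  obtain ⟨hz | hz | hz, hz1⟩ := h1.right_mem
  · exact Or.inl hz
  · exact Or.inr hz
  · exact absurd hz hz1

/-- The points of `S` together with the routes of all edges at `S`. -/
def Imm.img {G : SimpleGraph V} {H : SimpleGraph W} (m : Imm G Set.univ H) (S : Set V) : Set W :=
  {w | ∃ x ∈ S, w = m.φ x ∨ ∃ y, G.Adj x y ∧ w ∈ m.I s(x, y)}

theorem Imm.phi_mem_img {G : SimpleGraph V} {H : SimpleGraph W} (m : Imm G Set.univ H)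
    {S : Set V} {x : V} (hx : x ∈ S) : m.φ x ∈ m.img S := ⟨x, hx, Or.inl rfl⟩

theorem Imm.phi_mem_img_iff {G : SimpleGraph V} {H : SimpleGraph W} (m : Imm G Set.univ H)
    {S : Set V} {x : V} : m.φ x ∈ m.img S ↔ x ∈ S := by
  refine ⟨?_, m.phi_mem_img⟩
  rintro ⟨y, hy, h | ⟨z, hz, h⟩⟩
  · exact m.phi_inj h ▸ hy
  · exact absurd h (m.phi_notMem hz x)

theorem Imm.route_subset_img {G : SimpleGraph V} {H : SimpleGraph W} (m : Imm G Set.univ H)
    {S : Set V} {x y : V} (hx : x ∈ S) (h : G.Adj x y) : m.I s(x, y) ∪ {m.φ x} ⊆ m.img S := by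
  rintro w (hw | hw)
  · exact ⟨x, hx, Or.inr ⟨y, h, hw⟩⟩
  · exact ⟨x, hx, Or.inl hw⟩

theorem Imm.connSet_img {G : SimpleGraph V} {H : SimpleGraph W} (m : Imm G Set.univ H)
    (ht : m.Tight) {S : Set V} (hS : ConnSet G S) : ConnSet H (m.img S) := by
  obtain ⟨x₀, hx₀⟩ := hS.1
  have key : ∀ x ∈ S, RIn H (m.img S) (m.φ x₀) (m.φ x) := by
    intro x hx
    refine (hS.rIn hx₀ hx).induction (P := fun x => RIn H (m.img S) (m.φ x₀) (m.φ x))
      (RIn.refl (m.phi_mem_img hx₀)) fun a b ha hb hab ih => ih.trans ((m.join a b hab).mono ?_)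
    rintro w (hw | hw | hw)
    · exact m.route_subset_img ha hab (Or.inl hw)
    · exact hw ▸ m.phi_mem_img ha
    · exact hw ▸ m.phi_mem_img hb
  refine ConnSet.of_root (m.phi_mem_img hx₀) ?_
  rintro w ⟨x, hx, rfl | ⟨y, hy, hw⟩⟩
  · exact key x hx
  · exact (key x hx).trans
      (((ht x y hy).rIn (Or.inr rfl) (Or.inl hw)).mono (m.route_subset_img hx hy))

theorem Imm.sAdj_img {G : SimpleGraph V} {H : SimpleGraph W} (m : Imm G Set.univ H)
    {S : Set V} {x y : V} (hx : x ∈ S) (h : G.Adj x y) : SAdj H (m.img S) {m.φ y} :=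
  (m.sAdj_end h).mono (m.route_subset_img hx h) le_rfl

theorem Imm.disjoint_of_not_crossed {G : SimpleGraph V} {H : SimpleGraph W}
    (m : Imm G Set.univ H) {e f : Sym2 V} (he : e ∈ G.edgeSet) (hf : f ∈ G.edgeSet) (hef : e ≠ f)
    (hc : e ∉ m.crossed) : Disjoint (m.I e) (m.I f) := by
  rw [Set.disjoint_left]
  exact fun w h1 h2 => hc ⟨he, f, hf, hef, w, h1, h2⟩

/-- The `j`-th vertex of a cycle together with the route of the next edge. -/
def Imm.D {G : SimpleGraph V} {H : SimpleGraph W} (m : Imm G Set.univ H) (C : Cyc G) (j : ℕ) :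
    Set W := m.I s(C.c j, C.c (j + 1)) ∪ {m.φ (C.c j)}

section cyc

variable {G : SimpleGraph V} {H : SimpleGraph W} (m : Imm G Set.univ H) (C : Cyc G)

theorem cyc_succ_eq {j j' : ℕ} (h : C.c j = C.c j') : C.c (j + 1) = C.c (j' + 1) := by
  rw [C.c_eq_iff] at h ⊢
  rw [Nat.add_mod, h, ← Nat.add_mod]

theorem cyc_edge_eq {j j' : ℕ} (h : s(C.c j, C.c (j + 1)) = s(C.c j', C.c (j' + 1))) :
    C.c j = C.c j' := by
  rcases Sym2.eq_iff.1 h with ⟨h1, -⟩ | ⟨h1, h2⟩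
  · exact h1
  · have h3 : C.c (j + 1 + 1) = C.c j := (cyc_succ_eq C h2).trans h1.symm
    have := C.three_le
    have := C.inj' h3 (by omega) (by omega)
    omega

theorem Imm.D_eq {j j' : ℕ} (h : C.c j = C.c j') : m.D C j = m.D C j' := by
  rw [Imm.D, Imm.D, cyc_succ_eq C h, h]

theorem Imm.phi_mem_D (j : ℕ) : m.φ (C.c j) ∈ m.D C j := Or.inr rfl

theorem Imm.phi_mem_D_iff {j : ℕ} {x : V} : m.φ x ∈ m.D C j ↔ x = C.c j := by
  constructor
  · rintro (h | h)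
    · exact absurd h (m.phi_notMem (C.adj j) x)
    · exact m.phi_inj h
  · rintro rfl
    exact m.phi_mem_D C j

theorem Imm.sAdj_D (j : ℕ) : SAdj H (m.D C j) {m.φ (C.c (j + 1))} := m.sAdj_end (C.adj j)

theorem Imm.disjoint_I_D (hC : ∀ j, s(C.c j, C.c (j + 1)) ∉ m.crossed) {u v : V} (h : G.Adj u v)
    {j : ℕ} (hne : s(C.c j, C.c (j + 1)) ≠ s(u, v)) : Disjoint (m.I s(u, v)) (m.D C j) := by
  rw [Imm.D, Set.disjoint_union_right]
  exact ⟨(m.disjoint_of_not_crossed (C.adj j) h hne (hC j)).symm,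
    Set.disjoint_singleton_right.2 (m.phi_notMem h _)⟩

theorem Imm.disjoint_D (hC : ∀ j, s(C.c j, C.c (j + 1)) ∉ m.crossed) {j j' : ℕ}
    (h : C.c j ≠ C.c j') : Disjoint (m.D C j) (m.D C j') := by
  conv_lhs => rw [Imm.D]
  rw [Set.disjoint_union_left]
  refine ⟨m.disjoint_I_D C hC (C.adj j) fun e => h (cyc_edge_eq C e).symm, ?_⟩
  rw [Set.disjoint_singleton_left, m.phi_mem_D_iff]
  exact h

theorem cyc_edge_ne {u v : V} (hu : u ∉ C.verts) (j : ℕ) : s(C.c j, C.c (j + 1)) ≠ s(u, v) := by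
  intro e
  rcases Sym2.eq_iff.1 e with ⟨h1, -⟩ | ⟨-, h2⟩
  · exact hu (h1 ▸ C.c_mem_verts _)
  · exact hu (h2 ▸ C.c_mem_verts _)

theorem Imm.disjoint_img_D (hC : ∀ j, s(C.c j, C.c (j + 1)) ∉ m.crossed) {S : Set V}
    (hS : Disjoint S C.verts) (j : ℕ) : Disjoint (m.img S) (m.D C j) := by
  rw [Set.disjoint_left]
  rintro w ⟨x, hx, rfl | ⟨y, hy, hw⟩⟩ hD
  · exact Set.disjoint_left.1 hS hx ((m.phi_mem_D_iff C).1 hD ▸ C.c_mem_verts j)
  · exact Set.disjoint_left.1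
      (m.disjoint_I_D C hC hy (cyc_edge_ne C (Set.disjoint_left.1 hS hx) j)) hw hD

end cyc

/-- Edges at the inner part do not cross edges away from it. -/
theorem Imm.no_cross {G : SimpleGraph V} {H : SimpleGraph W} (hH : Planar H)
    (m : Imm G Set.univ H) (ht : m.Tight) (C : Cyc G) {K B K₂ : Set V} (hAlt : Alt G C K B)
    (hKB : ∀ x ∈ K, ∀ y ∈ B, ¬ G.Adj x y) (hC₂ : C.verts ⊆ K₂) (hB₂ : B ⊆ K₂)
    (hun : ∀ u v, G.Adj u v → u ∈ K₂ → u ∉ K → v ∉ K → s(u, v) ∉ m.crossed)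
    (hout : ∀ u ∉ K₂, ∃ b ∈ B, RIn G C.vertsᶜ u b) {x y u v : V} (hxy : G.Adj x y) (hx : x ∈ K)
    (huv : G.Adj u v) (hu : u ∉ K) (hv : v ∉ K) : Disjoint (m.I s(x, y)) (m.I s(u, v)) := by
  obtain ⟨hK, hB, hKB', hKC, hBC, i₁, i₂, i₃, i₄, h12, h23, h34, h41, k1, k2, k3, k4⟩ := hAlt
  have hC : ∀ j, s(C.c j, C.c (j + 1)) ∉ m.crossed := fun j =>
    hun _ _ (C.adj j) (hC₂ (C.c_mem_verts _)) (Set.disjoint_right.1 hKC (C.c_mem_verts _))
      (Set.disjoint_right.1 hKC (C.c_mem_verts _))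
  have hne : ∀ {x y u v : V}, x ∈ K → u ∉ K → v ∉ K → s(u, v) ≠ s(x, y) := by
    intro x y u v hx hu hv e
    rcases Sym2.eq_iff.1 e with ⟨h1, -⟩ | ⟨-, h2⟩
    · exact hu (h1 ▸ hx)
    · exact hv (h2 ▸ hx)
  rw [Set.disjoint_left]
  intro w hw hw'
  have hu₂ : u ∉ K₂ := fun h => Set.disjoint_left.1
    (m.disjoint_of_not_crossed huv hxy (hne hx hu hv) (hun u v huv h hu hv)) hw' hw
  obtain ⟨b, hb, hr⟩ := hout u hu₂
  have hroute : ∀ a a', G.Adj a a' → a ∉ C.verts → m.I s(a, a') ∪ {m.φ a} ⊆ (⋃ j, m.D C j)ᶜ := by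
    intro a a' haa ha z hz hz'
    obtain ⟨j, hj⟩ := Set.mem_iUnion.1 hz'
    exact Set.disjoint_left.1 (m.disjoint_img_D C hC (S := {a})
      (Set.disjoint_singleton_left.2 ha) j) (m.route_subset_img (Set.mem_singleton _) haa hz) hj
  have hs : ∀ {S : Set V} {j : ℕ}, SAdj G S {C.c j} → SAdj H (m.img S) (m.D C j) := by
    rintro S j ⟨a, ha, c, hc, hac⟩
    obtain rfl : c = C.c j := hc
    exact (m.sAdj_img ha hac).mono le_rfl (Set.singleton_subset_iff.2 (m.phi_mem_D C j))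
  refine not_rIn_of_chain hH (m.D C) C.n (fun j => ht _ _ (C.adj j))
    (fun j => (m.sAdj_D C j).mono le_rfl (Set.singleton_subset_iff.2 (m.phi_mem_D C _)))
    (fun j => m.D_eq C (C.per j)) ?_ (m.connSet_img ht hK) (m.connSet_img ht hB) ?_
    (m.disjoint_img_D C hC hKC) (m.disjoint_img_D C hC hBC) h12 h23 h34 h41 (hs k1) (hs k2)
    (hs k3) (hs k4) (m.route_subset_img hx hxy (Or.inl hw)) (m.phi_mem_img hb) ?_
  · intro j j' h1 h2
    refine m.disjoint_D C hC fun e => ?_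
    have := C.inj' e (by omega) (by omega)
    omega
  · rw [Set.disjoint_left]
    rintro z hz ⟨b', hb', rfl | ⟨c, hc, hz'⟩⟩
    · exact Set.disjoint_left.1 hKB' (m.phi_mem_img_iff.1 hz) hb'
    · obtain ⟨a, ha, rfl | ⟨a', haa, hz⟩⟩ := hz
      · exact m.phi_notMem hc a hz'
      · have h1 : b' ∉ K := Set.disjoint_right.1 hKB' hb'
        have h2 : c ∉ K := fun h => hKB c h b' hb' hc.symm
        exact Set.disjoint_left.1
          (m.disjoint_of_not_crossed hc haa (hne ha h1 h2) (hun b' c hc (hB₂ hb') h1 h2)) hz' hz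
  · have huC : u ∉ C.verts := fun h => hu₂ (hC₂ h)
    have h1 : RIn H (⋃ j, m.D C j)ᶜ w (m.φ u) :=
      ((ht u v huv).rIn (Or.inl hw') (Or.inr rfl)).mono (hroute u v huv huC)
    refine hr.induction (P := fun z => RIn H (⋃ j, m.D C j)ᶜ w (m.φ z)) h1 ?_
    intro a a' ha ha' haa ih
    refine ih.trans ((m.join a a' haa).mono ?_)
    rintro z (hz | hz | hz)
    · exact hroute a a' haa ha (Or.inl hz)
    · exact hroute a a' haa ha (Or.inr hz)
    · exact hroute a' a haa.symm ha' (Or.inr hz)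

end Pool.Agent.Lib.MP_9550e9_co
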