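import Pool.Agent.Lib.MP_9550e9_co.IrrelevantA

/-! Redrawing the inside of an uncrossed cycle. -/

namespace Pool.Agent.Lib.MP_9550e9_co

open SimpleGraph Pool.Agent.Lib.Common.Pl

variable {V W : Type}

/-- The part of `H` used by the routes of the edges of `G'` that are not edges of `J`. -/
def outerGraph {G' : SimpleGraph V} {H : SimpleGraph W} (m : Imm G' Set.univ H)
    (J : SimpleGraph V) : SimpleGraph W where
  Adj p q := H.Adj p q ∧ ∃ u v, G'.Adj u v ∧ ¬ J.Adj u v ∧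
    p ∈ m.I s(u, v) ∪ {m.φ u, m.φ v} ∧ q ∈ m.I s(u, v) ∪ {m.φ u, m.φ v}
  symm := ⟨fun _ _ ⟨h, u, v, h1, h2, h3, h4⟩ => ⟨h.symm, u, v, h1, h2, h4, h3⟩⟩
  loopless := ⟨fun _ h => h.1.ne rfl⟩

theorem redraw [Finite W] {G G' G₀ : SimpleGraph V} {H : SimpleGraph W} (hle : G' ≤ G)
    (hpl : Planar G₀) (hH : Planar H) (m : Imm G' Set.univ H) (ht : m.Tight) (C : Cyc G')
    {K : Set V} (hK : ConnSet G' K) (hKC : Disjoint K C.verts) (hC₀ : C.graph ≤ G₀)
    (hGG : ∀ x y, G.Adj x y → x ∉ K → G'.Adj x y)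
    (hinc : ∀ x y, G.Adj x y → x ∈ K → G₀.Adj x y ∧ (y ∈ K ∨ y ∈ C.verts))
    (hC : ∀ j, s(C.c j, C.c (j + 1)) ∉ m.crossed)
    (hX : ∀ x y u v, G'.Adj x y → x ∈ K → G'.Adj u v → u ∉ K → v ∉ K →
      Disjoint (m.I s(x, y)) (m.I s(u, v))) :
    ∃ (H' : SimpleGraph W) (m' : Imm G Set.univ H'), Planar H' ∧ m'.X ⊆ m.X := by
  set J : SimpleGraph V := inc G K ⊔ C.graph with hJ
  have hJ₀ : J ≤ G₀ := by
    rintro a b (⟨hab, ha | hb⟩ | h)
    · exact (hinc a b hab ha).1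
    · exact (hinc b a hab.symm hb).1.symm
    · exact hC₀ h
  have hout : ∀ u v, G.Adj u v → ¬ J.Adj u v → u ∉ K ∧ v ∉ K :=
    fun u v h hJ => ⟨fun hu => hJ (Or.inl ⟨h, Or.inl hu⟩), fun hv => hJ (Or.inl ⟨h, Or.inr hv⟩)⟩
  have hedge : ∀ e ∈ G.edgeSet, e ∉ J.edgeSet → e ∈ G'.edgeSet := by
    intro e he hJ
    induction e using Sym2.ind with
    | _ u v => exact hGG u v he (hout u v he hJ).1
  set H' : SimpleGraph W := outerGraph m J ⊔ J.map m.φ with hH'
  have hmap : ∀ u v, J.Adj u v → H'.Adj (m.φ u) (m.φ v) := fun u v h =>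
    Or.inr (map_adj_apply' h fun e => h.ne (m.phi_inj e))
  refine ⟨H', ⟨m.φ, fun e => {w | w ∈ m.I e ∧ e ∉ J.edgeSet}, m.inj, ?_,
    fun e he x hx h => m.avoid e (hedge e he h.2) x hx h.1,
    fun e he f hf g hg w h1 h2 h3 => m.notriple e (hedge e he h1.2) f (hedge f hf h2.2) g
      (hedge g hg h3.2) w h1.1 h2.1 h3.1⟩, ?_, ?_⟩
  · intro u v huv
    by_cases hJuv : J.Adj u v
    · exact RIn.of_adj (hmap u v hJuv) (by simp) (by simp)
    · have h' : G'.Adj u v := hGG u v huv (hout u v huv hJuv).1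
      refine (m.join u v h').mono' ?_ fun a b ha hb hab => Or.inl ⟨hab, u, v, h', hJuv, ha, hb⟩
      rintro w (hw | hw)
      · exact Or.inl ⟨hw, hJuv⟩
      · exact Or.inr hw
  swap
  · rintro w ⟨e, he, f, hf, hef, h1, h2⟩
    exact ⟨e, hedge e he h1.2, f, hedge f hf h2.2, hef, h1.1, h2.1⟩
  obtain ⟨k₀, hk₀⟩ := hK.1
  have hmemK : ∀ x, m.φ x ∈ m.φ '' K ↔ x ∈ K := fun x => m.phi_inj.mem_set_image
  -- ends of outer edges of the host are off the image of `K`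
  have houtK : ∀ p q, (outerGraph m J).Adj p q → p ∉ m.φ '' K := by
    rintro p q ⟨-, u, v, h1, h2, h3, -⟩ ⟨x, hx, rfl⟩
    obtain ⟨hu, hv⟩ := hout u v (hle h1) h2
    rcases h3 with h | h | h
    · exact m.phi_notMem h1 x h
    · exact hu (m.phi_inj h ▸ hx)
    · exact hv (m.phi_inj h ▸ hx)
  let C' : Cyc H' :=
    { n := C.n
      c := fun j => m.φ (C.c j)
      three_le := C.three_le
      adj := fun j => hmap _ _ (Or.inr (C.graph_adj_succ j))
      per := fun j => by rw [C.per]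
      inj := fun i j hi hj h => C.inj i j hi hj (m.phi_inj h) }
  refine planar_of_rep (K := m.φ '' K) (k₀ := m.φ k₀) ⟨k₀, hk₀, rfl⟩ ?_ C' ?_ ?_ ?_ ?_
  · refine ⟨⟨_, k₀, hk₀, rfl⟩, ?_⟩
    rintro _ ⟨a, ha, rfl⟩ _ ⟨b, hb, rfl⟩
    exact (hK.rIn ha hb).map m.φ fun x y hx _ hxy =>
      Or.inr (hmap x y (Or.inl ⟨hle hxy, Or.inl hx⟩))
  · rw [Set.disjoint_left]
    rintro _ ⟨j, rfl⟩ h
    exact Set.disjoint_left.1 hKC ((hmemK _).1 h) (C.c_mem_verts j)
  · rintro p ⟨hp, q, hq, h | ⟨-, a, b, hab, rfl, rfl⟩⟩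
    · exact absurd hq (houtK q p h.symm)
    · rw [hmemK] at hp hq
      have haC : a ∈ C.verts := by
        rcases hab with ⟨hab, -⟩ | hab
        · exact (hinc b a hab.symm hq).2.resolve_left hp
        · exact C.support_graph ▸ hab.mem_support_left
      obtain ⟨j, rfl⟩ := haC
      exact ⟨j, rfl⟩
  · refine (hpl.map_of_injOn m.φ m.phi_inj.injOn).mono ?_
    rintro p q (⟨h | ⟨hne, a, b, hab, rfl, rfl⟩, hpq⟩ | ⟨j, h⟩)
    · rcases hpq with hp | hq
      · exact absurd hp (houtK p q h)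
      · exact absurd hq (houtK q p h.symm)
    · exact map_adj_apply' (hJ₀ hab) hne
    · have := map_adj_apply' (f := m.φ) (hC₀ (C.graph_adj_succ j))
        fun e => (C.adj j).ne (m.phi_inj e)
      rcases h with ⟨rfl, rfl⟩ | ⟨rfl, rfl⟩
      exacts [this, this.symm]
  -- the contracted host is a minor of `H`
  let Br : W → Set W := fun p =>
    {w | w = p ∨ (p = m.φ k₀ ∧ w ∈ m.img K) ∨ ∃ j, p = m.φ (C.c j) ∧ w ∈ m.D C j}
  have hself : ∀ p, p ∈ Br p := fun p => Or.inl rfl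
  have hT1 : Br (m.φ k₀) = m.img K := by
    ext w
    constructor
    · rintro (rfl | ⟨-, h⟩ | ⟨j, h, -⟩)
      · exact m.phi_mem_img hk₀
      · exact h
      · exact absurd (m.phi_inj h ▸ C.c_mem_verts j) (Set.disjoint_left.1 hKC hk₀)
    · exact fun h => Or.inr (Or.inl ⟨rfl, h⟩)
  have hT2 : ∀ j, Br (m.φ (C.c j)) = m.D C j := by
    intro j
    ext w
    constructor
    · rintro (rfl | ⟨h, -⟩ | ⟨j', h, h'⟩)
      · exact m.phi_mem_D C j
      · exact absurd (m.phi_inj h ▸ C.c_mem_verts j) (Set.disjoint_left.1 hKC hk₀)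
      · rwa [m.D_eq C (m.phi_inj h)]
    · exact fun h => Or.inr (Or.inr ⟨j, rfl, h⟩)
  have hT3 : ∀ p, p ∉ m.img K → (∀ j, p ∉ m.D C j) → Br p = {p} := by
    intro p h1 h2
    ext w
    constructor
    · rintro (rfl | ⟨rfl, -⟩ | ⟨j', rfl, -⟩)
      · rfl
      · exact absurd (m.phi_mem_img hk₀) h1
      · exact absurd (m.phi_mem_D C j') (h2 j')
    · exact fun h => Or.inl h
  have hphi : ∀ u ∉ K, (∃ j, m.φ u = m.φ (C.c j)) ∨
      (m.φ u ∉ m.img K ∧ ∀ j, m.φ u ∉ m.D C j) := by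
    intro u hu
    by_cases huC : u ∈ C.verts
    · obtain ⟨j, rfl⟩ := huC
      exact Or.inl ⟨j, rfl⟩
    · exact Or.inr ⟨fun h => hu (m.phi_mem_img_iff.1 h),
        fun j h => huC ((m.phi_mem_D_iff C).1 h ▸ C.c_mem_verts j)⟩
  have hclass : ∀ p ∈ (H'.map (contr (m.φ '' K) (m.φ k₀))).support,
      p = m.φ k₀ ∨ (∃ j, p = m.φ (C.c j)) ∨ (p ∉ m.img K ∧ ∀ j, p ∉ m.D C j) := by
    rintro _ ⟨_, -, p, q, hpq, rfl, rfl⟩
    by_cases hp : p ∈ m.φ '' K
    · exact Or.inl (contr_of_mem hp)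
    · rw [contr_of_notMem hp]
      right
      rcases hpq with ⟨-, u, v, h1, h2, h3, -⟩ | ⟨-, a, b, -, rfl, rfl⟩
      · obtain ⟨hu, hv⟩ := hout u v (hle h1) h2
        rcases h3 with h | rfl | rfl
        · refine Or.inr ⟨?_, fun j => Set.disjoint_left.1 (m.disjoint_I_D C hC h1 fun e => h2 ?_) h⟩
          · rintro ⟨x, hx, rfl | ⟨y, hy, hw⟩⟩
            · exact m.phi_notMem h1 x h
            · exact Set.disjoint_left.1 (hX x y u v hy hx h1 hu hv) hw h
          · have : s(u, v) ∈ J.edgeSet := e ▸ (Or.inr (C.graph_adj_succ j) : J.Adj _ _)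
            exact this
        · exact hphi u hu
        · exact hphi v hv
      · exact hphi a fun h => hp ⟨a, h, rfl⟩
  refine hH.of_minorOn ⟨Br, ?_, ?_, ?_⟩
  · intro p hp
    rcases hclass p hp with rfl | ⟨j, rfl⟩ | ⟨h1, h2⟩
    · rw [hT1]; exact m.connSet_img ht hK
    · rw [hT2]; exact ht _ _ (C.adj j)
    · rw [hT3 p h1 h2]; exact connSet_singleton _ _
  · intro p hp q hq hpq
    rcases hclass p hp with rfl | ⟨j, rfl⟩ | ⟨h1, h2⟩ <;>
      rcases hclass q hq with rfl | ⟨j', rfl⟩ | ⟨k1, k2⟩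
    · exact absurd rfl hpq
    · rw [hT1, hT2]; exact m.disjoint_img_D C hC hKC j'
    · rw [hT1, hT3 q k1 k2]; exact Set.disjoint_singleton_right.2 k1
    · rw [hT1, hT2]; exact (m.disjoint_img_D C hC hKC j).symm
    · rw [hT2, hT2]; exact m.disjoint_D C hC fun e => hpq (congrArg _ e)
    · rw [hT2, hT3 q k1 k2]; exact Set.disjoint_singleton_right.2 (k2 j)
    · rw [hT1, hT3 p h1 h2]; exact Set.disjoint_singleton_left.2 h1
    · rw [hT2, hT3 p h1 h2]; exact Set.disjoint_singleton_left.2 (h2 j')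
    · rw [hT3 p h1 h2, hT3 q k1 k2]; exact Set.disjoint_singleton.2 hpq
  · have hJadj : ∀ a b, J.Adj a b → b ∉ K →
        SAdj H (Br (contr (m.φ '' K) (m.φ k₀) (m.φ a))) (Br (contr (m.φ '' K) (m.φ k₀) (m.φ b))) := by
      intro a b hab hb
      rw [contr_of_notMem (mt (hmemK b).1 hb)]
      by_cases ha : a ∈ K
      · rw [contr_of_mem ((hmemK a).2 ha), hT1]
        have h1 : G'.Adj a b := by
          rcases hab with ⟨hab, -⟩ | hab
          · exact (hGG b a hab.symm hb).symm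
          · exact C.graph_le hab
        exact (m.sAdj_img ha h1).mono le_rfl (Set.singleton_subset_iff.2 (hself _))
      · rw [contr_of_notMem (mt (hmemK a).1 ha)]
        rcases hab with ⟨-, h | h⟩ | ⟨j, ⟨rfl, rfl⟩ | ⟨rfl, rfl⟩⟩
        · exact absurd h ha
        · exact absurd h hb
        · rw [hT2 j]
          exact (m.sAdj_D C j).mono le_rfl (Set.singleton_subset_iff.2 (hself _))
        · rw [hT2 j]
          exact ((m.sAdj_D C j).mono le_rfl (Set.singleton_subset_iff.2 (hself _))).symm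
    rintro _ _ ⟨hne, p, q, h | ⟨-, a, b, hab, rfl, rfl⟩, rfl, rfl⟩
    · rw [contr_of_notMem (houtK p q h), contr_of_notMem (houtK q p h.symm)]
      exact ⟨p, hself p, q, hself q, h.1⟩
    · by_cases hb : b ∈ K
      · by_cases ha : a ∈ K
        · exact absurd (by rw [contr_of_mem ((hmemK a).2 ha), contr_of_mem ((hmemK b).2 hb)]) hne
        · exact (hJadj b a hab.symm ha).symm
      · exact hJadj a b hab hb

end Pool.Agent.Lib.MP_9550e9_co
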