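import Pool.Agent.Lib.MP_9550e9_co.Imm
import Pool.Agent.Lib.MP_9550e9_co.Folio

/-! Operations on routings: composition, pull-back, replacement of one side. -/

namespace Pool.Agent.Lib.MP_9550e9_co

open SimpleGraph Pool.Agent.Lib.Common.Pl

variable {V V' W : Type}

theorem Imm.exists_comp {G' : SimpleGraph V'} {S : Set V'} {G : SimpleGraph V}
    {H : SimpleGraph W} (hS : G'.support ⊆ S) (m₁ : Imm G' S G) (hX : m₁.X = ∅)
    (m₂ : Imm G Set.univ H) : ∃ m : Imm G' S H, m.X ⊆ m₂.X := by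
  let Z : Sym2 V' → Set V := fun e => m₁.I e ∪ {z | ∃ u ∈ e, m₁.φ u = z}
  let I : Sym2 V' → Set W := fun e =>
    m₂.φ '' m₁.I e ∪ {w | ∃ a b, G.Adj a b ∧ a ∈ Z e ∧ b ∈ Z e ∧ w ∈ m₂.I s(a, b)}
  have hinj : Function.Injective m₂.φ := Set.injOn_univ.1 m₂.inj
  have hmemS : ∀ e ∈ G'.edgeSet, ∀ u ∈ e, u ∈ S := by
    intro e he u hu
    induction e using Sym2.ind with
    | h a b =>
      rcases Sym2.mem_iff.1 hu with rfl | rfl
      exacts [hS he.mem_support_left, hS he.mem_support_right]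
  have hdis : ∀ e ∈ G'.edgeSet, ∀ f ∈ G'.edgeSet, ∀ z, z ∈ m₁.I e → z ∈ m₁.I f → e = f := by
    intro e he f hf z h1 h2
    by_contra hne
    have : z ∈ m₁.X := ⟨e, he, f, hf, hne, h1, h2⟩
    simp [hX] at this
  have hZ : ∀ e ∈ G'.edgeSet, ∀ f ∈ G'.edgeSet, e ≠ f → ∀ z, z ∈ Z e → z ∈ Z f →
      ∃ u, u ∈ e ∧ u ∈ f ∧ m₁.φ u = z := by
    rintro e he f hf hne z (h1 | ⟨u, hu, rfl⟩) (h2 | ⟨v, hv, h2⟩)
    · exact (hne (hdis e he f hf z h1 h2)).elim
    · exact (m₁.avoid e he v (hmemS f hf v hv) (h2 ▸ h1)).elim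
    · exact (m₁.avoid f hf u (hmemS e he u hu) h2).elim
    · obtain rfl := m₁.inj (hmemS f hf v hv) (hmemS e he u hu) h2
      exact ⟨v, hu, hv, rfl⟩
  have hedge : ∀ e ∈ G'.edgeSet, ∀ f ∈ G'.edgeSet, ∀ a b c d, G.Adj a b → a ∈ Z e → b ∈ Z e →
      c ∈ Z f → d ∈ Z f → s(a, b) = s(c, d) → e = f := by
    intro e he f hf a b c d hab ha hb hc hd hs
    by_contra hne
    have ha' : a ∈ Z f := by
      rcases Sym2.eq_iff.1 hs with ⟨rfl, rfl⟩ | ⟨rfl, rfl⟩ <;> assumption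
    have hb' : b ∈ Z f := by
      rcases Sym2.eq_iff.1 hs with ⟨rfl, rfl⟩ | ⟨rfl, rfl⟩ <;> assumption
    obtain ⟨u, hu, hu', rfl⟩ := hZ e he f hf hne a ha ha'
    obtain ⟨v, hv, hv', rfl⟩ := hZ e he f hf hne b hb hb'
    have huv : u ≠ v := fun h => hab.ne (by rw [h])
    exact hne (((Sym2.mem_and_mem_iff huv).1 ⟨hu, hv⟩).trans
      ((Sym2.mem_and_mem_iff huv).1 ⟨hu', hv'⟩).symm)
  have hpair : ∀ e ∈ G'.edgeSet, ∀ f ∈ G'.edgeSet, e ≠ f → ∀ w, w ∈ I e → w ∈ I f →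
      (∃ a b, G.Adj a b ∧ a ∈ Z e ∧ b ∈ Z e ∧ w ∈ m₂.I s(a, b)) := by
    rintro e he f hf hne w (⟨z, hz, rfl⟩ | h1) h2
    · rcases h2 with ⟨z', hz', h⟩ | ⟨a, b, hab, -, -, h⟩
      · obtain rfl := hinj h
        exact (hne (hdis e he f hf _ hz hz')).elim
      · exact (m₂.avoid _ hab z trivial h).elim
    · exact h1
  refine ⟨⟨m₂.φ ∘ m₁.φ, I, fun a ha b hb h => m₁.inj ha hb (hinj h), fun u v huv => ?_,
    fun e he x hx => ?_, fun e he f hf g hg w h1 h2 h3 => ?_⟩, ?_⟩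
  · have hsub : ∀ z ∈ m₁.I s(u, v) ∪ {m₁.φ u, m₁.φ v}, z ∈ Z s(u, v) ∧
        m₂.φ z ∈ I s(u, v) ∪ {(m₂.φ ∘ m₁.φ) u, (m₂.φ ∘ m₁.φ) v} := by
      rintro z (hz | rfl | rfl)
      · exact ⟨Or.inl hz, Or.inl (Or.inl ⟨z, hz, rfl⟩)⟩
      · exact ⟨Or.inr ⟨u, by simp, rfl⟩, Or.inr (Or.inl rfl)⟩
      · exact ⟨Or.inr ⟨v, by simp, rfl⟩, Or.inr (Or.inr rfl)⟩
    refine (m₁.join u v huv).induction (P := fun z => RIn H _ (m₂.φ (m₁.φ u)) (m₂.φ z))
      (RIn.refl (Or.inr (Or.inl rfl))) fun a b ha hb hab ih => ih.trans ?_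
    refine (m₂.join a b hab).mono ?_
    rintro w (hw | rfl | rfl)
    · exact Or.inl (Or.inr ⟨a, b, hab, (hsub a ha).1, (hsub b hb).1, hw⟩)
    · exact (hsub a ha).2
    · exact (hsub b hb).2
  · rintro (⟨z, hz, h⟩ | ⟨a, b, hab, -, -, h⟩)
    · exact m₁.avoid e he x hx (hinj h ▸ hz)
    · exact m₂.avoid _ hab _ trivial h
  · by_contra hcon
    push Not at hcon
    obtain ⟨n1, n2, n3⟩ := hcon
    obtain ⟨a, b, hab, ha, hb, k1⟩ := hpair e he f hf n1 w h1 h2
    obtain ⟨c, d, hcd, hc, hd, k2⟩ := hpair f hf g hg n3 w h2 h3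
    obtain ⟨a', b', hab', ha', hb', k3⟩ := hpair g hg e he n2.symm w h3 h1
    rcases m₂.notriple _ hab _ hcd _ hab' w k1 k2 k3 with h | h | h
    · exact n1 (hedge e he f hf a b c d hab ha hb hc hd h)
    · exact n2 (hedge e he g hg a b a' b' hab ha hb ha' hb' h)
    · exact n3 (hedge f hf g hg c d a' b' hcd hc hd ha' hb' h)
  · rintro w ⟨e, he, f, hf, hne, h1, h2⟩
    obtain ⟨a, b, hab, ha, hb, k1⟩ := hpair e he f hf hne w h1 h2
    obtain ⟨c, d, hcd, hc, hd, k2⟩ := hpair f hf e he hne.symm w h2 h1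
    exact ⟨_, hab, _, hcd, fun h => hne (hedge e he f hf a b c d hab ha hb hc hd h), k1, k2⟩

theorem sym2_map_injOn {A : SimpleGraph V} {S : Set V} (hS : A.support ⊆ S) {ρ : V → V'}
    (hρ : Set.InjOn ρ S) {e f : Sym2 V} (he : e ∈ A.edgeSet) (hf : f ∈ A.edgeSet)
    (h : e.map ρ = f.map ρ) : e = f := by
  induction e using Sym2.ind with
  | h a b =>
    induction f using Sym2.ind with
    | h c d =>
      have ha := hS he.mem_support_left
      have hb := hS he.mem_support_right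
      have hc := hS hf.mem_support_left
      have hd := hS hf.mem_support_right
      simp only [Sym2.map_mk, Sym2.eq_iff] at h ⊢
      rcases h with ⟨h1, h2⟩ | ⟨h1, h2⟩
      · exact Or.inl ⟨hρ ha hc h1, hρ hb hd h2⟩
      · exact Or.inr ⟨hρ ha hd h1, hρ hb hc h2⟩

theorem sym2_map_mem {A : SimpleGraph V} {G' : SimpleGraph V'} {ρ : V → V'}
    (hA : ∀ u v, A.Adj u v → G'.Adj (ρ u) (ρ v)) {e : Sym2 V} (he : e ∈ A.edgeSet) :
    e.map ρ ∈ G'.edgeSet := by
  induction e using Sym2.ind with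
  | h a b => exact hA a b he

/-- Pull-back of a routing along an embedding of graphs. -/
def Imm.pull {G' : SimpleGraph V'} {S' : Set V'} {H : SimpleGraph W} (m : Imm G' S' H)
    (A : SimpleGraph V) (S : Set V) (ρ : V → V') (hS : A.support ⊆ S) (hρ : Set.InjOn ρ S)
    (hm : Set.MapsTo ρ S S') (hA : ∀ u v, A.Adj u v → G'.Adj (ρ u) (ρ v)) : Imm A S H where
  φ := m.φ ∘ ρ
  I e := m.I (e.map ρ)
  inj _ ha _ hb h := hρ ha hb (m.inj (hm ha) (hm hb) h)
  join u v h := m.join _ _ (hA u v h)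
  avoid _ he _ hx := m.avoid _ (sym2_map_mem hA he) _ (hm hx)
  notriple e he f hf g hg w h1 h2 h3 := by
    rcases m.notriple _ (sym2_map_mem hA he) _ (sym2_map_mem hA hf) _ (sym2_map_mem hA hg) w
      h1 h2 h3 with h | h | h
    · exact Or.inl (sym2_map_injOn hS hρ he hf h)
    · exact Or.inr (Or.inl (sym2_map_injOn hS hρ he hg h))
    · exact Or.inr (Or.inr (sym2_map_injOn hS hρ hf hg h))

/-- The set of host vertices used by a routing. -/
def Imm.used {G : SimpleGraph V} {S : Set V} {H : SimpleGraph W} (m : Imm G S H) : Set W :=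
  m.φ '' S ∪ {w | ∃ e ∈ G.edgeSet, w ∈ m.I e}

/-- Restriction of the host graph to the used vertices. -/
def Imm.resHost {G : SimpleGraph V} {S : Set V} {H : SimpleGraph W} (m : Imm G S H)
    (hS : G.support ⊆ S) : Imm G S (res H m.used) where
  φ := m.φ
  I := m.I
  inj := m.inj
  join u v h := (m.join u v h).res (by
    rintro w (hw | rfl | rfl)
    · exact Or.inr ⟨_, h, hw⟩
    · exact Or.inl ⟨u, hS h.mem_support_left, rfl⟩
    · exact Or.inl ⟨v, hS h.mem_support_right, rfl⟩)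
  avoid := m.avoid
  notriple := m.notriple

/-- The folio invariant attached to a boundary index type. -/
def FolT (κ : Type) [Finite κ] : Type := (exists_folio κ).choose

instance (κ : Type) [Finite κ] : Finite (FolT κ) := (exists_folio κ).choose_spec.choose

/-- The folio of a boundaried graph. -/
noncomputable def fol (κ : Type) [Finite κ] (W : Type) (H : SimpleGraph W) (β : κ → W) : FolT κ :=
  (exists_folio κ).choose_spec.choose_spec.choose W H β

theorem planar_glue {κ : Type} [Finite κ] {W W' : Type} {H₁ H₂ : SimpleGraph W} {β : κ → W}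
    {H' : SimpleGraph W'} {β' : κ → W'} (hβ : Function.Injective β)
    (hβ' : Function.Injective β') (hsup : H₁.support ∩ H₂.support ⊆ Set.range β)
    (hpl : Planar (H₁ ⊔ H₂)) (h : fol κ W' H' β' = fol κ W H₁ β) : Planar (glue H' β' H₂ β) :=
  (exists_folio κ).choose_spec.choose_spec.choose_spec W W' H₁ H₂ β H' β' hβ hβ' hsup hpl h

/-- The folios that can be realised by routings of a boundaried graph with `a` crossing points
and `n` further marked points. -/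
def Real {ι : Type} [Finite ι] (A : SimpleGraph V) (S : Set V) (b : ι → V) (n a : ℕ) :
    Set (FolT (ι ⊕ Fin n)) :=
  {f | ∃ (W : Type) (_ : Finite W) (H : SimpleGraph W) (m : Imm A S H) (Y : Fin n → W),
    Function.Injective Y ∧ (∀ l, ∀ v ∈ S, m.φ v ≠ Y l) ∧ (∀ l, Y l ∉ m.X) ∧ m.X.ncard = a ∧
    fol _ W H (Sum.elim (m.φ ∘ b) Y) = f}

end Pool.Agent.Lib.MP_9550e9_co
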