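import Pool.Agent.Lib.MP_9550e9_co.ShortenA

/-! Replacing the left side of a separation by a side of the same type. -/

namespace Pool.Agent.Lib.MP_9550e9_co

open SimpleGraph Pool.Agent.Lib.Common.Pl

variable {V W : Type}

theorem crLT_of_replace {ι : Type} [Finite ι] [Finite W] {A A' R G : SimpleGraph V}
    {SA SA' SR : Set V} {bA b : ι → V} {k : ℕ} {H : SimpleGraph W}
    (hG : G = A' ⊔ R) (hAR : ∀ e ∈ A'.edgeSet, e ∉ R.edgeSet)
    (hSA : A.support ⊆ SA) (hSA' : A'.support ⊆ SA') (hSR : R.support ⊆ SR)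
    (hcov : ∀ v, v ∈ SA' ∨ v ∈ SR) (hint : SA' ∩ SR = Set.range b) (hb : Function.Injective b)
    (hbA : ∀ l, bA l ∈ SA)
    (hty : ∀ n < k, ∀ a < k, Real A SA bA n a ⊆ Real A' SA' b n a)
    (hH : Planar H) (mA : Imm A SA H) (mR : Imm R SR H)
    (c1 : ∀ l, mA.φ (bA l) = mR.φ (b l))
    (c2 : ∀ u ∈ SA, ∀ v ∈ SR, mA.φ u = mR.φ v → v ∈ Set.range b)
    (c3 : ∀ e ∈ A.edgeSet, ∀ v ∈ SR, mR.φ v ∉ mA.I e)
    (c3' : ∀ f ∈ R.edgeSet, ∀ u ∈ SA, mA.φ u ∉ mR.I f)
    (c4 : ∀ f ∈ R.edgeSet, ∀ w ∈ mA.X, w ∉ mR.I f)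
    (c4' : ∀ e ∈ A.edgeSet, ∀ w ∈ mR.X, w ∉ mA.I e)
    (c5 : mA.X.ncard + mR.X.ncard +
      {w | ∃ e ∈ A.edgeSet, ∃ f ∈ R.edgeSet, w ∈ mA.I e ∧ w ∈ mR.I f}.ncard < k) :
    CrLT G k := by
  classical
  set Yset := {w | ∃ e ∈ A.edgeSet, ∃ f ∈ R.edgeSet, w ∈ mA.I e ∧ w ∈ mR.I f} with hYset
  obtain ⟨Y, hYinj, hYr⟩ : ∃ Y : Fin Yset.ncard → W, Function.Injective Y ∧ Set.range Y = Yset := by
    have : Fintype Yset := Fintype.ofFinite _
    have e := (Fintype.equivFinOfCardEq (α := Yset) (n := Yset.ncard)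
      (by rw [← Nat.card_eq_fintype_card]; rfl)).symm
    refine ⟨fun l => (e l : W), Subtype.val_injective.comp e.injective, ?_⟩
    ext w
    exact ⟨fun ⟨l, hl⟩ => hl ▸ (e l).2, fun hw => ⟨e.symm ⟨w, hw⟩, by simp⟩⟩
  have hYmem : ∀ l, Y l ∈ Yset := fun l => hYr ▸ Set.mem_range_self l
  have hbR : ∀ l, b l ∈ SR := fun l => (hint ▸ Set.mem_range_self l : b l ∈ SA' ∩ SR).2
  have hbA' : ∀ l, b l ∈ SA' := fun l => (hint ▸ Set.mem_range_self l : b l ∈ SA' ∩ SR).1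
  let β : ι ⊕ Fin Yset.ncard → W := Sum.elim (mA.φ ∘ bA) Y
  have hβl : ∀ l, β (Sum.inl l) = mR.φ (b l) := c1
  have hYA : ∀ l, ∀ v ∈ SA, mA.φ v ≠ Y l := by
    intro l v hv h
    obtain ⟨e, -, f, hf, -, h2⟩ := hYmem l
    exact c3' f hf v hv (h ▸ h2)
  have hYR : ∀ l, ∀ v ∈ SR, mR.φ v ≠ Y l := by
    intro l v hv h
    obtain ⟨e, he, f, -, h1, -⟩ := hYmem l
    exact c3 e he v hv (h ▸ h1)
  have hβ : Function.Injective β := by
    rintro (l | l) (l' | l') h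
    · rw [hβl, hβl] at h
      rw [hb (mR.inj (hbR l) (hbR l') h)]
    · exact (hYA l' _ (hbA l) h).elim
    · exact (hYA l _ (hbA l') h.symm).elim
    · rw [hYinj h]
  have hreal : fol _ W (res H mA.used) β ∈ Real A SA bA Yset.ncard mA.X.ncard := by
    refine ⟨W, inferInstance, res H mA.used, mA.resHost hSA, Y, hYinj, hYA, fun l hl => ?_, rfl,
      rfl⟩
    obtain ⟨e, -, f, hf, -, h2⟩ := hYmem l
    exact c4 f hf _ hl h2
  obtain ⟨W', hW', H', m', Y', hY'inj, hY'1, hY'2, hX', hfol⟩ :=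
    hty _ (by omega) _ (by omega) hreal
  set β' : ι ⊕ Fin Yset.ncard → W' := Sum.elim (m'.φ ∘ b) Y' with hβ'def
  have hβ' : Function.Injective β' := by
    rintro (l | l) (l' | l') h
    · rw [hb (m'.inj (hbA' l) (hbA' l') h)]
    · exact (hY'1 l' _ (hbA' l) h).elim
    · exact (hY'1 l _ (hbA' l') h.symm).elim
    · rw [hY'inj h]
  have hsup : (res H mA.used).support ∩ (res H mR.used).support ⊆ Set.range β := by
    rintro w ⟨h1, h2⟩
    rcases support_res_subset h1 with ⟨u, hu, rfl⟩ | ⟨e, he, h1⟩ <;>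
      rcases support_res_subset h2 with ⟨v, hv, h2⟩ | ⟨f, hf, h2⟩
    · obtain ⟨l, rfl⟩ := c2 u hu v hv h2.symm
      exact ⟨Sum.inl l, (hβl l).trans h2⟩
    · exact (c3' f hf u hu h2).elim
    · exact (c3 e he v hv (h2 ▸ h1)).elim
    · obtain ⟨l, hl⟩ : w ∈ Set.range Y := hYr.ge ⟨e, he, f, hf, h1, h2⟩
      exact ⟨Sum.inr l, hl⟩
  have hpl : Planar (glue H' β' (res H mR.used) β) :=
    planar_glue hβ hβ' hsup (hH.mono (sup_le res_le res_le)) hfol
  let g := glueMap β β'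
  have hg : Function.Injective g := glueMap_injective hβ hβ'
  let φ : V → W' ⊕ W := fun v => if v ∈ SA' then Sum.inl (m'.φ v) else g (mR.φ v)
  let I : Sym2 V → Set (W' ⊕ W) := fun e =>
    if e ∈ A'.edgeSet then Sum.inl '' m'.I e else g '' mR.I e
  have hφA : ∀ v ∈ SA', φ v = Sum.inl (m'.φ v) := fun v hv => if_pos hv
  have hφR : ∀ v ∈ SR, φ v = g (mR.φ v) := by
    intro v hv
    by_cases h : v ∈ SA'
    · obtain ⟨l, rfl⟩ : v ∈ Set.range b := hint ▸ ⟨h, hv⟩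
      rw [hφA _ h, ← hβl]
      exact (glueMap_apply hβ β' (Sum.inl l)).symm
    · exact if_neg h
  have hIA : ∀ e ∈ A'.edgeSet, I e = Sum.inl '' m'.I e := fun e he => if_pos he
  have hIR : ∀ e ∈ R.edgeSet, I e = g '' mR.I e := fun e he => if_neg fun h => hAR e h he
  have hcase : ∀ e ∈ G.edgeSet, e ∈ A'.edgeSet ∨ e ∈ R.edgeSet := by
    intro e he
    rwa [hG, edgeSet_sup] at he
  have hmixA : ∀ e ∈ A'.edgeSet, ∀ f ∈ R.edgeSet, ∀ z, z ∈ I e → z ∈ I f →
      ∃ l, z = Sum.inl (Y' l) ∧ z = g (Y l) ∧ Y' l ∈ m'.I e ∧ Y l ∈ mR.I f := by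
    intro e he f hf z h1 h2
    rw [hIA e he] at h1
    rw [hIR f hf] at h2
    obtain ⟨w', hw', rfl⟩ := h1
    obtain ⟨w, hw, h⟩ := h2
    obtain ⟨l | l, rfl, rfl⟩ := glueMap_eq_inl hβ h
    · exact (m'.avoid e he _ (hbA' l) hw').elim
    · exact ⟨l, rfl, h.symm, hw', hw⟩
  have hAA : ∀ e ∈ A'.edgeSet, ∀ z, Sum.inl z ∈ I e → z ∈ m'.I e := by
    intro e he z h
    rw [hIA e he] at h
    obtain ⟨w, hw, h⟩ := h
    exact Sum.inl_injective h ▸ hw
  have hRR : ∀ e ∈ R.edgeSet, ∀ z, g z ∈ I e → z ∈ mR.I e := by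
    intro e he z h
    rw [hIR e he] at h
    obtain ⟨w, hw, h⟩ := h
    exact hg h ▸ hw
  have hAAR : ∀ e ∈ A'.edgeSet, ∀ e' ∈ A'.edgeSet, ∀ f ∈ R.edgeSet, ∀ z, z ∈ I e → z ∈ I e' →
      z ∈ I f → e = e' := by
    intro e he e' he' f hf z h1 h2 h3
    by_contra hne
    obtain ⟨l, rfl, -, k1, -⟩ := hmixA e he f hf z h1 h3
    exact hY'2 l ⟨e, he, e', he', hne, k1, hAA e' he' _ h2⟩
  have hARR : ∀ e ∈ A'.edgeSet, ∀ f ∈ R.edgeSet, ∀ f' ∈ R.edgeSet, ∀ z, z ∈ I e → z ∈ I f →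
      z ∈ I f' → f = f' := by
    intro e he f hf f' hf' z h1 h2 h3
    by_contra hne
    obtain ⟨l, -, rfl, -, k1⟩ := hmixA e he f hf z h1 h2
    obtain ⟨e₀, he₀, -, -, h₀, -⟩ := hYmem l
    exact c4' e₀ he₀ _ ⟨f, hf, f', hf', hne, k1, hRR f' hf' _ h3⟩ h₀
  refine ⟨W' ⊕ W, inferInstance, glue H' β' (res H mR.used) β, ⟨φ, I, ?_, ?_, ?_, ?_⟩, hpl, ?_⟩
  · have key : ∀ u ∈ SA', ∀ v ∈ SR, φ u = φ v → u = v := by
      intro u hu v hv h
      rw [hφA u hu, hφR v hv] at h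
      obtain ⟨l | l, h1, h2⟩ := glueMap_eq_inl hβ h.symm
      · rw [hβl] at h1
        rw [← mR.inj (hbR l) hv h1]
        exact (m'.inj (hbA' l) hu h2).symm
      · exact (hYR l v hv h1.symm).elim
    intro u _ v _ h
    rcases hcov u with hu | hu <;> rcases hcov v with hv | hv
    · rw [hφA u hu, hφA v hv] at h
      exact m'.inj hu hv (Sum.inl_injective h)
    · exact key u hu v hv h
    · exact (key v hv u hu h.symm).symm
    · rw [hφR u hu, hφR v hv] at h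
      exact mR.inj hu hv (hg h)
  · intro u v huv
    rcases hcase s(u, v) huv with h | h
    · have h' : A'.Adj u v := h
      rw [hIA _ h, hφA u (hSA' h'.mem_support_left), hφA v (hSA' h'.mem_support_right)]
      have := ((m'.join u v h').graph_map Sum.inl).mono_graph
        (le_sup_left : _ ≤ glue H' β' (res H mR.used) β)
      rwa [Set.image_union, Set.image_pair] at this
    · have h' : R.Adj u v := h
      rw [hIR _ h, hφR u (hSR h'.mem_support_left), hφR v (hSR h'.mem_support_right)]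
      have := (((mR.resHost hSR).join u v h').graph_map g).mono_graph
        (le_sup_right : _ ≤ glue H' β' (res H mR.used) β)
      rwa [Set.image_union, Set.image_pair] at this
  · intro e he v _ h
    rcases hcase e he with he | he <;> rcases hcov v with hv | hv
    · rw [hφA v hv] at h
      exact m'.avoid e he v hv (hAA e he _ h)
    · rw [hφR v hv, hIA e he] at h
      obtain ⟨w', hw', h⟩ := h
      obtain ⟨l | l, h1, rfl⟩ := glueMap_eq_inl hβ h.symm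
      · exact m'.avoid e he _ (hbA' l) hw'
      · exact hYR l v hv h1.symm
    · rw [hφA v hv, hIR e he] at h
      obtain ⟨w, hw, h⟩ := h
      obtain ⟨l | l, rfl, h2⟩ := glueMap_eq_inl hβ h
      · rw [hβl] at hw
        exact mR.avoid e he _ (hbR l) hw
      · exact hY'1 l v hv h2.symm
    · rw [hφR v hv] at h
      exact mR.avoid e he v hv (hRR e he _ h)
  · intro e he f hf e' he' z h1 h2 h3
    rcases hcase e he with he | he <;> rcases hcase f hf with hf | hf <;>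
      rcases hcase e' he' with he' | he'
    · have h1' := h1
      rw [hIA e he] at h1'
      obtain ⟨w, -, rfl⟩ := h1'
      exact m'.notriple e he f hf e' he' w (hAA _ he _ h1) (hAA _ hf _ h2) (hAA _ he' _ h3)
    · exact Or.inl (hAAR e he f hf e' he' z h1 h2 h3)
    · exact Or.inr (Or.inl (hAAR e he e' he' f hf z h1 h3 h2))
    · exact Or.inr (Or.inr (hARR e he f hf e' he' z h1 h2 h3))
    · exact Or.inr (Or.inr (hAAR f hf e' he' e he z h2 h3 h1))
    · exact Or.inr (Or.inl (hARR f hf e he e' he' z h2 h1 h3))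
    · exact Or.inl (hARR e' he' e he f hf z h3 h1 h2)
    · have h1' := h1
      rw [hIR e he] at h1'
      obtain ⟨w, -, rfl⟩ := h1'
      exact mR.notriple e he f hf e' he' w (hRR _ he _ h1) (hRR _ hf _ h2) (hRR _ he' _ h3)
  · refine lt_of_le_of_lt (Set.ncard_le_ncard
      (t := Sum.inl '' m'.X ∪ g '' mR.X ∪ g '' Yset) ?_) ?_
    · rintro z ⟨e, he, f, hf, hne, h1, h2⟩
      rcases hcase e he with he | he <;> rcases hcase f hf with hf | hf
      · have h1' : z ∈ I e := h1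
        rw [hIA e he] at h1'
        obtain ⟨w, -, rfl⟩ := h1'
        exact Or.inl (Or.inl ⟨w, ⟨e, he, f, hf, hne, hAA _ he _ h1, hAA _ hf _ h2⟩, rfl⟩)
      · obtain ⟨l, -, rfl, -, -⟩ := hmixA e he f hf z h1 h2
        exact Or.inr ⟨_, hYmem l, rfl⟩
      · obtain ⟨l, -, rfl, -, -⟩ := hmixA f hf e he z h2 h1
        exact Or.inr ⟨_, hYmem l, rfl⟩
      · have h1' : z ∈ I e := h1
        rw [hIR e he] at h1'
        obtain ⟨w, -, rfl⟩ := h1'
        exact Or.inl (Or.inr ⟨w, ⟨e, he, f, hf, hne, hRR _ he _ h1, hRR _ hf _ h2⟩, rfl⟩)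
    · have e1 := Set.ncard_union_le (Sum.inl '' m'.X ∪ g '' mR.X) (g '' Yset)
      have e2 := Set.ncard_union_le (Sum.inl '' m'.X : Set (W' ⊕ W)) (g '' mR.X)
      rw [Set.ncard_image_of_injective _ hg] at e1 e2
      rw [Set.ncard_image_of_injective _ Sum.inl_injective] at e2
      omega

end Pool.Agent.Lib.MP_9550e9_co
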