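import Pool.Agent.Lib.MP_9550e9_co.ShortenB
import Pool.Agent.Lib.MP_9550e9_co.Chain

/-! A long linked chain through a cubic region contains a non-critical edge. -/

namespace Pool.Agent.Lib.MP_9550e9_co

open SimpleGraph Pool.Agent.Lib.Common.Pl

variable {V : Type}

theorem path_edges_start {G : SimpleGraph V} {a b : V} {p : G.Walk a b} (hp : p.IsPath) :
    ∃ c, ∀ z, s(a, z) ∈ p.edges → z = c := by
  cases p with
  | nil => exact ⟨a, by simp⟩
  | cons h q =>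
    rename_i c
    refine ⟨c, fun z hz => ?_⟩
    rw [Walk.edges_cons, List.mem_cons] at hz
    rcases hz with hz | hz
    · exact Sym2.congr_right.1 hz
    · exact (((Walk.cons_isPath_iff h q).1 hp).2 (q.fst_mem_support_of_mem_edges hz)).elim

theorem path_edges_end {G : SimpleGraph V} {a b : V} {p : G.Walk a b} (hp : p.IsPath) :
    ∃ c, ∀ z, s(b, z) ∈ p.edges → z = c := by
  obtain ⟨c, hc⟩ := path_edges_start hp.reverse
  exact ⟨c, fun z hz => hc z (by simpa using hz)⟩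

theorem path_edges_two {G : SimpleGraph V} {a b : V} {p : G.Walk a b} (hp : p.IsPath) (v : V) :
    ∃ c d, ∀ z, s(v, z) ∈ p.edges → z = c ∨ z = d := by
  induction p with
  | nil => exact ⟨v, v, by simp⟩
  | cons h q ih =>
    rename_i a c b
    have hq := ((Walk.cons_isPath_iff h q).1 hp).1
    by_cases hva : v = a
    · subst hva
      obtain ⟨d, hd⟩ := path_edges_start hp
      exact ⟨d, d, fun z hz => Or.inl (hd z hz)⟩
    by_cases hvc : v = c
    · subst hvc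
      obtain ⟨d, hd⟩ := path_edges_start hq
      refine ⟨a, d, fun z hz => ?_⟩
      rw [Walk.edges_cons, List.mem_cons] at hz
      rcases hz with hz | hz
      · rcases Sym2.eq_iff.1 hz with ⟨h1, -⟩ | ⟨-, h1⟩
        exacts [(hva h1).elim, Or.inl h1]
      · exact Or.inr (hd z hz)
    · obtain ⟨d, d', hd⟩ := ih hq
      refine ⟨d, d', fun z hz => ?_⟩
      rw [Walk.edges_cons, List.mem_cons] at hz
      rcases hz with hz | hz
      · rcases Sym2.eq_iff.1 hz with ⟨h1, -⟩ | ⟨h1, -⟩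
        exacts [(hva h1).elim, (hvc h1).elim]
      · exact hd z hz

theorem exists_ne_ne_of_three_le [Finite V] {s : Set V} (h : 3 ≤ s.ncard) (c d : V) :
    ∃ z ∈ s, z ≠ c ∧ z ≠ d := by
  by_contra hc
  push Not at hc
  have h1 : s ⊆ {c, d} := fun z hz => by
    by_cases e : z = c
    exacts [Or.inl e, Or.inr (hc z hz e)]
  have h2 := Set.ncard_le_ncard h1
  have h3 := Set.ncard_insert_le c ({d} : Set V)
  rw [Set.ncard_singleton] at h3
  omega

theorem ncard_inter_add (s t : Set V) [Finite V] : (s ∩ t).ncard + (s ∩ tᶜ).ncard = s.ncard := by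
  rw [← Set.sdiff_eq, Set.ncard_inter_add_ncard_sdiff_eq_ncard]

namespace Linked

variable {G : SimpleGraph V} {w p t : ℕ} (Λ : Linked G w p t)

theorem U_anti {i j : ℕ} (hij : i ≤ j) (hj : j ≤ p) : Λ.U j ⊆ Λ.U i := by
  induction j, hij using Nat.le_induction with
  | base => exact le_rfl
  | succ j hij ih => exact (Λ.anti j (by omega)).1.trans (ih (by omega))

theorem U_sub {i : ℕ} (hi : i ≤ p) : Λ.U i ⊆ Λ.O := (Λ.U_anti (Nat.zero_le i) hi).trans Λ.sub

theorem x_mem {i : ℕ} (hi : i ≤ p) (l : Fin t) : Λ.x i l ∈ bd G (Λ.U i) ∩ Λ.O :=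
  Λ.range_x i hi ▸ Set.mem_range_self l

theorem x_cubic {i : ℕ} (hi : i ≤ p) (l : Fin t) : (G.neighborSet (Λ.x i l)).ncard = 3 :=
  Λ.cubic _ (Λ.x_mem hi l).2 fun h => (Λ.x_mem hi l).1.1 (Λ.U_anti hi le_rfl h)

/-- The boundary vertex has at least two neighbours on the inner side. -/
def σ (i : ℕ) (l : Fin t) : Prop := 2 ≤ (G.neighborSet (Λ.x i l) ∩ Λ.U i).ncard

theorem exists_spare_edge [Finite V] {i j : ℕ} (hij : i < j) (hj : j ≤ p)
    (hσ : ∀ l, Λ.σ i l ↔ Λ.σ j l) (P : ∀ l, G.Walk (Λ.x i l) (Λ.x j l)) (hP : ∀ l, (P l).IsPath)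
    (hd : ∀ l l', l ≠ l' → ∀ z ∈ (P l).support, z ∉ (P l').support) :
    ∃ a z, G.Adj a z ∧ (a ∈ Λ.U i ∨ z ∈ Λ.U i) ∧ a ∉ Λ.U j ∧ z ∉ Λ.U j ∧
      ∀ l, s(a, z) ∉ (P l).edges := by
  obtain ⟨v, hvi, hvj⟩ : ∃ v ∈ Λ.U i, v ∉ Λ.U j := by
    obtain ⟨v, h1, h2⟩ := Set.exists_of_ssubset (Λ.anti i (by omega))
    exact ⟨v, h1, fun h => h2 (Λ.U_anti hij hj h)⟩
  have hvO : v ∈ Λ.O := Λ.U_sub (by omega) hvi
  have other : ∀ l a z, a ∈ (P l).support → s(a, z) ∉ (P l).edges → ∀ l', s(a, z) ∉ (P l').edges := by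
    intro l a z ha h l' h'
    by_cases e : l = l'
    · exact h (e ▸ h')
    · exact hd l l' e a ha ((P l').fst_mem_support_of_mem_edges h')
  by_cases hvx : v ∈ Set.range (Λ.x j)
  · obtain ⟨l, rfl⟩ := hvx
    by_cases hs : Λ.σ j l
    · obtain ⟨c, hc⟩ := path_edges_start (hP l)
      obtain ⟨z, ⟨hz1, hz2⟩, hzc⟩ :=
        Set.exists_ne_of_one_lt_ncard (show 1 < _ from (hσ l).2 hs) c
      have hxi := (Λ.x_mem (by omega : i ≤ p) l)
      refine ⟨Λ.x i l, z, hz1, Or.inr hz2, fun h => hxi.1.1 (Λ.U_anti hij.le hj h), fun h => ?_,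
        other l _ _ (P l).start_mem_support fun h => hzc (hc z h)⟩
      obtain ⟨l', hl'⟩ : Λ.x i l ∈ Set.range (Λ.x j) := by
        rw [Λ.range_x j hj]
        exact ⟨⟨fun h => hxi.1.1 (Λ.U_anti hij.le hj h), z, h, hz1⟩, hxi.2⟩
      by_cases e : l = l'
      · subst e
        exact hxi.1.1 (hl' ▸ hvi)
      · exact hd l l' e _ (P l).start_mem_support (hl' ▸ (P l').end_mem_support)
    · obtain ⟨c, hc⟩ := path_edges_end (hP l)
      have h3 := Λ.x_cubic hj l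
      have h4 := ncard_inter_add (G.neighborSet (Λ.x j l)) (Λ.U j)
      obtain ⟨z, ⟨hz1, hz2⟩, hzc⟩ := Set.exists_ne_of_one_lt_ncard
        (show 1 < (G.neighborSet (Λ.x j l) ∩ (Λ.U j)ᶜ).ncard by unfold σ at hs; omega) c
      exact ⟨_, z, hz1, Or.inl hvi, hvj, hz2,
        other l _ _ (P l).end_mem_support fun h => hzc (hc z h)⟩
  · have hno : ∀ z, G.Adj v z → z ∉ Λ.U j := fun z hz h => hvx (by
      rw [Λ.range_x j hj]
      exact ⟨⟨hvj, z, h, hz⟩, hvO⟩)
    have h3 := Λ.cubic v hvO fun h => hvj (Λ.U_anti hj le_rfl h)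
    by_cases hl : ∃ l, v ∈ (P l).support
    · obtain ⟨l, hl⟩ := hl
      obtain ⟨c, d, hcd⟩ := path_edges_two (hP l) v
      obtain ⟨z, hz, h1, h2⟩ := exists_ne_ne_of_three_le h3.ge c d
      exact ⟨v, z, hz, Or.inl hvi, hvj, hno z hz,
        other l _ _ hl fun h => (hcd z h).elim h1 h2⟩
    · obtain ⟨z, hz, -⟩ := exists_ne_ne_of_three_le h3.ge v v
      exact ⟨v, z, hz, Or.inl hvi, hvj, hno z hz,
        fun l h => hl ⟨l, (P l).fst_mem_support_of_mem_edges h⟩⟩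

end Linked

end Pool.Agent.Lib.MP_9550e9_co
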